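import Mathlib
import Pool.Agent.Results.MP_15eae7_nt.Preperiodic

set_option autoImplicit false

/-!
Rational preperiodic points of the quadratic rational maps over `ℚ` that are conjugate over `ℚ` to
`x ↦ b x + c / x`.  `P¹(ℚ)` is `Option ℚ`, with `none` for the point at infinity.
-/

namespace Pool.Agent.Results.MP_869812_nt.ConjOddMaps

open Polynomial

/-- The self-map of `P¹(ℚ)` given by `p / q`, for `max (deg p) (deg q) = 2` and `p`, `q` coprime. -/
noncomputable def ratMap (p q : ℚ[X]) : Option ℚ → Option ℚ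
  | none => if q.coeff 2 = 0 then none else some (p.coeff 2 / q.coeff 2)
  | some x => if q.eval x = 0 then none else some (p.eval x / q.eval x)

/-- `p / q` is a rational map of degree two. -/
def DegTwo (p q : ℚ[X]) : Prop := IsCoprime p q ∧ max p.natDegree q.natDegree = 2

/-- The Möbius map `x ↦ (α x + β) / (γ x + δ)` of `P¹(ℚ)`. -/
def mob (α β γ δ : ℚ) : Option ℚ → Option ℚ
  | none => if γ = 0 then none else some (α / γ)
  | some x => if γ * x + δ = 0 then none else some ((α * x + β) / (γ * x + δ))

/-- The points of `P¹(ℚ)` with a finite forward orbit. -/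
def PrePer (f : Option ℚ → Option ℚ) : Set (Option ℚ) :=
  {P | (Set.range (fun n : ℕ => f^[n] P)).Finite}

/-- `p / q` is conjugate over `ℚ` to `x ↦ b x + c / x = (b x² + c) / x`. -/
def ConjTo (p q : ℚ[X]) (b c : ℚ) : Prop :=
  ∃ α β γ δ : ℚ, α * δ - β * γ ≠ 0 ∧
    ∀ P : Option ℚ, mob α β γ δ (ratMap p q P) = ratMap (C b * X ^ 2 + C c) X (mob α β γ δ P)

/-- Every rational map of degree two over `ℚ` which is conjugate over `ℚ` to `x ↦ b x + c / x` for
some `c ≠ 0` has at most six preperiodic points in `P¹(ℚ)`. -/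
def Good (b : ℚ) : Prop :=
  ∀ c : ℚ, c ≠ 0 → ∀ p q : ℚ[X], DegTwo p q → ConjTo p q b c →
    (PrePer (ratMap p q)).Finite ∧ (PrePer (ratMap p q)).ncard ≤ 6

/-- The non-zero rational numbers of height at most `H`. -/
def Box (H : ℕ) : Set ℚ := {b : ℚ | b ≠ 0 ∧ b.num.natAbs ≤ H ∧ b.den ≤ H}

theorem mob_injective {α β γ δ : ℚ} (h : α * δ - β * γ ≠ 0) :
    Function.Injective (mob α β γ δ) := by
  intro P Q hPQ
  rcases P with _ | x <;> rcases Q with _ | y
  · rfl
  · exfalso
    simp only [mob] at hPQ
    by_cases h1 : γ = 0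
    · subst h1
      simp only [if_true, zero_mul, zero_add] at hPQ
      by_cases h2 : δ = 0
      · apply h; rw [h2]; ring
      · rw [if_neg h2] at hPQ
        exact absurd hPQ (by simp)
    · rw [if_neg h1] at hPQ
      by_cases h2 : γ * y + δ = 0
      · rw [if_pos h2] at hPQ
        exact absurd hPQ (by simp)
      · rw [if_neg h2, Option.some_inj, div_eq_div_iff h1 h2] at hPQ
        apply h
        linear_combination hPQ
  · exfalso
    simp only [mob] at hPQ
    by_cases h1 : γ = 0
    · subst h1
      simp only [if_true, zero_mul, zero_add] at hPQ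
      by_cases h2 : δ = 0
      · apply h; rw [h2]; ring
      · rw [if_neg h2] at hPQ
        exact absurd hPQ (by simp)
    · rw [if_neg h1] at hPQ
      by_cases h2 : γ * x + δ = 0
      · rw [if_pos h2] at hPQ
        exact absurd hPQ (by simp)
      · rw [if_neg h2, Option.some_inj, div_eq_div_iff h2 h1] at hPQ
        apply h
        linear_combination -hPQ
  · simp only [mob] at hPQ
    congr 1
    by_cases h1 : γ * x + δ = 0
    · rw [if_pos h1] at hPQ
      by_cases h2 : γ * y + δ = 0
      · have h3 : γ ≠ 0 := by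
          rintro rfl
          apply h
          have : δ = 0 := by linarith
          rw [this]; ring
        have h4 : γ * (x - y) = 0 := by linarith
        rcases mul_eq_zero.mp h4 with h5 | h5
        · exact absurd h5 h3
        · linarith
      · rw [if_neg h2] at hPQ
        exact absurd hPQ (by simp)
    · rw [if_neg h1] at hPQ
      by_cases h2 : γ * y + δ = 0
      · rw [if_pos h2] at hPQ
        exact absurd hPQ (by simp)
      · rw [if_neg h2, Option.some_inj, div_eq_div_iff h1 h2] at hPQ
        have h3 : (α * δ - β * γ) * (x - y) = 0 := by linear_combination hPQ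
        rcases mul_eq_zero.mp h3 with h4 | h4
        · exact absurd h4 h
        · linarith

theorem ratMap_eq (b c : ℚ) :
    ratMap (C b * X ^ 2 + C c) X = Pool.Agent.Results.MP_15eae7_nt.Preperiodic.f b c := by
  funext P
  rcases P with _ | x
  · simp [ratMap, Pool.Agent.Results.MP_15eae7_nt.Preperiodic.f, coeff_X]
  · simp only [ratMap, Pool.Agent.Results.MP_15eae7_nt.Preperiodic.f, eval_X, eval_add, eval_mul,
      eval_C, eval_pow]
    by_cases hx : x = 0
    · simp [hx]
    · rw [if_neg hx, if_neg hx]
      congr 1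
      field_simp

theorem good_of_settled {b : ℚ} (h : Pool.Agent.Results.MP_15eae7_nt.Preperiodic.Settled b) :
    Good b := by
  intro c hc p q _ hconj
  obtain ⟨α, β, γ, δ, hdet, hcomm⟩ := hconj
  have hinj := mob_injective hdet
  obtain ⟨_, hfin, hcard⟩ := h.1 c hc
  set g := mob α β γ δ with hg
  set F := ratMap p q with hF
  have hiter : ∀ (n : ℕ) (P : Option ℚ),
      g (F^[n] P) = (Pool.Agent.Results.MP_15eae7_nt.Preperiodic.f b c)^[n] (g P) := by
    intro n
    induction n with
    | zero => intro P; rfl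
    | succ n ih =>
      intro P
      rw [Function.iterate_succ_apply, Function.iterate_succ_apply, ih, hcomm, ratMap_eq]
  have hsub : g '' PrePer F ⊆ Pool.Agent.Results.MP_15eae7_nt.Preperiodic.PrePer b c := by
    rintro _ ⟨P, hP, rfl⟩
    show (Set.range (fun n : ℕ =>
      (Pool.Agent.Results.MP_15eae7_nt.Preperiodic.f b c)^[n] (g P))).Finite
    have : (Set.range (fun n : ℕ =>
        (Pool.Agent.Results.MP_15eae7_nt.Preperiodic.f b c)^[n] (g P))) =
        g '' (Set.range (fun n : ℕ => F^[n] P)) := by
      rw [← Set.range_comp]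
      congr 1
      funext n
      exact (hiter n P).symm
    rw [this]
    exact Set.Finite.image _ hP
  have hfin1 : (g '' PrePer F).Finite := hfin.subset hsub
  have hfin2 : (PrePer F).Finite := Set.Finite.of_finite_image hfin1 hinj.injOn
  refine ⟨hfin2, ?_⟩
  calc (PrePer F).ncard = (g '' PrePer F).ncard := (Set.ncard_image_of_injective _ hinj).symm
    _ ≤ (Pool.Agent.Results.MP_15eae7_nt.Preperiodic.PrePer b c).ncard :=
        Set.ncard_le_ncard hsub hfin
    _ ≤ 6 := hcard

theorem box_eq (H : ℕ) : Box H = Pool.Agent.Results.MP_15eae7_nt.Preperiodic.Box H := rfl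

/-- For every non-zero integer `b`, and for all non-zero rational numbers `b` outside a set with
`O(H^(3/2))` elements of height at most `H`, all quadratic rational maps over `ℚ` that are conjugate
over `ℚ` to some `x ↦ b x + c / x` have at most six rational preperiodic points. -/
theorem result :
    (∀ b : ℤ, b ≠ 0 → Good (b : ℚ)) ∧
    (∃ K : ℝ, ∀ H : ℕ, ((Box H ∩ {b : ℚ | ¬ Good b}).ncard : ℝ) ≤ K * (H : ℝ) ^ (3 / 2 : ℝ)) ∧
    Filter.Tendsto (fun H : ℕ => ((Box H ∩ {b : ℚ | Good b}).ncard : ℝ) /
      ((Box H).ncard : ℝ)) Filter.atTop (nhds 1) := by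
  obtain ⟨h1, ⟨K, h2⟩, h3⟩ := Pool.Agent.Results.MP_15eae7_nt.Preperiodic.result
  have hBfin : ∀ H : ℕ, (Box H).Finite := fun H =>
    Pool.Agent.Results.MP_15eae7_nt.Preperiodic.box_finite H
  refine ⟨fun b hb => good_of_settled (h1 b hb), ⟨K, fun H => ?_⟩, ?_⟩
  · refine le_trans ?_ (h2 H)
    have : (Box H ∩ {b : ℚ | ¬ Good b}).ncard ≤
        (Pool.Agent.Results.MP_15eae7_nt.Preperiodic.Box H ∩
          {b : ℚ | ¬ Pool.Agent.Results.MP_15eae7_nt.Preperiodic.Settled b}).ncard := by
      apply Set.ncard_le_ncard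
      · rintro b ⟨hb1, hb2⟩
        exact ⟨hb1, fun hs => hb2 (good_of_settled hs)⟩
      · exact (hBfin H).subset Set.inter_subset_left
    exact_mod_cast this
  · refine tendsto_of_tendsto_of_tendsto_of_le_of_le h3 tendsto_const_nhds ?_ ?_
    · intro H
      have hle : (Pool.Agent.Results.MP_15eae7_nt.Preperiodic.Box H ∩
          {b : ℚ | Pool.Agent.Results.MP_15eae7_nt.Preperiodic.Settled b}).ncard ≤
          (Box H ∩ {b : ℚ | Good b}).ncard := by
        apply Set.ncard_le_ncard
        · rintro b ⟨hb1, hb2⟩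
          exact ⟨hb1, good_of_settled hb2⟩
        · exact (hBfin H).subset Set.inter_subset_left
      show ((Pool.Agent.Results.MP_15eae7_nt.Preperiodic.Box H ∩
          {b : ℚ | Pool.Agent.Results.MP_15eae7_nt.Preperiodic.Settled b}).ncard : ℝ) /
          ((Pool.Agent.Results.MP_15eae7_nt.Preperiodic.Box H).ncard : ℝ) ≤
          ((Box H ∩ {b : ℚ | Good b}).ncard : ℝ) / ((Box H).ncard : ℝ)
      rw [← box_eq]
      apply div_le_div_of_nonneg_right _ (by positivity)
      rw [← box_eq] at hle
      exact_mod_cast hle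
    · intro H
      have hle : (Box H ∩ {b : ℚ | Good b}).ncard ≤ (Box H).ncard :=
        Set.ncard_le_ncard Set.inter_subset_left (hBfin H)
      have hle' : ((Box H ∩ {b : ℚ | Good b}).ncard : ℝ) ≤ ((Box H).ncard : ℝ) := by
        exact_mod_cast hle
      exact div_le_one_of_le₀ hle' (by positivity)

end Pool.Agent.Results.MP_869812_nt.ConjOddMaps
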