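import Mathlib
set_option autoImplicit false

/-!
# Rational preperiodic points of `b x + c / x`

Outline.  Along a cycle `x i` of non-zero rational points put `u i = c / (x i) ^ 2` and
`s i = b + u i`, so that `x (i + 1) = s i * x i` and `u (i + 1) = u i / (s i) ^ 2` (structure `Cyc`).

* `Bad b`: there is a cycle in which some product of two consecutive `s i` is not `1` or `-1`.
  Integers are not bad (`not_bad_int`), and only `O(N ^ ε)` numbers `b` with numerator `N` are bad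
  (`bad_count_one`: the `s i` are controlled by integers `E i`, `W i` composed of primes dividing
  `N`, some consecutive ones are at most `N ^ 3`, and two consecutive `s i` determine `b`).
* `Thin b`: one of seven square conditions on `b`.  No non-zero integer is thin, and only
  `O(H ^ (3 / 2))` rational numbers of height at most `H` are thin (`thin_count`).
* If `b` is neither bad nor thin, then all preperiodic points are `0`, `∞` and points of one of three
  families with two or four elements (`inT_of_prePer`, `inT_six`).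
* `Settled b`: for all `c` all periods are `1` or `2` and there are at most six rational preperiodic
  points, and for some `c` there are exactly six.
-/

namespace Pool.Agent.Results.MP_869812_nt.OddMaps

section

/-- strictly increasing along a periodic sequence is impossible -/
theorem per_lt {α : Type*} [Preorder α] (f : ℕ → α) {n : ℕ} (hn : 0 < n)
    (hper : ∀ i, f (i + n) = f i) (k : ℕ) (h : ∀ i, k ≤ i → f i < f (i + 1)) : False := by
  have h1 : ∀ j, 0 < j → f k < f (k + j) := by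
    intro j hj
    induction j with
    | zero => omega
    | succ j ih =>
      rcases Nat.eq_zero_or_pos j with h0 | h0
      · subst h0; exact h k le_rfl
      · exact lt_trans (ih h0) (h (k + j) (by omega))
  have := h1 n hn
  rw [hper] at this
  exact lt_irrefl _ this

theorem per_mul {α : Type*} (f : ℕ → α) {n : ℕ}
    (hper : ∀ i, f (i + n) = f i) (m i : ℕ) : f (i + n * m) = f i := by
  induction m with
  | zero => simp
  | succ m ih => rw [Nat.mul_succ, ← Nat.add_assoc, hper, ih]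

/-- the cycle hypotheses -/
structure Cyc (b : ℚ) (u s : ℕ → ℚ) (n : ℕ) : Prop where
  hn : 0 < n
  hb : b ≠ 0
  hs : ∀ i, s i = b + u i
  hu : ∀ i, u (i + 1) = u i / (s i) ^ 2
  hper : ∀ i, u (i + n) = u i
  u0 : ∀ i, u i ≠ 0
  s0 : ∀ i, s i ≠ 0

namespace Cyc

variable {b : ℚ} {u s : ℕ → ℚ} {n : ℕ}

theorem sper (C : Cyc b u s n) (i : ℕ) : s (i + n) = s i := by
  rw [C.hs, C.hs, C.hper]

theorem neg (C : Cyc b u s n) : Cyc (-b) (fun i => - u i) (fun i => - s i) n where
  hn := C.hn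
  hb := neg_ne_zero.mpr C.hb
  hs := fun i => by simp only [C.hs i]; ring
  hu := fun i => by
    simp only [C.hu i]
    have := C.s0 i
    field_simp
  hper := fun i => by simp only [C.hper i]
  u0 := fun i => neg_ne_zero.mpr (C.u0 i)
  s0 := fun i => neg_ne_zero.mpr (C.s0 i)

theorem all_of_one (C : Cyc b u s n) (k : ℕ) (h : (s k) ^ 2 = 1) : ∀ i, (s i) ^ 2 = 1 := by
  have h1 : ∀ j, (s (k + j)) ^ 2 = 1 := by
    intro j
    induction j with
    | zero => exact h
    | succ j ih =>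
      have h2 : u (k + j + 1) = u (k + j) := by rw [C.hu, ih, div_one]
      have h3 : s (k + j + 1) = s (k + j) := by rw [C.hs, C.hs, h2]
      rw [← Nat.add_assoc, h3]; exact ih
  intro i
  have h2 := per_mul s C.sper k i
  have hn := C.hn
  have h3 : k ≤ i + n * k := by nlinarith [Nat.mul_le_mul_right k hn]
  obtain ⟨j, hj⟩ := Nat.exists_eq_add_of_le h3
  rw [← h2, hj]; exact h1 j

theorem s_succ (C : Cyc b u s n) (i : ℕ) :
    (s i) ^ 2 * s (i + 1) = b * (s i) ^ 2 + s i - b := by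
  have h0 := C.s0 i
  have h1 : u i = s i - b := by rw [C.hs i]; ring
  rw [C.hs (i + 1), C.hu i, h1]
  field_simp
  ring

theorem t_eq (C : Cyc b u s n) (i : ℕ) :
    b * ((s i) ^ 2 - 1) = s i * (s i * s (i + 1) - 1) := by
  have := C.s_succ i
  linarith

theorem sub_one (C : Cyc b u s n) (i : ℕ) :
    (s (i + 1) - 1) * (s i) ^ 2 = (s i - 1) * ((b - 1) * s i + b) := by
  have := C.s_succ i
  linear_combination this

theorem add_one (C : Cyc b u s n) (i : ℕ) :
    (s (i + 1) + 1) * (s i) ^ 2 = (s i + 1) * ((b + 1) * s i - b) := by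
  have := C.s_succ i
  linear_combination this

/-- if everything is constant -/
theorem all_of_u (C : Cyc b u s n) (k : ℕ) (h : u (k + 1) = u k) : ∀ i, (s i) ^ 2 = 1 := by
  apply C.all_of_one k
  have h1 := C.hu k
  rw [h] at h1
  have h2 := C.s0 k
  have h3 := C.u0 k
  field_simp at h1
  exact h1

end Cyc

/-- integer valuation sequences with `β ≤ 0` -/
theorem val_nonpos {β : ℤ} {g e : ℕ → ℤ} {n : ℕ} (hn : 0 < n) (hper : ∀ i, g (i + n) = g i)
    (h1 : ∀ i, g (i + 1) = g i - 2 * e i)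
    (h2 : ∀ i, g i ≠ β → e i = min β (g i))
    (h3 : ∀ i, g i = β → β ≤ e i) (hβ : β ≤ 0) :
    ∀ i, e i = 0 ∧ β ≤ g i := by
  have hup : ∀ i, β < g i → β < g (i + 1) ∧ g i ≤ g (i + 1) ∧ e i = β := by
    intro i hi
    have a := h1 i
    have c := h2 i (by omega)
    rw [min_eq_left (by omega)] at c
    omega
  by_cases hex : ∃ k, β < g k
  · obtain ⟨k, hk⟩ := hex
    have h4 : ∀ j, β < g (k + j) := by
      intro j
      induction j with
      | zero => exact hk
      | succ j ih => exact (hup _ ih).1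
    have h5 : ∀ i, β < g i := by
      intro i
      have h6 := per_mul g hper k i
      have h7 : k ≤ i + n * k := by nlinarith [Nat.mul_le_mul_right k hn]
      obtain ⟨j, hj⟩ := Nat.exists_eq_add_of_le h7
      rw [← h6, hj]; exact h4 j
    have hb0 : β = 0 := by
      by_contra hne
      have hlt : β < 0 := by omega
      apply per_lt g hn hper 0
      intro i _
      have := (hup i (h5 i)).2.2
      have := h1 i
      omega
    intro i
    have := (hup i (h5 i)).2.2
    have := h5 i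
    omega
  · push Not at hex
    have h5 : ∀ i, g i = β := by
      intro i
      by_contra hne
      have h6 := hex i
      have h7 := h2 i hne
      rw [min_eq_right h6] at h7
      have h8 := h1 i
      have h9 := hex (i + 1)
      omega
    intro i
    have := h1 i
    have := h5 i
    have := h5 (i + 1)
    omega

end

section

namespace Cyc

variable {b : ℚ} {u s : ℕ → ℚ} {n : ℕ}

theorem v1 (C : Cyc b u s n) (p : ℕ) [Fact p.Prime] (i : ℕ) :
    padicValRat p (u (i + 1)) = padicValRat p (u i) - 2 * padicValRat p (s i) := by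
  rw [C.hu i, padicValRat.div (C.u0 i) (pow_ne_zero _ (C.s0 i)), padicValRat.pow]
  push_cast
  ring

theorem v2 (C : Cyc b u s n) (p : ℕ) [Fact p.Prime] (i : ℕ)
    (h : padicValRat p (u i) ≠ padicValRat p b) :
    padicValRat p (s i) = min (padicValRat p b) (padicValRat p (u i)) := by
  have h0 := C.s0 i
  rw [C.hs i] at h0 ⊢
  exact padicValRat.add_eq_min h0 C.hb (C.u0 i) (Ne.symm h)

theorem v3 (C : Cyc b u s n) (p : ℕ) [Fact p.Prime] (i : ℕ) :
    min (padicValRat p b) (padicValRat p (u i)) ≤ padicValRat p (s i) := by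
  have h0 := C.s0 i
  rw [C.hs i] at h0 ⊢
  exact padicValRat.min_le_padicValRat_add h0

theorem v_unit (C : Cyc b u s n) (p : ℕ) [Fact p.Prime] (h : padicValRat p b ≤ 0) (i : ℕ) :
    padicValRat p (s i) = 0 ∧ padicValRat p b ≤ padicValRat p (u i) := by
  have := val_nonpos (β := padicValRat p b) (g := fun i => padicValRat p (u i))
    (e := fun i => padicValRat p (s i)) C.hn (fun i => by simp only [C.hper i])
    (C.v1 p) (C.v2 p) (fun i hi => by
      have := C.v3 p i
      rw [hi, min_self] at this; exact this) h i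
  exact this

end Cyc

/-- potential inequality -/
theorem pot {β g g' e : ℤ} (hβ : 0 < β) (h1 : g' = g - 2 * e) (h2 : g ≠ β → e = min β g)
    (h3 : min β g ≤ e) :
    2 * (β + e - min β g) + (if g = β then 4 * β else 0) ≤
      4 * β + max (β - g') (g' - β) - max (β - g) (g - β) := by
  by_cases h : g = β
  · rw [if_pos h]
    subst h
    rw [min_self] at h3 ⊢
    omega
  · rw [if_neg h]
    have := h2 h
    omega

end

section

namespace Cyc

variable {b : ℚ} {u s : ℕ → ℚ} {n : ℕ}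

theorem u_neg (C : Cyc b u s n) (hb : 1 ≤ b) (i : ℕ) : u i < 0 := by
  by_contra hcon
  have hk : 0 < u i := lt_of_le_of_ne (not_lt.mp hcon) (Ne.symm (C.u0 i))
  have hf : ∀ j, 0 < u (i + j) := by
    intro j
    induction j with
    | zero => exact hk
    | succ j ih =>
      rw [← Nat.add_assoc, C.hu]
      have := C.s0 (i + j)
      positivity
  apply per_lt (fun j => - u j) C.hn (fun j => by simp only [C.hper j]) i
  intro j hj
  obtain ⟨l, rfl⟩ := Nat.exists_eq_add_of_le hj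
  have h1 := hf l
  have h2 := C.hs (i + l)
  have h3 : 1 < s (i + l) := by linarith
  have h4 : 1 < (s (i + l)) ^ 2 := by nlinarith
  rw [C.hu (i + l), neg_lt_neg_iff, div_lt_iff₀ (by linarith)]
  nlinarith

theorem s_lt_one (C : Cyc b u s n) (hu : ∀ i, u i < 0) (hnt : ∀ i, (s i) ^ 2 ≠ 1) (i : ℕ) :
    s i < 1 := by
  by_contra hcon
  have hk : 1 < s i := by
    refine lt_of_le_of_ne (not_lt.mp hcon) ?_
    intro h
    exact hnt i (by rw [← h]; norm_num)
  have hinc : ∀ j, 1 < s j → s j < s (j + 1) := by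
    intro j hj
    have h1 := C.hu j
    have h2 := C.hs j
    have h3 := C.hs (j + 1)
    have h4 := hu j
    have h5 : 1 < (s j) ^ 2 := by nlinarith
    have h6 : u j < u (j + 1) := by
      rw [h1, lt_div_iff₀ (by linarith)]
      nlinarith
    linarith
  have hf : ∀ j, 1 < s (i + j) := by
    intro j
    induction j with
    | zero => exact hk
    | succ j ih =>
      rw [← Nat.add_assoc]
      exact lt_trans ih (hinc _ ih)
  apply per_lt s C.hn C.sper i
  intro j hj
  obtain ⟨l, rfl⟩ := Nat.exists_eq_add_of_le hj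
  exact hinc _ (hf l)

theorem s_gt (C : Cyc b u s n) (hu : ∀ i, u i < 0) (hnt : ∀ i, (s i) ^ 2 ≠ 1) (i : ℕ) :
    0 < (b - 1) * s i + b := by
  have h1 := C.s_lt_one hu hnt i
  have h2 := C.s_lt_one hu hnt (i + 1)
  have h3 := C.sub_one i
  have h0 := C.s0 i
  have h4 : 0 < (s i) ^ 2 := by positivity
  by_contra hcon
  have h5 : (b - 1) * s i + b ≤ 0 := not_lt.mp hcon
  nlinarith [mul_nonneg_of_nonpos_of_nonpos (sub_nonpos.mpr h1.le) h5]

end Cyc

/-- absolute value bounds in the form of two rational inequalities -/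
theorem abs_bounds' {b : ℚ} {u s : ℕ → ℚ} {n : ℕ} (C : Cyc b u s n) (hb : 2 ≤ b)
    (hnt : ∀ i, (s i) ^ 2 ≠ 1) (i : ℕ) :
    b - 1 < b * |s i| ∧ (b - 1) * |s i| < b := by
  have hu := C.u_neg (by linarith)
  have h1 := C.s_lt_one hu hnt i
  have h2 := C.s_gt hu hnt i
  have h3 := C.s_gt hu hnt (i + 1)
  have h4 := C.s_succ i
  have h0 := C.s0 i
  have h5 : 0 < (s i) ^ 2 := by positivity
  -- (b-1) * s' + b > 0, times s^2
  have h6 : 0 < (b - 1) * (b * (s i) ^ 2 + s i - b) + b * (s i) ^ 2 := by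
    rw [← h4]
    nlinarith
  have h7 : (b - 1) * (b - s i) < b ^ 2 * (s i) ^ 2 := by nlinarith
  rcases lt_or_gt_of_ne h0 with hneg | hpos
  · rw [abs_of_neg hneg]
    constructor
    · by_contra hcon
      have h8 : b * (- s i) ≤ b - 1 := not_lt.mp hcon
      have h9 : 0 < b * (- s i) := by nlinarith
      nlinarith
    · nlinarith
  · rw [abs_of_pos hpos]
    constructor
    · by_contra hcon
      have h8 : b * s i ≤ b - 1 := not_lt.mp hcon
      have h9 : 0 < b * s i := by nlinarith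
      nlinarith
    · nlinarith

theorem abs_bounds {b : ℚ} {u s : ℕ → ℚ} {n : ℕ} (C : Cyc b u s n) (hb : 6 ≤ b)
    (hnt : ∀ i, (s i) ^ 2 ≠ 1) (i : ℕ) :
    b - 1 < b * |s i| ∧ (b - 1) * |s i| < b :=
  abs_bounds' C (by linarith) hnt i

theorem same_bound {b a a' : ℚ} (hb : 6 ≤ b) (h1 : b - 1 < b * a) (h2 : (b - 1) * a < b)
    (h3 : b - 1 < b * a') (h4 : (b - 1) * a' < b)
    (h5 : b * |a ^ 2 - 1| = a * |a * a' - 1|) :
    |a - 1| * (b - 1) ^ 3 ≤ b * a := by
  have ha : 0 < a := by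
    by_contra h
    have : b * a ≤ 0 := mul_nonpos_of_nonneg_of_nonpos (by linarith) (not_lt.mp h)
    linarith
  have ha' : 0 < a' := by
    by_contra h
    have : b * a' ≤ 0 := mul_nonpos_of_nonneg_of_nonpos (by linarith) (not_lt.mp h)
    linarith
  have h6 : |a * a' - 1| * (b - 1) ^ 2 ≤ 2 * b - 1 := by
    have hsq : 0 < (b - 1) ^ 2 := by nlinarith
    rcases abs_cases (a * a' - 1) with ⟨he, _⟩ | ⟨he, _⟩
    · rw [he]
      have : (b - 1) * a * ((b - 1) * a') < b * b :=
        mul_lt_mul'' h2 h4 (by nlinarith) (by nlinarith)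
      nlinarith
    · rw [he]
      have h7 : (b - 1) * (b - 1) < b * a * (b * a') :=
        mul_lt_mul'' h1 h3 (by nlinarith) (by nlinarith)
      have h8 : (1 - a * a') * b ^ 2 < 2 * b - 1 := by nlinarith
      have h9 : (1 - a * a') * (b - 1) ^ 2 ≤ (1 - a * a') * b ^ 2 :=
        mul_le_mul_of_nonneg_left (by nlinarith) (by linarith)
      linarith
  have h7 : |a ^ 2 - 1| = |a - 1| * (a + 1) := by
    have e : a ^ 2 - 1 = (a - 1) * (a + 1) := by ring
    rw [e, abs_mul, abs_of_pos (show (0:ℚ) < a + 1 by linarith)]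
  rw [h7] at h5
  have h8 : 0 ≤ |a - 1| := abs_nonneg _
  -- b |a-1| (a+1) (b-1)^2 ≤ a (2b-1)
  have h9 : |a - 1| * (b * (a + 1)) * (b - 1) ^ 2 ≤ a * (2 * b - 1) := by
    have : |a - 1| * (b * (a + 1)) * (b - 1) ^ 2 = a * (|a * a' - 1| * (b - 1) ^ 2) := by
      linear_combination (b - 1) ^ 2 * h5
    rw [this]
    exact mul_le_mul_of_nonneg_left h6 ha.le
  have h10 : |a - 1| * (2 * b - 1) * (b - 1) ^ 2 ≤ |a - 1| * (b * (a + 1)) * (b - 1) ^ 2 := by
    apply mul_le_mul_of_nonneg_right _ (by positivity)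
    apply mul_le_mul_of_nonneg_left _ h8
    nlinarith
  have h11 : |a - 1| * (b - 1) ^ 2 ≤ a := by
    have h12 : (|a - 1| * (b - 1) ^ 2) * (2 * b - 1) ≤ a * (2 * b - 1) := by nlinarith
    exact le_of_mul_le_mul_right h12 (by linarith)
  have h13 : |a - 1| * (b - 1) ^ 3 = |a - 1| * (b - 1) ^ 2 * (b - 1) := by ring
  rw [h13]
  nlinarith

theorem pos_neg_bound {b s a' : ℚ} (hb : 6 ≤ b) (h1 : b - 1 < b * s)
    (h3 : b - 1 < b * a') (h4 : (b - 1) * a' < b)
    (h5 : s ^ 2 * (b + a') = b - s) (ha1 : a' ≠ 1) :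
    (b + 1) * s - b ≠ 0 ∧ |(b + 1) * s - b| * (b - 1) ^ 3 ≤ b ^ 2 * s := by
  have hs : 0 < s := by
    by_contra h
    have : b * s ≤ 0 := mul_nonpos_of_nonneg_of_nonpos (by linarith) (not_lt.mp h)
    linarith
  have ha' : 0 < a' := by
    by_contra h
    have : b * a' ≤ 0 := mul_nonpos_of_nonneg_of_nonpos (by linarith) (not_lt.mp h)
    linarith
  set D := (b + 1) * s - b with hD
  have hid : D * ((D + 2 * b) * (b + a') + (b + 1)) = b ^ 2 * (1 - a') := by
    rw [hD]
    linear_combination (b + 1) ^ 2 * h5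
  have hbr : 2 * b ^ 2 ≤ (D + 2 * b) * (b + a') + (b + 1) := by
    have e1 : 2 * b - 1 ≤ D + 2 * b := by rw [hD]; nlinarith
    have e2 : b ≤ b + a' := by linarith
    have e3 : (2 * b - 1) * b ≤ (D + 2 * b) * (b + a') :=
      mul_le_mul e1 e2 (by linarith) (by linarith)
    nlinarith
  constructor
  · intro h0
    rw [h0, zero_mul] at hid
    have : 1 - a' ≠ 0 := by
      intro h; apply ha1; linarith
    have hb2 : b ^ 2 ≠ 0 := by positivity
    exact (mul_ne_zero hb2 this) hid.symm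
  · have h6 : |D| * (2 * b ^ 2) ≤ b ^ 2 * |1 - a'| := by
      have e1 : |D| * ((D + 2 * b) * (b + a') + (b + 1)) = b ^ 2 * |1 - a'| := by
        have := congrArg abs hid
        rw [abs_mul, abs_mul, abs_of_pos (show (0:ℚ) < b ^ 2 by positivity),
          abs_of_pos (lt_of_lt_of_le (by positivity) hbr)] at this
        exact this
      rw [← e1]
      exact mul_le_mul_of_nonneg_left hbr (abs_nonneg _)
    have h7 : |1 - a'| * (b - 1) ≤ 1 := by
      rcases abs_cases (1 - a') with ⟨he, _⟩ | ⟨he, _⟩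
      · rw [he]; nlinarith
      · rw [he]; nlinarith
    have h8 : 0 ≤ |D| := abs_nonneg _
    have h9 : |D| * 2 ≤ |1 - a'| := by
      have hb2 : 0 < b ^ 2 := by positivity
      have : (|D| * 2) * b ^ 2 ≤ |1 - a'| * b ^ 2 := by nlinarith
      exact le_of_mul_le_mul_right this hb2
    have h10 : |D| * (b - 1) ≤ 1 := by nlinarith
    have h11 : |D| * (b - 1) ^ 3 ≤ (b - 1) ^ 2 := by
      have : |D| * (b - 1) ^ 3 = (|D| * (b - 1)) * (b - 1) ^ 2 := by ring
      rw [this]
      nlinarith [mul_le_mul_of_nonneg_right h10 (sq_nonneg (b - 1))]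
    nlinarith

theorem neg_pos_bound {b a a' : ℚ} (hb : 6 ≤ b) (h1 : b - 1 < b * a)
    (h3 : b - 1 < b * a') (h4 : a' < 1)
    (h5 : a ^ 2 * (b - a') = b + a) :
    (b - 1) * a - b ≠ 0 ∧ |(b - 1) * a - b| * (b - 1) ^ 3 ≤ b ^ 2 * a := by
  have hs : 0 < a := by
    by_contra h
    have : b * a ≤ 0 := mul_nonpos_of_nonneg_of_nonpos (by linarith) (not_lt.mp h)
    linarith
  have ha' : 0 < a' := by
    by_contra h
    have : b * a' ≤ 0 := mul_nonpos_of_nonneg_of_nonpos (by linarith) (not_lt.mp h)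
    linarith
  set D := (b - 1) * a - b with hD
  have hid : D * ((D + 2 * b) * (b - a') - (b - 1)) = - (b ^ 2 * (1 - a')) := by
    rw [hD]
    linear_combination (b - 1) ^ 2 * h5
  have hbr : (b - 1) * (2 * b - 3) ≤ (D + 2 * b) * (b - a') - (b - 1) := by
    have e1 : 2 * (b - 1) ≤ D + 2 * b := by rw [hD]; nlinarith
    have e2 : b - 1 ≤ b - a' := by linarith
    have e3 : 2 * (b - 1) * (b - 1) ≤ (D + 2 * b) * (b - a') :=
      mul_le_mul e1 e2 (by linarith) (by linarith)
    nlinarith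
  have hbr0 : 0 < (b - 1) * (2 * b - 3) := by nlinarith
  constructor
  · intro h0
    rw [h0, zero_mul] at hid
    have : 1 - a' ≠ 0 := by
      intro h; linarith
    have hb2 : b ^ 2 ≠ 0 := by positivity
    apply (mul_ne_zero hb2 this)
    linarith
  · have h6 : |D| * ((b - 1) * (2 * b - 3)) ≤ b ^ 2 * (1 - a') := by
      have e1 : |D| * ((D + 2 * b) * (b - a') - (b - 1)) = b ^ 2 * (1 - a') := by
        have := congrArg abs hid
        rw [abs_mul, abs_neg, abs_of_pos (show (0:ℚ) < b ^ 2 * (1 - a') by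
            have : (0:ℚ) < 1 - a' := by linarith
            positivity),
          abs_of_pos (lt_of_lt_of_le hbr0 hbr)] at this
        exact this
      rw [← e1]
      exact mul_le_mul_of_nonneg_left hbr (abs_nonneg _)
    have h7 : (1 - a') * b ≤ 1 := by nlinarith
    have h8 : 0 ≤ |D| := abs_nonneg _
    have h9 : |D| * ((b - 1) * (2 * b - 3)) ≤ b := by nlinarith
    have h10 : |D| * (b - 1) ^ 2 ≤ b := by
      have : |D| * (b - 1) ^ 2 ≤ |D| * ((b - 1) * (2 * b - 3)) :=
        mul_le_mul_of_nonneg_left (by nlinarith) h8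
      linarith
    have h11 : |D| * (b - 1) ^ 3 ≤ b * (b - 1) := by
      have : |D| * (b - 1) ^ 3 = (|D| * (b - 1) ^ 2) * (b - 1) := by ring
      rw [this]
      exact mul_le_mul_of_nonneg_right h10 (by linarith)
    nlinarith

end

section

/-- valuation of a rational at a prime dividing the numerator -/
theorem val_of_dvd {q : ℚ} {p : ℕ} (hp : p.Prime) (h : p ∣ q.num.natAbs) :
    padicValRat p q = (padicValNat p q.num.natAbs : ℤ) := by
  have h1 : ¬ p ∣ q.den := by
    intro h2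
    have := q.reduced
    have h3 : p ∣ 1 := by
      rw [← this]; exact Nat.dvd_gcd h h2
    exact hp.one_lt.ne' (Nat.dvd_one.mp h3)
  rw [padicValRat, padicValNat.eq_zero_of_not_dvd h1, padicValInt]
  simp

theorem val_of_not_dvd {q : ℚ} {p : ℕ} (h : ¬ p ∣ q.num.natAbs) :
    padicValRat p q ≤ 0 := by
  rw [padicValRat, padicValInt, padicValNat.eq_zero_of_not_dvd h]
  simp

theorem dvd_of_val_pos {q : ℚ} {p : ℕ} (h : 0 < padicValRat p q) : p ∣ q.num.natAbs := by
  by_contra hcon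
  have := val_of_not_dvd hcon
  omega

theorem val_pos_of_dvd {q : ℚ} {p : ℕ} (hp : p.Prime) (h0 : q ≠ 0) (h : p ∣ q.num.natAbs) :
    0 < padicValRat p q := by
  haveI : Fact p.Prime := ⟨hp⟩
  rw [val_of_dvd hp h]
  have h1 : q.num.natAbs ≠ 0 := by
    simpa using h0
  have := one_le_padicValNat_of_dvd h1 h
  exact_mod_cast this

/-- upper bound for the numerator of a positive rational in terms of valuations -/
theorem num_le {ρ : ℚ} (h0 : ρ ≠ 0) (S : Finset ℕ) (hS : ∀ p ∈ S, p.Prime) (h : ℕ → ℕ)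
    (h1 : ∀ p ∈ S, padicValRat p ρ ≤ h p)
    (h2 : ∀ p, p.Prime → p ∉ S → padicValRat p ρ ≤ 0) :
    ρ.num.natAbs ≤ ∏ p ∈ S, p ^ h p := by
  have hX : ρ.num.natAbs ≠ 0 := by simpa using h0
  have e1 : ρ.num.natAbs = ∏ p ∈ (ρ.num.natAbs).primeFactors,
      p ^ (padicValNat p ρ.num.natAbs) := by
    conv_lhs => rw [← Nat.factorization_prod_pow_eq_self hX]
    rw [Finsupp.prod, Nat.support_factorization]
    apply Finset.prod_congr rfl
    intro p hp
    rw [Nat.factorization_def _ (Nat.prime_of_mem_primeFactors hp)]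
  have hsub : (ρ.num.natAbs).primeFactors ⊆ S := by
    intro p hp
    by_contra hcon
    have hpp := Nat.prime_of_mem_primeFactors hp
    have h3 := h2 p hpp hcon
    have h4 := val_pos_of_dvd hpp h0 (Nat.dvd_of_mem_primeFactors hp)
    omega
  rw [e1]
  calc ∏ p ∈ (ρ.num.natAbs).primeFactors, p ^ (padicValNat p ρ.num.natAbs)
      ≤ ∏ p ∈ (ρ.num.natAbs).primeFactors, p ^ h p := by
        apply Finset.prod_le_prod'
        intro p hp
        have hpp := Nat.prime_of_mem_primeFactors hp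
        apply Nat.pow_le_pow_right hpp.pos
        have h3 := h1 p (hsub hp)
        rw [val_of_dvd hpp (Nat.dvd_of_mem_primeFactors hp)] at h3
        exact_mod_cast h3
    _ ≤ ∏ p ∈ S, p ^ h p := by
        apply Finset.prod_le_prod_of_subset_of_one_le' hsub
        intro p hp _
        exact Nat.one_le_pow _ _ (hS p hp).pos

/-- integrality step -/
theorem num_ge {ρ b : ℚ} (hb : 6 ≤ b) (h0 : 0 < ρ) (h1 : ρ ≠ 1)
    (h2 : |ρ - 1| * (b - 1) ^ 3 ≤ b * ρ) : (b - 1) ^ 3 ≤ b * (ρ.num.natAbs : ℚ) := by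
  have hd : (0:ℚ) < ρ.den := by exact_mod_cast ρ.den_pos
  have hn : (0:ℚ) < ρ.num := by exact_mod_cast Rat.num_pos.mpr h0
  have e0 : ρ = ρ.num / ρ.den := (Rat.num_div_den ρ).symm
  have e1 : ((ρ.num.natAbs : ℕ) : ℚ) = ρ.num := by
    rw [Nat.cast_natAbs, abs_of_pos (Rat.num_pos.mpr h0)]
  rw [e1]
  have e2 : |ρ - 1| * ρ.den = |(ρ.num : ℚ) - ρ.den| := by
    rw [← abs_of_pos hd, ← abs_mul, abs_of_pos hd]
    congr 1
    rw [sub_mul, one_mul, Rat.mul_den_eq_num]
  have e3 : (1:ℚ) ≤ |(ρ.num : ℚ) - ρ.den| := by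
    have hne : ρ.num - (ρ.den : ℤ) ≠ 0 := by
      intro h
      apply h1
      have h3 : ρ.num = (ρ.den : ℤ) := by omega
      rw [e0, h3]
      push_cast
      exact div_self (ne_of_gt hd)
    have := Int.one_le_abs hne
    exact_mod_cast this
  have e4 : ρ * ρ.den = ρ.num := Rat.mul_den_eq_num ρ
  have h3 : 0 ≤ (b - 1) ^ 3 := by
    have : (0:ℚ) ≤ b - 1 := by linarith
    positivity
  calc (b - 1) ^ 3 ≤ |(ρ.num : ℚ) - ρ.den| * (b - 1) ^ 3 := by nlinarith
    _ = (|ρ - 1| * (b - 1) ^ 3) * ρ.den := by rw [← e2]; ring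
    _ ≤ (b * ρ) * ρ.den := mul_le_mul_of_nonneg_right h2 hd.le
    _ = b * ρ.num := by rw [mul_assoc, e4]

theorem val_abs (p : ℕ) (q : ℚ) : padicValRat p |q| = padicValRat p q := by
  rcases abs_choice q with h | h
  · rw [h]
  · rw [h, padicValRat.neg]

theorem rho_exists {b : ℚ} {u s : ℕ → ℚ} {n : ℕ} (C : Cyc b u s n) (hb : 6 ≤ b)
    (hnt : ∀ i, (s i) ^ 2 ≠ 1) (i : ℕ) :
    ∃ ρ : ℚ, 0 < ρ ∧ ρ ≠ 1 ∧ |ρ - 1| * (b - 1) ^ 3 ≤ b * ρ ∧
      ∀ p : ℕ, p.Prime → (padicValRat p ρ ≤ padicValRat p b + padicValRat p (s i)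
        - min (padicValRat p b) (padicValRat p (u i))) ∧
        (padicValRat p b ≤ 0 → padicValRat p ρ ≤ 0) := by
  have h0 := C.s0 i
  have h0' := C.s0 (i + 1)
  obtain ⟨a1, a2⟩ := abs_bounds C hb hnt i
  obtain ⟨a3, a4⟩ := abs_bounds C hb hnt (i + 1)
  have hu := C.u_neg (by linarith)
  have ht := C.t_eq i
  have hs := C.s_succ i
  have hlt := C.s_lt_one hu hnt
  have hbpos : 0 < b := by linarith
  by_cases hsame : 0 < s i * s (i + 1)
  · refine ⟨|s i|, abs_pos.mpr h0, ?_, ?_, ?_⟩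
    · intro h
      apply hnt i
      rw [← sq_abs, h]; norm_num
    · apply same_bound hb a1 a2 a3 a4
      have e : |s i| * |s (i + 1)| = s i * s (i + 1) := by rw [← abs_mul, abs_of_pos hsame]
      rw [e, sq_abs]
      have := congrArg abs ht
      rw [abs_mul, abs_mul, abs_of_pos hbpos] at this
      exact this
    · intro p hp
      haveI : Fact p.Prime := ⟨hp⟩
      rw [val_abs]
      constructor
      · have := min_le_left (padicValRat p b) (padicValRat p (u i))
        linarith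
      · intro hβ
        rw [(C.v_unit p hβ i).1]
  · have hneg : s i * s (i + 1) < 0 :=
      lt_of_le_of_ne (not_lt.mp hsame) (mul_ne_zero h0 h0')
    have hui : b - s i = - u i := by rw [C.hs i]; ring
    have hbs : 0 < b - s i := by have := hu i; linarith
    have hρ : 0 < b * |s i| / (b - s i) := by
      have := abs_pos.mpr h0
      positivity
    have hkey : b * |s i| - (b - s i) ≠ 0 ∧
        |b * |s i| - (b - s i)| * (b - 1) ^ 3 ≤ b ^ 2 * |s i| := by
      rcases lt_or_gt_of_ne h0 with hn | hp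
      · have hp' : 0 < s (i + 1) := by
          by_contra hc
          have := mul_nonneg_of_nonpos_of_nonpos hn.le (not_lt.mp hc)
          linarith
        rw [abs_of_neg hn] at a1 a2 ⊢
        rw [abs_of_pos hp'] at a3 a4
        have := neg_pos_bound (a := - s i) (a' := s (i + 1)) hb a1 a3 (hlt (i + 1))
          (by linear_combination - hs)
        have e : b * -s i - (b - s i) = (b - 1) * -s i - b := by ring
        rw [e]
        exact this
      · have hn' : s (i + 1) < 0 := by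
          by_contra hc
          have := mul_nonneg hp.le (not_lt.mp hc)
          linarith
        rw [abs_of_pos hp] at a1 a2 ⊢
        rw [abs_of_neg hn'] at a3 a4
        have := pos_neg_bound (s := s i) (a' := - s (i + 1)) hb a1 a3 a4
          (by linear_combination - hs) (by
            intro h
            apply hnt (i + 1)
            have : s (i + 1) = -1 := by linarith
            rw [this]; norm_num)
        have e : b * s i - (b - s i) = (b + 1) * s i - b := by ring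
        rw [e]
        exact this
    refine ⟨b * |s i| / (b - s i), hρ, ?_, ?_, ?_⟩
    · intro h
      rw [div_eq_one_iff_eq hbs.ne'] at h
      apply hkey.1
      linarith
    · have e : b * |s i| / (b - s i) - 1 = (b * |s i| - (b - s i)) / (b - s i) := by
        field_simp
      rw [e, abs_div, abs_of_pos hbs, div_mul_eq_mul_div, mul_div_assoc', div_le_div_iff_of_pos_right hbs]
      have := hkey.2
      nlinarith
    · intro p hp
      haveI : Fact p.Prime := ⟨hp⟩
      have hv : padicValRat p (b * |s i| / (b - s i)) =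
          padicValRat p b + padicValRat p (s i) - padicValRat p (u i) := by
        rw [padicValRat.div (mul_ne_zero C.hb (abs_ne_zero.mpr h0)) hbs.ne',
          padicValRat.mul C.hb (abs_ne_zero.mpr h0), val_abs, hui, padicValRat.neg]
      rw [hv]
      constructor
      · have := min_le_right (padicValRat p b) (padicValRat p (u i))
        linarith
      · intro hβ
        have := C.v_unit p hβ i
        linarith [this.1, this.2]

end

section

theorem prod_fac {N : ℕ} (hN : N ≠ 0) : ∏ p ∈ N.primeFactors, p ^ (padicValNat p N) = N := by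
  conv_rhs => rw [← Nat.factorization_prod_pow_eq_self hN]
  rw [Finsupp.prod, Nat.support_factorization]
  apply Finset.prod_congr rfl
  intro p hp
  rw [Nat.factorization_def _ (Nat.prime_of_mem_primeFactors hp)]

theorem size_contra {b : ℚ} {u s : ℕ → ℚ} {n : ℕ} (C : Cyc b u s n) (hb : 6 ≤ b)
    (hnt : ∀ i, (s i) ^ 2 ≠ 1)
    (hq : ∀ p, p.Prime → p ∣ b.num.natAbs → 2 * b.den ≤ p ^ (padicValNat p b.num.natAbs))
    (hN : 2 * b.den ^ 2 ≤ b.num.natAbs) : False := by
  set N := b.num.natAbs with hNdef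
  set D := b.den with hDdef
  have hN0 : N ≠ 0 := by
    rw [hNdef]; simpa using C.hb
  have hD0 : 0 < D := b.den_pos
  set S := N.primeFactors with hSdef
  let β : ℕ → ℕ := fun p => padicValNat p N
  have hβ : ∀ p ∈ S, padicValRat p b = (β p : ℤ) ∧ 0 < β p := by
    intro p hp
    have hpp := Nat.prime_of_mem_primeFactors hp
    have hd := Nat.dvd_of_mem_primeFactors hp
    have h1 := val_of_dvd hpp hd
    have h2 := val_pos_of_dvd hpp C.hb hd
    refine ⟨h1, ?_⟩
    rw [h1] at h2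
    exact_mod_cast h2
  have hpr : ∀ p ∈ S, p.Prime := fun p hp => Nat.prime_of_mem_primeFactors hp
  let g : ℕ → ℕ → ℤ := fun i p => padicValRat p (u i)
  let e : ℕ → ℕ → ℤ := fun i p => padicValRat p (s i)
  let h : ℕ → ℕ → ℕ := fun i p => ((β p : ℤ) + e i p - min (β p : ℤ) (g i p)).toNat
  let δ : ℕ → ℕ → ℕ := fun i p => if g i p = (β p : ℤ) then β p else 0
  have hnn : ∀ i, ∀ p ∈ S, (h i p : ℤ) = (β p : ℤ) + e i p - min (β p : ℤ) (g i p) := by
    intro i p hp
    haveI : Fact p.Prime := ⟨hpr p hp⟩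
    have h3 := C.v3 p i
    rw [(hβ p hp).1] at h3
    simp only [h, e, g]
    omega
  -- the potential inequality summed
  have hsum : ∀ p ∈ S, ∑ i ∈ Finset.range n, (h i p + 2 * δ i p) ≤ 2 * n * β p := by
    intro p hp
    haveI : Fact p.Prime := ⟨hpr p hp⟩
    let φ : ℕ → ℤ := fun i => max ((β p : ℤ) - g i p) (g i p - (β p : ℤ))
    have h1 : ∀ i, 2 * ((h i p : ℤ) + 2 * (δ i p : ℤ)) ≤ 4 * (β p : ℤ) + (φ (i + 1) - φ i) := by
      intro i
      have hv1 := C.v1 p i
      have hv2 := C.v2 p i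
      have hv3 := C.v3 p i
      rw [(hβ p hp).1] at hv2 hv3
      have hpos : (0:ℤ) < (β p : ℤ) := by exact_mod_cast (hβ p hp).2
      have hpot := pot hpos hv1 hv2 hv3
      have h4 := hnn i p hp
      have h5 : (4 * (δ i p : ℤ)) = (if padicValRat p (u i) = (β p : ℤ) then 4 * (β p : ℤ) else 0) := by
        simp only [δ, g]
        split_ifs <;> simp
      rw [← h5] at hpot
      simp only [φ, g, e] at h4 ⊢
      linarith
    have h2 : ∑ i ∈ Finset.range n, (2 * ((h i p : ℤ) + 2 * (δ i p : ℤ))) ≤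
        ∑ i ∈ Finset.range n, (4 * (β p : ℤ) + (φ (i + 1) - φ i)) :=
      Finset.sum_le_sum (fun i _ => h1 i)
    rw [Finset.sum_add_distrib, Finset.sum_range_sub, ← Finset.mul_sum] at h2
    have h3 : φ n = φ 0 := by
      simp only [φ, g]
      have := C.hper 0
      rw [Nat.zero_add] at this
      rw [this]
    rw [h3, sub_self, add_zero, Finset.sum_const, Finset.card_range, nsmul_eq_mul] at h2
    have h4 : ((∑ i ∈ Finset.range n, (h i p + 2 * δ i p) : ℕ) : ℤ) ≤ ((2 * n * β p : ℕ) : ℤ) := by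
      push_cast
      linarith
    exact_mod_cast h4
  let H : ℕ → ℕ := fun i => ∏ p ∈ S, p ^ h i p
  let W : ℕ → ℕ := fun i => ∏ p ∈ S, p ^ δ i p
  have hHW : ∀ i, H i * W i ^ 2 = ∏ p ∈ S, p ^ (h i p + 2 * δ i p) := by
    intro i
    simp only [H, W]
    rw [← Finset.prod_pow, ← Finset.prod_mul_distrib]
    apply Finset.prod_congr rfl
    intro p _
    rw [pow_add, mul_comm 2, pow_mul]
  have hfac : ∏ p ∈ S, p ^ (β p) = N := prod_fac hN0
  have hprod : ∏ i ∈ Finset.range n, (H i * W i ^ 2) ≤ (N ^ 2) ^ n := by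
    calc ∏ i ∈ Finset.range n, (H i * W i ^ 2)
        = ∏ i ∈ Finset.range n, ∏ p ∈ S, p ^ (h i p + 2 * δ i p) :=
          Finset.prod_congr rfl (fun i _ => hHW i)
      _ = ∏ p ∈ S, ∏ i ∈ Finset.range n, p ^ (h i p + 2 * δ i p) := Finset.prod_comm
      _ = ∏ p ∈ S, p ^ (∑ i ∈ Finset.range n, (h i p + 2 * δ i p)) :=
          Finset.prod_congr rfl (fun p _ => Finset.prod_pow_eq_pow_sum _ _ _)
      _ ≤ ∏ p ∈ S, p ^ (2 * n * β p) := by
          apply Finset.prod_le_prod'
          intro p hp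
          exact Nat.pow_le_pow_right (hpr p hp).pos (hsum p hp)
      _ = ∏ p ∈ S, (p ^ β p) ^ (2 * n) := by
          apply Finset.prod_congr rfl
          intro p _
          rw [← pow_mul, mul_comm]
      _ = (N ^ 2) ^ n := by
          rw [Finset.prod_pow, hfac, pow_mul]
  -- lower bound for H
  have hbND : b * D = N := by
    have h1 : b * b.den = b.num := Rat.mul_den_eq_num b
    have h2 : ((b.num.natAbs : ℕ) : ℚ) = b.num := by
      rw [Nat.cast_natAbs, abs_of_pos (Rat.num_pos.mpr (by linarith))]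
    rw [hNdef, h2]; exact h1
  have hDq : (0:ℚ) < D := by exact_mod_cast hD0
  have hH : ∀ i, 125 * (N:ℚ) ^ 2 ≤ 216 * (D:ℚ) ^ 2 * H i := by
    intro i
    obtain ⟨ρ, hρ0, hρ1, hρ2, hρ3⟩ := rho_exists C hb hnt i
    have h1 := num_ge hb hρ0 hρ1 hρ2
    have h2 : ρ.num.natAbs ≤ H i := by
      apply num_le hρ0.ne' S hpr (h i)
      · intro p hp
        have h3 := (hρ3 p (hpr p hp)).1
        have h4 := hnn i p hp
        rw [(hβ p hp).1] at h3
        simp only [e, g] at h4
        rw [h4]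
        exact h3
      · intro p hp hpS
        apply (hρ3 p hp).2
        apply val_of_not_dvd
        intro hd
        apply hpS
        exact Nat.mem_primeFactors.mpr ⟨hp, hd, hN0⟩
    have h3 : (b - 1) ^ 3 ≤ b * (H i : ℚ) := by
      have : (ρ.num.natAbs : ℚ) ≤ (H i : ℚ) := by exact_mod_cast h2
      nlinarith
    have h4 : 125 * b ^ 3 ≤ 216 * (b - 1) ^ 3 := by
      have h5 : 5 * b ≤ 6 * (b - 1) := by linarith
      have h6 : (5 * b) ^ 3 ≤ (6 * (b - 1)) ^ 3 := pow_le_pow_left₀ (by linarith) h5 3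
      nlinarith
    have h7 : b * (125 * b ^ 2) ≤ b * (216 * (H i : ℚ)) := by nlinarith
    have h8 : 125 * b ^ 2 ≤ 216 * (H i : ℚ) := le_of_mul_le_mul_left h7 (by linarith)
    rw [← hbND]
    nlinarith [mul_le_mul_of_nonneg_right h8 (sq_nonneg (D:ℚ))]
  have hNq : 2 * (D:ℚ) ^ 2 ≤ N := by exact_mod_cast hN
  have hNpos : (0:ℚ) < N := by exact_mod_cast Nat.pos_of_ne_zero hN0
  have hHN : ∀ i, N < H i := by
    intro i
    have h1 := hH i
    have h2 : (N:ℚ) < H i := by
      by_contra hc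
      have h3 : (H i : ℚ) ≤ N := not_lt.mp hc
      have h4 : 216 * (D:ℚ) ^ 2 * H i ≤ 216 * (D:ℚ) ^ 2 * N :=
        mul_le_mul_of_nonneg_left h3 (by positivity)
      nlinarith
    exact_mod_cast h2
  have hW : ∀ i, 2 * D ≤ W i := by
    intro i
    by_contra hcon
    apply absurd (hHN i)
    rw [not_lt]
    rw [← hfac]
    apply Finset.prod_le_prod'
    intro p hp
    apply Nat.pow_le_pow_right (hpr p hp).pos
    by_contra hc2
    apply hcon
    have hgb : g i p = (β p : ℤ) := by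
      by_contra hne
      haveI : Fact p.Prime := ⟨hpr p hp⟩
      have h2 := C.v2 p i
      rw [(hβ p hp).1] at h2
      have h3 := h2 hne
      have h4 := hnn i p hp
      simp only [e, g] at h4
      rw [h3] at h4
      omega
    have h5 : p ^ (δ i p) ≤ W i := by
      apply Finset.single_le_prod' (f := fun p => p ^ (δ i p)) _ hp
      intro q hq'
      exact Nat.one_le_pow _ _ (hpr q hq').pos
    have h6 : δ i p = β p := by simp only [δ]; rw [if_pos hgb]
    rw [h6] at h5
    exact le_trans (hq p (hpr p hp) (Nat.dvd_of_mem_primeFactors hp)) h5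
  have hbig : ∀ i, N ^ 2 < H i * W i ^ 2 := by
    intro i
    have h1 := hH i
    have h2 : (2 * (D:ℚ)) ≤ W i := by exact_mod_cast hW i
    have h3 : 4 * (D:ℚ) ^ 2 ≤ (W i : ℚ) ^ 2 := by nlinarith
    have h4 : (0:ℚ) ≤ H i := by positivity
    have h5 : (N:ℚ) ^ 2 < (H i : ℚ) * (W i : ℚ) ^ 2 := by
      have h6 : 4 * (D:ℚ) ^ 2 * H i ≤ (W i : ℚ) ^ 2 * H i := mul_le_mul_of_nonneg_right h3 h4
      nlinarith [sq_nonneg (N:ℚ), pow_pos hNpos 2]
    exact_mod_cast h5
  have hlt : ∏ i ∈ Finset.range n, (N ^ 2) < ∏ i ∈ Finset.range n, (H i * W i ^ 2) := by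
    apply Finset.prod_lt_prod_of_nonempty
    · intro i _
      have := Nat.pos_of_ne_zero hN0
      positivity
    · intro i _
      exact hbig i
    · exact ⟨0, Finset.mem_range.mpr C.hn⟩
  rw [Finset.prod_const, Finset.card_range] at hlt
  omega

end

section

theorem diff_prod {R : Type*} [CommRing R] (U : ℕ → R) (L : ℕ → ℕ → R)
    (h : ∀ i j, U (i + 1) - U (j + 1) = (U i - U j) * L i j) (i j l : ℕ) :
    U (i + l) - U (j + l) = (U i - U j) * ∏ t ∈ Finset.range l, L (i + t) (j + t) := by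
  induction l with
  | zero => simp
  | succ l ih =>
    rw [Finset.prod_range_succ, ← mul_assoc, ← ih, ← Nat.add_assoc, ← Nat.add_assoc, h]

theorem min_period {R : Type*} [CommRing R] (U : ℕ → R) {n : ℕ} (hn : 0 < n)
    (hper : U n = U 0) :
    ∃ m, 0 < m ∧ U m = U 0 ∧ ∀ k, 0 < k → k < m → U k ≠ U 0 := by
  classical
  have hex : ∃ m, 0 < m ∧ U m = U 0 := ⟨n, hn, hper⟩
  refine ⟨Nat.find hex, (Nat.find_spec hex).1, (Nat.find_spec hex).2, ?_⟩
  intro k hk hkm h
  exact Nat.find_min hex hkm ⟨hk, h⟩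

theorem sum_form {R : Type*} [CommRing R] (U : ℕ → R) (L : ℕ → ℕ → R)
    (h : ∀ i j, U (i + 1) - U (j + 1) = (U i - U j) * L i j) (m : ℕ) :
    U m - U 0 = (U 1 - U 0) * ∑ i ∈ Finset.range m, ∏ t ∈ Finset.range i, L (1 + t) (0 + t) := by
  rw [← Finset.sum_range_sub, Finset.mul_sum]
  apply Finset.sum_congr rfl
  intro i _
  rw [← diff_prod U L h 1 0 i, Nat.add_comm 1 i, Nat.zero_add]

theorem tor2 {R : Type*} [CommRing R] [IsDomain R] (φ : R →+* ZMod (2 ^ 2)) (U : ℕ → R)
    (L : ℕ → ℕ → R) (h : ∀ i j, U (i + 1) - U (j + 1) = (U i - U j) * L i j)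
    (hL : ∀ i j, φ (L i j) = 1) {n : ℕ} (hn : 0 < n) (hper : U n = U 0) : U 1 = U 0 := by
  obtain ⟨m, hm, hm1, hm2⟩ := min_period U hn hper
  rcases Nat.even_or_odd m with ⟨k, hk⟩ | hodd
  · exfalso
    have hk0 : 0 < k := by omega
    have h1 := diff_prod U L h k 0 k
    rw [← hk, hm1, Nat.zero_add] at h1
    have h2 : (U k - U 0) * (∏ t ∈ Finset.range k, L (k + t) (0 + t) + 1) = 0 := by
      rw [mul_add, ← h1]; ring
    rcases mul_eq_zero.mp h2 with h3 | h3
    · exact hm2 k hk0 (by omega) (sub_eq_zero.mp h3)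
    · have h4 := congrArg φ h3
      rw [map_add, map_prod, map_one, map_zero, Finset.prod_congr rfl (fun t _ => hL _ _),
        Finset.prod_const_one] at h4
      revert h4
      decide
  · by_contra hne
    have h1 := sum_form U L h m
    rw [hm1, sub_self] at h1
    rcases mul_eq_zero.mp h1.symm with h3 | h3
    · exact hne (sub_eq_zero.mp h3)
    · have h4 := congrArg φ h3
      rw [map_sum, map_zero] at h4
      have h5 : ∀ i ∈ Finset.range m, φ (∏ t ∈ Finset.range i, L (1 + t) (0 + t)) = 1 := by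
        intro i _
        rw [map_prod, Finset.prod_congr rfl (fun t _ => hL _ _), Finset.prod_const_one]
      rw [Finset.sum_congr rfl h5, Finset.sum_const, Finset.card_range, nsmul_eq_mul, mul_one,
        ZMod.natCast_eq_zero_iff] at h4
      obtain ⟨c, hc⟩ := h4
      obtain ⟨d, hd⟩ := hodd
      omega

theorem tor3 {R : Type*} [CommRing R] [IsDomain R] (φ : R →+* ZMod (3 ^ 2)) (U : ℕ → R)
    (L : ℕ → ℕ → R) (h : ∀ i j, U (i + 1) - U (j + 1) = (U i - U j) * L i j)
    (lam : ZMod (3 ^ 2)) (hlam : 3 * lam = 3)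
    (hL : ∀ i j, φ (L i j) = lam) {n : ℕ} (hn : 0 < n) (hper : U n = U 0) : U 1 = U 0 := by
  obtain ⟨m, hm, hm1, hm2⟩ := min_period U hn hper
  have hpow : ∀ k : ℕ, 3 * lam ^ k = 3 := by
    intro k
    induction k with
    | zero => simp
    | succ k ih => rw [pow_succ lam k, ← mul_assoc, ih, hlam]
  by_cases h3 : 3 ∣ m
  · exfalso
    obtain ⟨k, hk⟩ := h3
    have hk0 : 0 < k := by omega
    have h1 := diff_prod U L h k 0 k
    have h2 := diff_prod U L h (k + k) (0 + k) k
    have e1 : k + k + k = m := by omega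
    have e2 : (0 + k) + k = k + k := by omega
    rw [e1, e2, hm1] at h2
    rw [h1] at h2
    set A := ∏ t ∈ Finset.range k, L (k + t) (0 + t) with hA
    set A' := ∏ t ∈ Finset.range k, L (k + k + t) (0 + k + t) with hA'
    rw [Nat.zero_add] at h1
    have h5 : (U k - U 0) * (1 + A + A * A') = 0 := by
      linear_combination - h1 - h2
    rcases mul_eq_zero.mp h5 with h6 | h6
    · exact hm2 k hk0 (by omega) (sub_eq_zero.mp h6)
    · have h7 := congrArg φ h6
      have hφA : φ A = lam ^ k := by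
        rw [hA, map_prod, Finset.prod_congr rfl (fun t _ => hL _ _), Finset.prod_const,
          Finset.card_range]
      have hφA' : φ A' = lam ^ k := by
        rw [hA', map_prod, Finset.prod_congr rfl (fun t _ => hL _ _), Finset.prod_const,
          Finset.card_range]
      rw [map_add, map_add, map_mul, map_one, map_zero, hφA, hφA'] at h7
      have h8 := hpow k
      have hdec : ∀ x : ZMod (3 ^ 2), 3 * x = 3 → 1 + x + x * x ≠ 0 := by decide
      exact hdec _ h8 h7
  · by_contra hne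
    have h1 := sum_form U L h m
    rw [hm1, sub_self] at h1
    rcases mul_eq_zero.mp h1.symm with h4 | h4
    · exact hne (sub_eq_zero.mp h4)
    · have h5 := congrArg (fun x => 3 * φ x) h4
      simp only [map_sum, map_zero, mul_zero, Finset.mul_sum] at h5
      have h6 : ∀ i ∈ Finset.range m, 3 * φ (∏ t ∈ Finset.range i, L (1 + t) (0 + t)) = 3 := by
        intro i _
        rw [map_prod, Finset.prod_congr rfl (fun t _ => hL _ _), Finset.prod_const,
          Finset.card_range, hpow]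
      rw [Finset.sum_congr rfl h6, Finset.sum_const, Finset.card_range, nsmul_eq_mul] at h5
      have h7 : ((m * 3 : ℕ) : ZMod (3 ^ 2)) = 0 := by
        push_cast
        exact h5
      rw [ZMod.natCast_eq_zero_iff] at h7
      obtain ⟨c, hc⟩ := h7
      apply h3
      exact ⟨c, by omega⟩

/-- attracting case -/
theorem attr {R : Type*} [CommRing R] [IsDomain R] {N : ℕ} (φ : R →+* ZMod N) (π : R)
    (hπ : φ π ≠ 0) (D F : ℕ → R) (h : ∀ i, D (i + 1) = D i * F i)
    (hF : ∀ i, φ (π * F i) = 0) {n : ℕ} (hn : 0 < n) (hper : D n = D 0) : D 0 = 0 := by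
  have h1 : ∀ m, D m = D 0 * ∏ t ∈ Finset.range m, F t := by
    intro m
    induction m with
    | zero => simp
    | succ m ih => rw [Finset.prod_range_succ, ← mul_assoc, ← ih, h]
  have h2 := h1 n
  rw [hper] at h2
  have h3 : D 0 * (1 - ∏ t ∈ Finset.range n, F t) = 0 := by
    rw [mul_sub, ← h2]; ring
  rcases mul_eq_zero.mp h3 with h4 | h4
  · exact h4
  · exfalso
    have h5 : ∏ t ∈ Finset.range n, F t = 1 := (sub_eq_zero.mp h4).symm
    obtain ⟨k, rfl⟩ : ∃ k, n = k + 1 := ⟨n - 1, by omega⟩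
    rw [Finset.prod_range_succ] at h5
    have h6 : φ (π * 1) = 0 := by
      rw [← h5, mul_comm (∏ t ∈ Finset.range k, F t), ← mul_assoc, map_mul, hF k, zero_mul]
    rw [mul_one] at h6
    exact hπ h6

end

section

theorem norm_le_of_val {p : ℕ} [hp : Fact p.Prime] {q : ℚ} (h0 : q ≠ 0)
    (h : 0 ≤ padicValRat p q) : ‖(q : ℚ_[p])‖ ≤ 1 := by
  apply Padic.norm_rat_le_one
  intro hd
  have h1 : ¬ p ∣ q.num.natAbs := by
    intro h2
    have h3 : p ∣ 1 := by
      rw [← q.reduced]; exact Nat.dvd_gcd h2 hd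
    exact hp.out.one_lt.ne' (Nat.dvd_one.mp h3)
  have h4 : padicValRat p q = - (padicValNat p q.den : ℤ) := by
    rw [padicValRat, padicValInt, padicValNat.eq_zero_of_not_dvd h1]
    simp
  have h5 : 1 ≤ padicValNat p q.den := one_le_padicValNat_of_dvd q.den_ne_zero hd
  omega

/-- the p-adic integer attached to a p-integral rational -/
noncomputable def toZ (p : ℕ) [Fact p.Prime] (q : ℚ) : ℤ_[p] :=
  open Classical in
  if h : ‖(q : ℚ_[p])‖ ≤ 1 then ⟨(q : ℚ_[p]), h⟩ else 0

theorem coe_toZ {p : ℕ} [Fact p.Prime] {q : ℚ} (h : ‖(q : ℚ_[p])‖ ≤ 1) :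
    ((toZ p q : ℤ_[p]) : ℚ_[p]) = (q : ℚ_[p]) := by
  rw [toZ, dif_pos h]

/-- transfer of a cycle to `ℤ_p` -/
theorem transfer {b : ℚ} {u s : ℕ → ℚ} {n : ℕ} (C : Cyc b u s n) (p : ℕ) [Fact p.Prime]
    (hb : padicValRat p b = 0) :
    ∃ (B B' : ℤ_[p]) (U I : ℕ → ℤ_[p]), B * B' = 1 ∧ (∀ i, (B + U i) * I i = 1) ∧
      (∀ i, U (i + 1) = U i * (I i) ^ 2) ∧ U n = U 0 ∧ (U 1 = U 0 → u 1 = u 0) ∧
      (∀ i, B + U i = 1 → s i = 1) ∧ (∀ i, B + U i = -1 → s i = -1) := by
  have hun := fun i => C.v_unit p hb.le i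
  have hB := norm_le_of_val (p := p) C.hb hb.ge
  have hB' : ‖((b⁻¹ : ℚ) : ℚ_[p])‖ ≤ 1 :=
    norm_le_of_val (inv_ne_zero C.hb) (by rw [padicValRat.inv, hb]; simp)
  have hU : ∀ i, ‖((u i : ℚ) : ℚ_[p])‖ ≤ 1 := fun i =>
    norm_le_of_val (C.u0 i) (by rw [← hb]; exact (hun i).2)
  have hI : ∀ i, ‖(((s i)⁻¹ : ℚ) : ℚ_[p])‖ ≤ 1 := fun i =>
    norm_le_of_val (inv_ne_zero (C.s0 i)) (by rw [padicValRat.inv, (hun i).1]; simp)
  have key : ∀ i, (((toZ p b + toZ p (u i) : ℤ_[p])) : ℚ_[p]) = ((s i : ℚ) : ℚ_[p]) := by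
    intro i
    rw [PadicInt.coe_add, coe_toZ hB, coe_toZ (hU i), C.hs i]
    push_cast
    ring
  refine ⟨toZ p b, toZ p b⁻¹, fun i => toZ p (u i), fun i => toZ p (s i)⁻¹, ?_, ?_, ?_, ?_,
    ?_, ?_, ?_⟩
  · apply Subtype.ext
    rw [PadicInt.coe_mul, coe_toZ hB, coe_toZ hB', ← Rat.cast_mul, mul_inv_cancel₀ C.hb]
    simp
  · intro i
    apply Subtype.ext
    rw [PadicInt.coe_mul, key i, coe_toZ (hI i), ← Rat.cast_mul, mul_inv_cancel₀ (C.s0 i)]
    simp
  · intro i
    apply Subtype.ext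
    rw [PadicInt.coe_mul, PadicInt.coe_pow, coe_toZ (hU (i + 1)), coe_toZ (hU i),
      coe_toZ (hI i), ← Rat.cast_pow, ← Rat.cast_mul, C.hu i]
    congr 1
    rw [inv_pow, div_eq_mul_inv]
  · have := C.hper 0
    rw [Nat.zero_add] at this
    simp only [this]
  · intro h
    have h1 := congrArg (fun x : ℤ_[p] => (x : ℚ_[p])) h
    simp only [coe_toZ (hU 1), coe_toZ (hU 0)] at h1
    exact_mod_cast h1
  · intro i h
    have h1 := congrArg (fun x : ℤ_[p] => (x : ℚ_[p])) h
    simp only [key i, PadicInt.coe_one] at h1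
    exact_mod_cast h1
  · intro i h
    have h1 := congrArg (fun x : ℤ_[p] => (x : ℚ_[p])) h
    simp only [key i, PadicInt.coe_neg, PadicInt.coe_one] at h1
    exact_mod_cast h1

theorem diff_id {R : Type*} [CommRing R] (B : R) (U I : ℕ → R)
    (h1 : ∀ i, (B + U i) * I i = 1) (h2 : ∀ i, U (i + 1) = U i * (I i) ^ 2) (i j : ℕ) :
    U (i + 1) - U (j + 1) = (U i - U j) * ((B ^ 2 - U i * U j) * (I i * I j) ^ 2) := by
  have a := h1 i
  have c := h1 j
  rw [h2 i, h2 j]
  have e1 : U i * I i ^ 2 = U i * I i ^ 2 * ((B + U j) * I j) ^ 2 := by rw [c]; ring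
  have e2 : U j * I j ^ 2 = U j * I j ^ 2 * ((B + U i) * I i) ^ 2 := by rw [a]; ring
  rw [e1, e2]
  ring

theorem case_two {b : ℚ} {u s : ℕ → ℚ} {n : ℕ} (C : Cyc b u s n)
    (hb : padicValRat 2 b = 0) : ∀ i, (s i) ^ 2 = 1 := by
  obtain ⟨B, B', U, I, h1, h2, h3, h4, h5, _, _⟩ := transfer C 2 hb
  apply C.all_of_u 0
  apply h5
  let φ : ℤ_[2] →+* ZMod (2 ^ 2) := PadicInt.toZModPow 2
  apply tor2 φ U (fun i j => (B ^ 2 - U i * U j) * (I i * I j) ^ 2) (diff_id B U I h2 h3) _ C.hn h4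
  intro i j
  have a1 := congrArg φ h1
  have a2 := congrArg φ (h2 i)
  have a3 := congrArg φ (h2 j)
  rw [map_mul, map_one] at a1
  rw [map_mul, map_add, map_one] at a2 a3
  rw [map_mul, map_sub, map_pow, map_mul, map_pow, map_mul]
  have d1 : ∀ x y : ZMod (2 ^ 2), x * y = 1 → 2 * x = 2 := by decide
  have d2 : ∀ x u i : ZMod (2 ^ 2), 2 * x = 2 → (x + u) * i = 1 → 2 * u = 0 ∧ i ^ 2 = 1 := by
    decide
  have d3 : ∀ x u v : ZMod (2 ^ 2), 2 * x = 2 → 2 * u = 0 → 2 * v = 0 → x ^ 2 - u * v = 1 := by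
    decide
  have c1 := d1 _ _ a1
  have c2 := d2 _ _ _ c1 a2
  have c3 := d2 _ _ _ c1 a3
  rw [d3 _ _ _ c1 c2.1 c3.1, mul_pow, c2.2, c3.2]
  ring

theorem case_three {b : ℚ} {u s : ℕ → ℚ} {n : ℕ} (C : Cyc b u s n)
    (hb : padicValRat 3 b = 0) : ∀ i, (s i) ^ 2 = 1 := by
  obtain ⟨B, B', U, I, h1, h2, h3, h4, h5, h6, h7⟩ := transfer C 3 hb
  let φ : ℤ_[3] →+* ZMod (3 ^ 2) := PadicInt.toZModPow 2
  have a1 := congrArg φ h1
  rw [map_mul, map_one] at a1
  have a2 : ∀ i, (φ B + φ (U i)) * φ (I i) = 1 := by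
    intro i
    have := congrArg φ (h2 i)
    rw [map_mul, map_add, map_one] at this
    exact this
  have a3 : ∀ i, φ (U (i + 1)) = φ (U i) * φ (I i) ^ 2 := by
    intro i
    rw [h3 i, map_mul, map_pow]
  have d1 : ∀ x y : ZMod (3 ^ 2), x * y = 1 → 3 * x = 3 ∨ 3 * x = 6 := by decide
  have d2 : ∀ x u : ZMod (3 ^ 2), (3 * x = 3 ∨ 3 * x = 6) →
      (3 * (x + u) = 3 ∨ 3 * (x + u) = 6) → 3 * u = 0 ∨ 3 * u = 3 * x := by decide
  have c1 := d1 _ _ a1
  have c2 := d2 _ _ c1 (d1 _ _ (a2 0))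
  rcases c2 with c3 | c3
  · -- near identity
    apply C.all_of_u 0
    apply h5
    have d3 : ∀ s i u : ZMod (3 ^ 2), s * i = 1 → 3 * u = 0 → u * i ^ 2 = u := by decide
    have e1 : ∀ i, φ (U i) = φ (U 0) := by
      intro i
      induction i with
      | zero => rfl
      | succ i ih =>
        rw [a3 i, d3 _ _ _ (a2 i) (by rw [ih]; exact c3), ih]
    have e2 : ∀ i, φ (I i) = φ (I 0) := by
      intro i
      have f1 := a2 i
      have f2 := a2 0
      rw [e1 i] at f1
      calc φ (I i) = (φ B + φ (U 0)) * φ (I 0) * φ (I i) := by rw [f2, one_mul]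
        _ = ((φ B + φ (U 0)) * φ (I i)) * φ (I 0) := by ring
        _ = φ (I 0) := by rw [f1, one_mul]
    apply tor3 φ U (fun i j => (B ^ 2 - U i * U j) * (I i * I j) ^ 2) (diff_id B U I h2 h3)
      ((φ B ^ 2 - φ (U 0) * φ (U 0)) * (φ (I 0) * φ (I 0)) ^ 2) _ _ C.hn h4
    · have d4 : ∀ x u i : ZMod (3 ^ 2), (x + u) * i = 1 → 3 * u = 0 →
          3 * ((x ^ 2 - u * u) * (i * i) ^ 2) = 3 := by decide
      exact d4 _ _ _ (a2 0) c3
    · intro i j
      rw [map_mul, map_sub, map_pow, map_mul, map_pow, map_mul, e1 i, e1 j, e2 i, e2 j]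
  · -- attracting
    have d3 : ∀ s i u : ZMod (3 ^ 2), s * i = 1 → 3 * (u * i ^ 2) = 3 * u := by decide
    have e1 : ∀ i, 3 * φ (U i) = 3 * φ B := by
      intro i
      induction i with
      | zero => exact c3
      | succ i ih =>
        rw [a3 i, d3 _ _ _ (a2 i), ih]
    rcases c1 with c4 | c4
    · -- η = -1
      apply C.all_of_one 0
      have e2 := attr φ 3 (by rw [map_ofNat]; decide) (fun i => B + U i + 1)
        (fun i => ((B + 1) * (B + U i) - B) * (I i) ^ 2) (by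
          intro i
          have := h2 i
          rw [h3 i]
          linear_combination (- B * ((B + U i) * I i + 1) - ((B + U i) * I i + 1) * 1) * this) (by
          intro i
          have d5 : ∀ x u i : ZMod (3 ^ 2), 3 * x = 3 → (x + u) * i = 1 → 3 * u = 3 * x →
              3 * (((x + 1) * (x + u) - x) * i ^ 2) = 0 := by decide
          have := d5 _ _ _ c4 (a2 i) (e1 i)
          simp only [map_mul, map_sub, map_add, map_pow, map_one, map_ofNat]
          exact this) C.hn (by simp only [h4])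
      rw [h7 0 (by linear_combination e2)]
      norm_num
    · apply C.all_of_one 0
      have e2 := attr φ 3 (by rw [map_ofNat]; decide) (fun i => B + U i - 1)
        (fun i => ((B - 1) * (B + U i) + B) * (I i) ^ 2) (by
          intro i
          have := h2 i
          rw [h3 i]
          linear_combination (- B * ((B + U i) * I i + 1) + ((B + U i) * I i + 1) * 1) * this) (by
          intro i
          have d5 : ∀ x u i : ZMod (3 ^ 2), 3 * x = 6 → (x + u) * i = 1 → 3 * u = 3 * x →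
              3 * (((x - 1) * (x + u) + x) * i ^ 2) = 0 := by decide
          have := d5 _ _ _ c4 (a2 i) (e1 i)
          simp only [map_mul, map_sub, map_add, map_pow, map_one, map_ofNat]
          exact this) C.hn (by simp only [h4])
      rw [h6 0 (by linear_combination e2)]
      norm_num

end

section

theorem one_of_val {q : ℚ} (h0 : q ≠ 0) (h : ∀ p, p.Prime → padicValRat p q = 0) :
    |q| = 1 := by
  have h1 : q.num.natAbs = 1 := by
    rw [Nat.eq_one_iff_not_exists_prime_dvd]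
    intro p hp hd
    have := val_pos_of_dvd hp h0 hd
    rw [h p hp] at this
    exact lt_irrefl _ this
  have h2 : q.den = 1 := by
    rw [Nat.eq_one_iff_not_exists_prime_dvd]
    intro p hp hd
    have : Fact p.Prime := ⟨hp⟩
    have h3 : ¬ p ∣ q.num.natAbs := by
      rw [h1]
      intro h4
      exact hp.one_lt.ne' (Nat.dvd_one.mp h4)
    have h4 := h p hp
    rw [padicValRat, padicValInt, padicValNat.eq_zero_of_not_dvd h3] at h4
    have h5 : 1 ≤ padicValNat p q.den := one_le_padicValNat_of_dvd q.den_ne_zero hd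
    omega
  have h3 : q = q.num := by
    conv_lhs => rw [← Rat.num_div_den q, h2]
    simp
  rw [h3]
  rcases Int.natAbs_eq q.num with h4 | h4
  · rw [h4, h1]; norm_num
  · rw [h4, h1]; norm_num

theorem den_one_of_val {q : ℚ} (h : ∀ p, p.Prime → 0 ≤ padicValRat p q) : q.den = 1 := by
  rw [Nat.eq_one_iff_not_exists_prime_dvd]
  intro p hp hd
  have : Fact p.Prime := ⟨hp⟩
  have h3 : ¬ p ∣ q.num.natAbs := by
    intro h2
    have h4 : p ∣ 1 := by
      rw [← q.reduced]; exact Nat.dvd_gcd h2 hd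
    exact hp.one_lt.ne' (Nat.dvd_one.mp h4)
  have h4 := h p hp
  rw [padicValRat, padicValInt, padicValNat.eq_zero_of_not_dvd h3] at h4
  have h5 : 1 ≤ padicValNat p q.den := one_le_padicValNat_of_dvd q.den_ne_zero hd
  omega

theorem of_t {b : ℚ} {u s : ℕ → ℚ} {n : ℕ} (C : Cyc b u s n)
    (h : ∀ i, |s i * s (i + 1)| = 1) :
    (∀ i, (s i) ^ 2 = 1) ∨ (∀ i, s i * s (i + 1) = -1) := by
  by_cases hex : ∃ k, s k * s (k + 1) = 1
  · left
    obtain ⟨k, hk⟩ := hex
    apply C.all_of_one k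
    have := C.t_eq k
    rw [hk, sub_self, mul_zero] at this
    rcases mul_eq_zero.mp this with h1 | h1
    · exact absurd h1 C.hb
    · linarith
  · right
    intro i
    push Not at hex
    have h1 := h i
    rcases abs_eq (zero_le_one' ℚ) |>.mp h1 with h2 | h2
    · exact absurd h2 (hex i)
    · exact h2

section ints

variable {β : ℤ} {g e : ℕ → ℤ} {n : ℕ}

theorem typeA (hn : 0 < n) (hper : ∀ i, g (i + n) = g i)
    (h1 : ∀ i, g (i + 1) = g i - 2 * e i) (h2 : ∀ i, g i ≠ β → e i = min β (g i))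
    (k : ℕ) (hk : -β < g k ∧ g k < β) : ∀ i, -β < g i ∧ g i < β := by
  have h3 : ∀ j, -β < g (k + j) ∧ g (k + j) < β := by
    intro j
    induction j with
    | zero => exact hk
    | succ j ih =>
      have a := h1 (k + j)
      have c := h2 (k + j) (by omega)
      rw [min_eq_right (by omega)] at c
      rw [← Nat.add_assoc]
      omega
  intro i
  have h6 := per_mul g hper k i
  have h7 : k ≤ i + n * k := by nlinarith [Nat.mul_le_mul_right k hn]
  obtain ⟨j, hj⟩ := Nat.exists_eq_add_of_le h7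
  rw [← h6, hj]; exact h3 j

theorem alt_of_le (hβ : 0 < β)
    (h1 : ∀ i, g (i + 1) = g i - 2 * e i) (h2 : ∀ i, g i ≠ β → e i = min β (g i))
    (h3 : ∀ i, min β (g i) ≤ e i) (hle : ∀ i, g i ≤ β) : ∀ i, e i + e (i + 1) = 0 := by
  have hlow : ∀ i, -β ≤ g i := by
    intro i
    by_contra hc
    have a := h1 i
    have c := h2 i (by omega)
    rw [min_eq_right (by omega)] at c
    have := hle (i + 1)
    omega
  have heq : ∀ i, e i = g i := by
    intro i
    by_cases h : g i = β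
    · have a := h1 i
      have c := h3 i
      rw [h, min_self] at c
      have := hlow (i + 1)
      omega
    · have c := h2 i h
      have := hle i
      rw [min_eq_right this] at c
      exact c
  intro i
  have a := h1 i
  have := heq i
  have := heq (i + 1)
  omega

end ints

/-- numerator a prime power, `b > 0` -/
theorem case_pp {b : ℚ} {u s : ℕ → ℚ} {n : ℕ} (C : Cyc b u s n) (hb : 0 < b)
    {p k : ℕ} (hp : p.Prime) (hN : b.num.natAbs = p ^ k) :
    (∀ i, (s i) ^ 2 = 1) ∨ (∀ i, s i * s (i + 1) = -1) := by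
  have : Fact p.Prime := ⟨hp⟩
  have hother : ∀ l, l.Prime → l ≠ p → ∀ i, padicValRat l (s i) = 0 := by
    intro l hl hlp i
    have : Fact l.Prime := ⟨hl⟩
    refine (C.v_unit l (val_of_not_dvd ?_) i).1
    rw [hN]
    intro hd
    exact hlp ((Nat.prime_dvd_prime_iff_eq hl hp).mp (hl.dvd_of_dvd_pow hd))
  rcases Nat.eq_zero_or_pos k with hk | hk
  · left
    intro i
    have : |s i| = 1 := by
      apply one_of_val (C.s0 i)
      intro l hl
      have : Fact l.Prime := ⟨hl⟩
      refine (C.v_unit l (val_of_not_dvd ?_) i).1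
      rw [hN, hk, pow_zero]
      intro hd
      exact hl.one_lt.ne' (Nat.dvd_one.mp hd)
    rw [← sq_abs, this, one_pow]
  · apply of_t C
    have hβ : padicValRat p b = k := by
      rw [val_of_dvd hp (by rw [hN]; exact dvd_pow_self p hk.ne'), hN, padicValNat.prime_pow]
    have hkz : (0:ℤ) < k := by exact_mod_cast hk
    have h1 := C.v1 p
    have h2 := C.v2 p
    have h3 := C.v3 p
    rw [hβ] at h2 h3
    have hper : ∀ i, padicValRat p (u (i + n)) = padicValRat p (u i) := fun i => by rw [C.hper]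
    have hle : ∀ i, padicValRat p (u i) ≤ k := by
      intro i
      by_contra hcon
      push Not at hcon
      have he : padicValRat p (s i) = k := by
        rw [h2 i (by omega), min_eq_left (by omega)]
      have hg := h1 i
      rw [he] at hg
      by_cases hA : padicValRat p (u (i + 1)) < k
      · have := typeA (β := (k:ℤ)) (g := fun i => padicValRat p (u i))
          (e := fun i => padicValRat p (s i)) C.hn hper h1 (fun i => h2 i) (i + 1)
          ⟨by omega, hA⟩ i
        omega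
      · have he1 : (k:ℤ) ≤ padicValRat p (s (i + 1)) := by
          have := h3 (i + 1)
          rw [min_eq_left (by omega)] at this
          exact this
        -- sizes
        have hpq : ((p:ℚ)) ≠ 0 := by exact_mod_cast hp.ne_zero
        have hpow : ∀ l, l.Prime → ∀ m : ℕ, padicValRat l ((p:ℚ) ^ m) =
            if l = p then (m:ℤ) else 0 := by
          intro l hl m
          have : Fact l.Prime := ⟨hl⟩
          rw [padicValRat.pow]
          split_ifs with h
          · subst h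
            rw [padicValRat.self hl.one_lt, mul_one]
          · rw [padicValRat.of_nat, padicValNat.eq_zero_of_not_dvd]
            · simp
            · intro hd
              exact h ((Nat.prime_dvd_prime_iff_eq hl hp).mp hd)
        have hs1 : |s i| = (p:ℚ) ^ k := by
          have h5 : |s i / (p:ℚ) ^ k| = 1 := by
            apply one_of_val (div_ne_zero (C.s0 i) (pow_ne_zero _ hpq))
            intro l hl
            have : Fact l.Prime := ⟨hl⟩
            rw [padicValRat.div (C.s0 i) (pow_ne_zero _ hpq), hpow l hl]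
            split_ifs with h
            · subst h; omega
            · rw [hother l hl h i]; norm_num
          rw [abs_div, abs_of_pos (show (0:ℚ) < (p:ℚ) ^ k by
            have := hp.pos; positivity)] at h5
          exact (div_eq_one_iff_eq (pow_ne_zero _ hpq)).mp h5
        obtain ⟨m, hm⟩ : ∃ m : ℕ, padicValRat p (s (i + 1)) = k + m :=
          ⟨(padicValRat p (s (i + 1)) - k).toNat, by omega⟩
        have hs2 : |s (i + 1)| = (p:ℚ) ^ (k + m) := by
          have h5 : |s (i + 1) / (p:ℚ) ^ (k + m)| = 1 := by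
            apply one_of_val (div_ne_zero (C.s0 (i + 1)) (pow_ne_zero _ hpq))
            intro l hl
            have : Fact l.Prime := ⟨hl⟩
            rw [padicValRat.div (C.s0 (i + 1)) (pow_ne_zero _ hpq), hpow l hl]
            split_ifs with h
            · subst h; push_cast; omega
            · rw [hother l hl h (i + 1)]; norm_num
          rw [abs_div, abs_of_pos (show (0:ℚ) < (p:ℚ) ^ (k + m) by
            have := hp.pos; positivity)] at h5
          exact (div_eq_one_iff_eq (pow_ne_zero _ hpq)).mp h5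
        set q : ℚ := (p:ℚ) ^ k with hq
        have hq2 : 2 ≤ q := by
          have : 2 ≤ p ^ k := le_trans hp.two_le (Nat.le_self_pow hk.ne' p)
          rw [hq]
          exact_mod_cast this
        have hD1 : (1:ℚ) ≤ b.den := by exact_mod_cast b.den_pos
        have hbD : b * b.den = q := by
          rw [Rat.mul_den_eq_num b, hq]
          have h5 : ((b.num.natAbs : ℕ) : ℚ) = b.num := by
            rw [Nat.cast_natAbs, abs_of_pos (Rat.num_pos.mpr hb)]
          rw [← h5, hN]; push_cast; rfl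
        set D : ℚ := (b.den : ℚ) with hD
        have hs2' : q ≤ |s (i + 1)| := by
          rw [hs2, pow_add]
          have : (1:ℚ) ≤ (p:ℚ) ^ m := one_le_pow₀ (by exact_mod_cast hp.one_lt.le)
          nlinarith
        have hsq : (s i) ^ 2 = q ^ 2 := by rw [← sq_abs, hs1]
        have hsucc := C.s_succ i
        rw [hsq] at hsucc
        have hDs : D * (q ^ 2 * s (i + 1)) = q * (q ^ 2 - 1) + D * s i := by
          rw [hsucc, ← hbD]; ring
        have hui : u i ≠ 0 := C.u0 i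
        rcases abs_eq (by linarith : (0:ℚ) ≤ q) |>.mp hs1 with hs | hs
        · -- s i = q
          have h6 : D ≠ 1 := by
            intro h
            apply hui
            have := C.hs i
            rw [h, mul_one] at hbD
            rw [hbD, hs] at this
            linarith
          have h7 : 2 ≤ D := by
            have h8 : b.den ≠ 1 := by
              intro h; apply h6; rw [hD, h]; norm_num
            have h9 : 2 ≤ b.den := by
              have := b.den_pos
              omega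
            rw [hD]; exact_mod_cast h9
          have h8 : 0 < s (i + 1) := by
            have : 0 < D * (q ^ 2 * s (i + 1)) := by
              rw [hDs, hs]; nlinarith [mul_pos (by linarith : (0:ℚ) < D) (by linarith : (0:ℚ) < q)]
            by_contra hc
            have h10 : D * (q ^ 2 * s (i + 1)) ≤ 0 :=
              mul_nonpos_of_nonneg_of_nonpos (by linarith)
                (mul_nonpos_of_nonneg_of_nonpos (by positivity) (not_lt.mp hc))
            linarith
          rw [abs_of_pos h8] at hs2'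
          rw [hs] at hDs
          have h9 : D * (q ^ 2 * q) ≤ q * (q ^ 2 - 1) + D * q := by
            rw [← hDs]
            apply mul_le_mul_of_nonneg_left _ (by linarith)
            exact mul_le_mul_of_nonneg_left hs2' (by positivity)
          -- (D-1)(q^2-1) q ≤ 0
          have h10 : 0 < (D - 1) * ((q ^ 2 - 1) * q) := by
            apply mul_pos (by linarith)
            apply mul_pos _ (by linarith)
            nlinarith
          nlinarith
        · have h9 : D * (q ^ 2 * |s (i + 1)|) = |q * (q ^ 2 - 1) + D * s i| := by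
            rw [← hDs, abs_mul, abs_mul, abs_of_pos (by linarith : (0:ℚ) < D),
              abs_of_pos (by positivity : (0:ℚ) < q ^ 2)]
          have h10 : D * (q ^ 2 * q) ≤ |q * (q ^ 2 - 1) + D * s i| := by
            rw [← h9]
            apply mul_le_mul_of_nonneg_left _ (by linarith)
            exact mul_le_mul_of_nonneg_left hs2' (by positivity)
          rw [hs] at h10
          have h11 : |q * (q ^ 2 - 1) + D * -q| < D * (q ^ 2 * q) := by
            have e0 : 0 < D * q := by nlinarith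
            have e1 : q * q ^ 2 ≤ D * (q ^ 2 * q) := by
              have : 0 < q ^ 2 * q := by positivity
              nlinarith
            rw [abs_lt]
            constructor
            · have e2 : 4 ≤ q ^ 2 := by nlinarith
              have e3 : D * q * 4 ≤ D * q * q ^ 2 := mul_le_mul_of_nonneg_left e2 e0.le
              have e4 : 0 < q * (q ^ 2 - 1) := mul_pos (by linarith) (by linarith)
              nlinarith
            · nlinarith
          linarith
    have halt := alt_of_le (β := (k:ℤ)) (g := fun i => padicValRat p (u i))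
      (e := fun i => padicValRat p (s i)) hkz h1 (fun i => h2 i) h3 hle
    intro i
    apply one_of_val (mul_ne_zero (C.s0 i) (C.s0 (i + 1)))
    intro l hl
    have : Fact l.Prime := ⟨hl⟩
    rw [padicValRat.mul (C.s0 i) (C.s0 (i + 1))]
    by_cases h : l = p
    · subst h; exact halt i
    · rw [hother l hl h i, hother l hl h (i + 1)]; norm_num

/-- numerator with at most two prime factors -/
theorem two_primes_core {b : ℚ} {u s : ℕ → ℚ} {n : ℕ} (C : Cyc b u s n)
    (hcard : b.num.natAbs.primeFactors.card ≤ 2)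
    (hneg : ∀ i, ∃ p ∈ b.num.natAbs.primeFactors, padicValRat p (s i) < 0) :
    ∀ i, |s i * s (i + 1)| = 1 := by
  have hN0 : b.num.natAbs ≠ 0 := by simpa using C.hb
  set S := b.num.natAbs.primeFactors with hS
  have hpr : ∀ p ∈ S, p.Prime := fun p hp => Nat.prime_of_mem_primeFactors hp
  have hother : ∀ l, l.Prime → l ∉ S → ∀ i, padicValRat l (s i) = 0 := by
    intro l hl hlS i
    have : Fact l.Prime := ⟨hl⟩
    refine (C.v_unit l (val_of_not_dvd ?_) i).1
    intro hd
    exact hlS (Nat.mem_primeFactors.mpr ⟨hl, hd, hN0⟩)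
  have hβpos : ∀ p ∈ S, 0 < padicValRat p b := fun p hp =>
    val_pos_of_dvd (hpr p hp) C.hb (Nat.dvd_of_mem_primeFactors hp)
  have hpos : ∀ p ∈ S, ∀ i, padicValRat p (s i) < 0 → 0 < padicValRat p (s (i + 1)) := by
    intro p hp i hi
    have : Fact p.Prime := ⟨hpr p hp⟩
    have h1 := C.v1 p i
    have h3 := C.v3 p i
    have h3' := C.v3 p (i + 1)
    have hβ := hβpos p hp
    have h2 := C.v2 p i (by intro h; rw [h, min_self] at h3; omega)
    omega
  have halt : ∀ p ∈ S, ∀ i, 0 ≤ padicValRat p (s i) → padicValRat p (s (i + 1)) < 0 := by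
    intro p hp i hi
    obtain ⟨q, hq, hqi⟩ := hneg i
    obtain ⟨r, hr, hri⟩ := hneg (i + 1)
    have hpq : p ≠ q := by
      intro h; subst h; omega
    have hrq : r ≠ q := by
      intro h; subst h
      have := hpos r hr i hqi
      omega
    have : r = p := by
      by_contra hrp
      have hsub : ({p, q, r} : Finset ℕ) ⊆ S := by
        intro x hx
        simp only [Finset.mem_insert, Finset.mem_singleton] at hx
        rcases hx with rfl | rfl | rfl <;> assumption
      have h3 : ({p, q, r} : Finset ℕ).card = 3 := by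
        rw [Finset.card_eq_three]
        exact ⟨p, q, r, hpq, Ne.symm hrp, Ne.symm hrq, rfl⟩
      have := Finset.card_le_card hsub
      omega
    rw [← this]; exact hri
  have hsum : ∀ p ∈ S, ∀ i, padicValRat p (s i) + padicValRat p (s (i + 1)) = 0 := by
    intro p hp
    have : Fact p.Prime := ⟨hpr p hp⟩
    have h1 := C.v1 p
    have h2 := C.v2 p
    have h3 := C.v3 p
    have hβ := hβpos p hp
    have hper : ∀ i, padicValRat p (u (i + n)) = padicValRat p (u i) := fun i => by rw [C.hper]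
    apply alt_of_le (β := padicValRat p b) (g := fun i => padicValRat p (u i)) hβ h1 h2 h3
    intro i
    by_contra hcon
    have he := h2 i (by omega)
    rw [min_eq_left (by omega)] at he
    have hn1 := halt p hp i (by omega)
    have hg := h1 i
    have h3' := h3 (i + 1)
    have := typeA (β := padicValRat p b) (g := fun i => padicValRat p (u i))
      (e := fun i => padicValRat p (s i)) C.hn hper h1 h2 (i + 1)
      ⟨by omega, by
        by_contra hc
        rw [min_eq_left (by omega)] at h3'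
        omega⟩ i
    omega
  intro i
  apply one_of_val (mul_ne_zero (C.s0 i) (C.s0 (i + 1)))
  intro l hl
  have : Fact l.Prime := ⟨hl⟩
  rw [padicValRat.mul (C.s0 i) (C.s0 (i + 1))]
  by_cases h : l ∈ S
  · exact hsum l h i
  · rw [hother l hl h i, hother l hl h (i + 1)]; norm_num

end

section

theorem psq {p : ℕ} : ((p : ZMod (p ^ 2))) * (p : ZMod (p ^ 2)) = 0 := by
  have h : ((p * p : ℕ) : ZMod (p ^ 2)) = 0 := by
    rw [ZMod.natCast_eq_zero_iff, pow_two]
  exact_mod_cast h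

theorem exists_mul_p {p : ℕ} (hp : p.Prime) (x : ZMod (p ^ 2))
    (h : (p : ZMod (p ^ 2)) * x = 0) : ∃ y, x = (p : ZMod (p ^ 2)) * y := by
  obtain ⟨a, rfl⟩ := ZMod.intCast_surjective x
  have h1 : (((p : ℤ) * a : ℤ) : ZMod (p ^ 2)) = 0 := by
    push_cast
    exact h
  rw [ZMod.intCast_zmod_eq_zero_iff_dvd] at h1
  obtain ⟨c, hc⟩ := h1
  have hp0 : (p : ℤ) ≠ 0 := by exact_mod_cast hp.ne_zero
  have h2 : a = (p : ℤ) * c := by
    have : (p : ℤ) * a = (p : ℤ) * ((p : ℤ) * c) := by rw [hc]; push_cast; ring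
    exact mul_left_cancel₀ hp0 this
  refine ⟨(c : ZMod (p ^ 2)), ?_⟩
  rw [h2]; push_cast; rfl

theorem geom_p {p : ℕ} (hp : p.Prime) (hodd : p ≠ 2) (ν : ZMod (p ^ 2))
    (h : (p : ZMod (p ^ 2)) * ν = (p : ZMod (p ^ 2))) : ∑ i ∈ Finset.range p, ν ^ i = (p : ZMod (p ^ 2)) := by
  obtain ⟨y, hy⟩ := exists_mul_p hp (ν - 1) (by rw [mul_sub, h]; ring)
  have hν : ν = 1 + (p : ZMod (p ^ 2)) * y := by rw [← hy]; ring
  have hpow : ∀ i : ℕ, ν ^ i = 1 + (i : ZMod (p ^ 2)) * ((p : ZMod (p ^ 2)) * y) := by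
    intro i
    induction i with
    | zero => simp
    | succ i ih =>
      rw [pow_succ ν i, ih, hν]
      have := psq (p := p)
      push_cast
      linear_combination ((i : ZMod (p ^ 2)) * y * y) * this
  rw [Finset.sum_congr rfl (fun i _ => hpow i), Finset.sum_add_distrib, Finset.sum_const,
    Finset.card_range, nsmul_eq_mul, mul_one, ← Finset.sum_mul]
  obtain ⟨k, hk⟩ := hp.odd_of_ne_two hodd
  have h1 : ∑ i ∈ Finset.range p, i = p * k := by
    have h2 := Finset.sum_range_id_mul_two p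
    have h3 : p - 1 = 2 * k := by omega
    rw [h3] at h2
    nlinarith
  have h4 : ∑ i ∈ Finset.range p, (i : ZMod (p ^ 2)) = (p : ZMod (p ^ 2)) * k := by
    have := congrArg (fun x : ℕ => (x : ZMod (p ^ 2))) h1
    simp only [Nat.cast_sum, Nat.cast_mul] at this
    exact this
  rw [h4]
  have := psq (p := p)
  linear_combination ((k : ZMod (p ^ 2)) * y) * this

theorem torp {R : Type*} [CommRing R] [IsDomain R] {p : ℕ} (hp : p.Prime) (hodd : p ≠ 2)
    (φ : R →+* ZMod (p ^ 2)) (U : ℕ → R)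
    (L : ℕ → ℕ → R) (h : ∀ i j, U (i + 1) - U (j + 1) = (U i - U j) * L i j)
    (lam : ZMod (p ^ 2)) (hlam : (p : ZMod (p ^ 2)) * lam = (p : ZMod (p ^ 2)))
    (hL : ∀ i j, φ (L i j) = lam) {n : ℕ} (hn : 0 < n) (hper : U n = U 0) : U 1 = U 0 := by
  obtain ⟨m, hm, hm1, hm2⟩ := min_period U hn hper
  have hpow : ∀ k : ℕ, (p : ZMod (p ^ 2)) * lam ^ k = (p : ZMod (p ^ 2)) := by
    intro k
    induction k with
    | zero => simp
    | succ k ih => rw [pow_succ lam k, ← mul_assoc, ih, hlam]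
  by_cases h3 : p ∣ m
  · exfalso
    obtain ⟨k, hk⟩ := h3
    have hk0 : 0 < k := by
      rcases Nat.eq_zero_or_pos k with h0 | h0
      · subst h0; omega
      · exact h0
    have hkm : k < m := by
      rw [hk]
      have := hp.two_le
      nlinarith
    have hV : ∀ i j, U ((i + 1) * k) - U ((j + 1) * k) =
        (U (i * k) - U (j * k)) * ∏ t ∈ Finset.range k, L (i * k + t) (j * k + t) := by
      intro i j
      have := diff_prod U L h (i * k) (j * k) k
      rw [Nat.add_mul, Nat.add_mul, Nat.one_mul]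
      exact this
    have h1 := sum_form (fun j => U (j * k))
      (fun i j => ∏ t ∈ Finset.range k, L (i * k + t) (j * k + t)) hV p
    rw [← hk, hm1, Nat.zero_mul, sub_self, Nat.one_mul] at h1
    rcases mul_eq_zero.mp h1.symm with h4 | h4
    · exact hm2 k hk0 hkm (sub_eq_zero.mp h4)
    · have h5 := congrArg φ h4
      rw [map_sum, map_zero] at h5
      have h6 : ∀ i ∈ Finset.range p, φ (∏ t ∈ Finset.range i,
          ∏ t_1 ∈ Finset.range k, L ((1 + t) * k + t_1) ((0 + t) * k + t_1)) =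
          (lam ^ k) ^ i := by
        intro i _
        rw [map_prod]
        have h7 : ∀ t ∈ Finset.range i, φ (∏ t_1 ∈ Finset.range k,
            L ((1 + t) * k + t_1) ((0 + t) * k + t_1)) = lam ^ k := by
          intro t _
          rw [map_prod, Finset.prod_congr rfl (fun t _ => hL _ _), Finset.prod_const,
            Finset.card_range]
        rw [Finset.prod_congr rfl h7, Finset.prod_const, Finset.card_range]
      rw [Finset.sum_congr rfl h6, geom_p hp hodd _ (hpow k), ZMod.natCast_eq_zero_iff] at h5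
      have h8 := Nat.le_of_dvd hp.pos h5
      have := hp.two_le
      nlinarith
  · by_contra hne
    have h1 := sum_form U L h m
    rw [hm1, sub_self] at h1
    rcases mul_eq_zero.mp h1.symm with h4 | h4
    · exact hne (sub_eq_zero.mp h4)
    · have h5 := congrArg (fun x => (p : ZMod (p ^ 2)) * φ x) h4
      simp only [map_sum, map_zero, mul_zero, Finset.mul_sum] at h5
      have h6 : ∀ i ∈ Finset.range m,
          (p : ZMod (p ^ 2)) * φ (∏ t ∈ Finset.range i, L (1 + t) (0 + t)) = (p : ZMod (p ^ 2)) := by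
        intro i _
        rw [map_prod, Finset.prod_congr rfl (fun t _ => hL _ _), Finset.prod_const,
          Finset.card_range, hpow]
      rw [Finset.sum_congr rfl h6, Finset.sum_const, Finset.card_range, nsmul_eq_mul] at h5
      have h7 : ((m * p : ℕ) : ZMod (p ^ 2)) = 0 := by
        push_cast
        exact h5
      rw [ZMod.natCast_eq_zero_iff] at h7
      obtain ⟨c, hc⟩ := h7
      apply h3
      refine ⟨c, ?_⟩
      have : m * p = (p * c) * p := by rw [hc]; ring
      exact Nat.eq_of_mul_eq_mul_right hp.pos this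

/-- abstract form of the alternating case -/
theorem torAC {R : Type*} [CommRing R] [IsDomain R] {p : ℕ} (hp : p.Prime)
    (φ : R →+* ZMod (p ^ 2)) (Z I w y : ℕ → R)
    (hS : ∀ i, (Z i + w i) * I i = 1) (hZ : ∀ i, Z (i + 1) = Z i * I i ^ 2)
    (hw : ∀ i, w (i + 2) = w i) (hy : ∀ i, w i = (p : R) * y i)
    {n : ℕ} (hn : 0 < n) (hper : Z (2 * n) = Z 0) : Z 2 = Z 0 := by
  have hw0 : ∀ k, w (2 * k) = w 0 := by
    intro k
    induction k with
    | zero => rfl
    | succ k ih => rw [Nat.mul_succ, hw, ih]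
  have hw1 : ∀ k, w (2 * k + 1) = w 1 := by
    intro k
    induction k with
    | zero => rfl
    | succ k ih => rw [Nat.mul_succ, Nat.add_right_comm, hw, ih]
  have hstep : ∀ i j, w i = w j →
      Z (i + 1) - Z (j + 1) = (Z i - Z j) * ((w i ^ 2 - Z i * Z j) * (I i * I j) ^ 2) := by
    intro i j hij
    have a := hS i
    have c := hS j
    rw [hZ i, hZ j]
    have e1 : Z i * I i ^ 2 = Z i * I i ^ 2 * ((Z j + w j) * I j) ^ 2 := by rw [c]; ring
    have e2 : Z j * I j ^ 2 = Z j * I j ^ 2 * ((Z i + w i) * I i) ^ 2 := by rw [a]; ring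
    rw [e1, e2, hij]
    ring
  let L : ℕ → ℕ → R := fun k l =>
    ((w 0 ^ 2 - Z (2 * k) * Z (2 * l)) * (I (2 * k) * I (2 * l)) ^ 2) *
      ((w 1 ^ 2 - Z (2 * k + 1) * Z (2 * l + 1)) * (I (2 * k + 1) * I (2 * l + 1)) ^ 2)
  have hdiff : ∀ k l, Z (2 * (k + 1)) - Z (2 * (l + 1)) = (Z (2 * k) - Z (2 * l)) * L k l := by
    intro k l
    have a1 := hstep (2 * k) (2 * l) (by rw [hw0, hw0])
    have a2 := hstep (2 * k + 1) (2 * l + 1) (by rw [hw1, hw1])
    rw [hw0] at a1
    rw [hw1] at a2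
    rw [Nat.mul_succ, Nat.mul_succ]
    simp only [L]
    rw [← mul_assoc, ← a1]
    exact a2
  -- images
  have hpw : ∀ i, (p : ZMod (p ^ 2)) * φ (w i) = 0 := by
    intro i
    rw [hy i, map_mul, map_natCast, ← mul_assoc, psq, zero_mul]
  have hww : ∀ i, φ (w i) ^ 2 = 0 := by
    intro i
    rw [hy i, map_mul, map_natCast]
    have := psq (p := p)
    linear_combination (φ (y i)) ^ 2 * this
  have hS' : ∀ i, (φ (Z i) + φ (w i)) * φ (I i) = 1 := by
    intro i
    have := congrArg φ (hS i)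
    rw [map_mul, map_add, map_one] at this
    exact this
  have hZ' : ∀ i, φ (Z (i + 1)) = φ (Z i) * φ (I i) ^ 2 := by
    intro i
    rw [hZ i, map_mul, map_pow]
  have hμ : ∀ i, (p : ZMod (p ^ 2)) * (φ (Z i) * φ (I i)) = (p : ZMod (p ^ 2)) := by
    intro i
    have a := hS' i
    have c := hpw i
    linear_combination (p : ZMod (p ^ 2)) * a - φ (I i) * c
  have hzz : ∀ i, (p : ZMod (p ^ 2)) * (φ (Z (i + 1)) * φ (Z i)) = (p : ZMod (p ^ 2)) := by
    intro i
    have a := hμ i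
    rw [hZ' i]
    linear_combination (φ (Z i) * φ (I i)) * a + a
  have hz2 : ∀ i, (p : ZMod (p ^ 2)) * φ (Z (i + 2)) = (p : ZMod (p ^ 2)) * φ (Z i) := by
    intro i
    have a := hzz i
    have c := hzz (i + 1)
    linear_combination (- φ (Z (i + 2))) * a + φ (Z i) * c
  have hz1 : ∀ k, (p : ZMod (p ^ 2)) * φ (Z (2 * k + 1)) = (p : ZMod (p ^ 2)) * φ (Z 1) := by
    intro k
    induction k with
    | zero => rfl
    | succ k ih => rw [Nat.mul_succ, Nat.add_right_comm, hz2, ih]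
  have hμ1 : ∀ k, φ (Z (2 * k + 1)) * φ (I (2 * k + 1)) = φ (Z 1) * φ (I 1) := by
    intro k
    have a := hS' (2 * k + 1)
    have c := hS' 1
    have d := hz1 k
    rw [hw1] at a
    have e : φ (w 1) * (φ (Z (2 * k + 1)) - φ (Z 1)) = 0 := by
      rw [hy 1, map_mul, map_natCast]
      linear_combination φ (y 1) * d
    linear_combination (- (φ (Z (2 * k + 1)) * φ (I (2 * k + 1)))) * c
      + (φ (Z 1) * φ (I 1)) * a + (φ (I (2 * k + 1)) * φ (I 1)) * e
  set μ := φ (Z 1) * φ (I 1) with hμdef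
  have hLφ : ∀ k l, φ (L k l) = μ ^ 2 * μ ^ 2 := by
    intro k l
    simp only [L]
    have c0 := hww 0
    have c1 := hww 1
    simp only [map_mul, map_sub, map_pow, c0, c1]
    have a1 := hZ' (2 * k)
    have a2 := hZ' (2 * l)
    have b1 := hμ1 k
    have b2 := hμ1 l
    calc (0 - φ (Z (2 * k)) * φ (Z (2 * l))) * (φ (I (2 * k)) * φ (I (2 * l))) ^ 2 *
        ((0 - φ (Z (2 * k + 1)) * φ (Z (2 * l + 1))) *
          (φ (I (2 * k + 1)) * φ (I (2 * l + 1))) ^ 2)
        = (φ (Z (2 * k)) * φ (I (2 * k)) ^ 2) * (φ (Z (2 * l)) * φ (I (2 * l)) ^ 2) *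
          (φ (Z (2 * k + 1)) * φ (Z (2 * l + 1)) *
          (φ (I (2 * k + 1)) * φ (I (2 * l + 1))) ^ 2) := by ring
      _ = (φ (Z (2 * k + 1)) * φ (I (2 * k + 1))) ^ 2 *
          (φ (Z (2 * l + 1)) * φ (I (2 * l + 1))) ^ 2 := by rw [← a1, ← a2]; ring
      _ = μ ^ 2 * μ ^ 2 := by rw [b1, b2]
  have hpμ : (p : ZMod (p ^ 2)) * μ = (p : ZMod (p ^ 2)) := hμ 1
  have hfin : (fun k => Z (2 * k)) 1 = (fun k => Z (2 * k)) 0 := by
    by_cases h2 : p = 2
    · subst h2
      apply tor2 φ (fun k => Z (2 * k)) L hdiff _ hn (by simpa using hper)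
      intro i j
      rw [hLφ]
      have hdec : ∀ x : ZMod (2 ^ 2), ((2 : ℕ) : ZMod (2 ^ 2)) * x = ((2 : ℕ) : ZMod (2 ^ 2)) →
          x ^ 2 * x ^ 2 = 1 := by decide
      exact hdec _ hpμ
    · apply torp hp h2 φ (fun k => Z (2 * k)) L hdiff (μ ^ 2 * μ ^ 2) _ hLφ hn
        (by simpa using hper)
      linear_combination (μ ^ 3 + μ ^ 2 + μ + 1) * hpμ
  simpa using hfin

end

section

theorem of_two {b : ℚ} {u s : ℕ → ℚ} {n : ℕ} (C : Cyc b u s n) (k : ℕ)
    (h : u (k + 2) = u k) : ∀ i, |s i * s (i + 1)| = 1 := by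
  have hdet : ∀ i j, u i = u j → u (i + 1) = u (j + 1) := by
    intro i j hij
    rw [C.hu, C.hu, C.hs i, C.hs j, hij]
  have h1 : ∀ j, u (k + j + 2) = u (k + j) := by
    intro j
    induction j with
    | zero => exact h
    | succ j ih =>
      have := hdet _ _ ih
      rw [← Nat.add_assoc]
      rw [show k + j + 1 + 2 = k + j + 2 + 1 by ring]
      exact this
  intro i
  have h6 := per_mul u C.hper k i
  have h6' := per_mul u C.hper k (i + 2)
  have hn := C.hn
  have h7 : k ≤ i + n * k := by nlinarith [Nat.mul_le_mul_right k hn]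
  obtain ⟨j, hj⟩ := Nat.exists_eq_add_of_le h7
  have h8 : u (i + 2) = u i := by
    rw [← h6, ← h6', hj, show i + 2 + n * k = k + j + 2 by omega]
    exact h1 j
  have h9 := C.hu i
  have h10 := C.hu (i + 1)
  rw [show i + 1 + 1 = i + 2 by ring, h8, h9] at h10
  have a := C.s0 i
  have c := C.s0 (i + 1)
  have d := C.u0 i
  have h11 : (s i * s (i + 1)) ^ 2 = 1 := by
    field_simp at h10
    linear_combination h10
  have h12 : |s i * s (i + 1)| ^ 2 = 1 := by rw [sq_abs, h11]
  have h13 : (0:ℚ) ≤ |s i * s (i + 1)| := abs_nonneg _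
  nlinarith

theorem caseAC {b : ℚ} {u s : ℕ → ℚ} {n : ℕ} (C : Cyc b u s n) (p : ℕ) [hpf : Fact p.Prime]
    (hβ : 0 < padicValRat p b) (k : ℕ)
    (hk : - padicValRat p b < padicValRat p (u k) ∧ padicValRat p (u k) < padicValRat p b) :
    ∀ i, |s i * s (i + 1)| = 1 := by
  have hper' : ∀ i, padicValRat p (u (i + n)) = padicValRat p (u i) := fun i => by rw [C.hper]
  have hall := typeA (β := padicValRat p b) (g := fun i => padicValRat p (u i))
    (e := fun i => padicValRat p (s i)) C.hn hper' (C.v1 p) (C.v2 p) k hk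
  have he : ∀ i, padicValRat p (s i) = padicValRat p (u i) := by
    intro i
    have a := hall i
    rw [C.v2 p i (by omega), min_eq_right (by omega)]
  have hg : ∀ i, padicValRat p (u (i + 1)) = - padicValRat p (u i) := by
    intro i
    rw [C.v1 p i, he i]; ring
  obtain ⟨j0, hj0⟩ : ∃ j0, 0 ≤ padicValRat p (u j0) := by
    by_cases h : 0 ≤ padicValRat p (u 0)
    · exact ⟨0, h⟩
    · refine ⟨1, ?_⟩
      have := hg 0
      rw [Nat.zero_add] at this
      omega
  have hpq : (p : ℚ) ≠ 0 := by exact_mod_cast hpf.out.ne_zero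
  let q : ℕ → ℚ := fun i => (p : ℚ) ^ (- padicValRat p (u (j0 + i)))
  have hq0 : ∀ i, q i ≠ 0 := fun i => zpow_ne_zero _ hpq
  have hqv : ∀ i, padicValRat p (q i) = - padicValRat p (u (j0 + i)) := by
    intro i
    simp only [q]
    rw [padicValRat.zpow, padicValRat.self hpf.out.one_lt, mul_one]
  have hq2 : ∀ i, q (i + 2) = q i := by
    intro i
    simp only [q]
    have a := hg (j0 + i)
    have c := hg (j0 + i + 1)
    rw [show j0 + (i + 2) = j0 + i + 1 + 1 by ring, c, a]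
    ring_nf
  have hq1 : ∀ i, q (i + 1) * q i = 1 := by
    intro i
    simp only [q]
    rw [← zpow_add₀ hpq]
    have a := hg (j0 + i)
    rw [show j0 + (i + 1) = j0 + i + 1 by ring, a]
    have : - - padicValRat p (u (j0 + i)) + - padicValRat p (u (j0 + i)) = 0 := by ring
    rw [this, zpow_zero]
  let Zq : ℕ → ℚ := fun i => u (j0 + i) * q i
  let Sq : ℕ → ℚ := fun i => s (j0 + i) * q i
  let wq : ℕ → ℚ := fun i => b * q i
  have hZ0 : ∀ i, Zq i ≠ 0 := fun i => mul_ne_zero (C.u0 _) (hq0 i)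
  have hS0 : ∀ i, Sq i ≠ 0 := fun i => mul_ne_zero (C.s0 _) (hq0 i)
  have hw0 : ∀ i, wq i ≠ 0 := fun i => mul_ne_zero C.hb (hq0 i)
  have vZ : ∀ i, padicValRat p (Zq i) = 0 := by
    intro i
    simp only [Zq]
    rw [padicValRat.mul (C.u0 _) (hq0 i), hqv]; ring
  have vS : ∀ i, padicValRat p (Sq i) = 0 := by
    intro i
    simp only [Sq]
    rw [padicValRat.mul (C.s0 _) (hq0 i), hqv, he]; ring
  have vw : ∀ i, 1 ≤ padicValRat p (wq i) := by
    intro i
    simp only [wq]
    rw [padicValRat.mul C.hb (hq0 i), hqv]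
    have := hall (j0 + i)
    omega
  have nZ : ∀ i, ‖((Zq i : ℚ) : ℚ_[p])‖ ≤ 1 := fun i => norm_le_of_val (hZ0 i) (vZ i).ge
  have nS : ∀ i, ‖(((Sq i)⁻¹ : ℚ) : ℚ_[p])‖ ≤ 1 := fun i =>
    norm_le_of_val (inv_ne_zero (hS0 i)) (by rw [padicValRat.inv, vS i]; simp)
  have nw : ∀ i, ‖((wq i : ℚ) : ℚ_[p])‖ ≤ 1 := fun i =>
    norm_le_of_val (hw0 i) (by have := vw i; omega)
  have ny : ∀ i, ‖((wq i / p : ℚ) : ℚ_[p])‖ ≤ 1 := fun i =>
    norm_le_of_val (div_ne_zero (hw0 i) hpq) (by
      rw [padicValRat.div (hw0 i) hpq, padicValRat.self hpf.out.one_lt]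
      have := vw i; omega)
  have hfin := torAC hpf.out (PadicInt.toZModPow 2) (fun i => toZ p (Zq i))
    (fun i => toZ p (Sq i)⁻¹) (fun i => toZ p (wq i)) (fun i => toZ p (wq i / p))
    (by
      intro i
      apply Subtype.ext
      rw [PadicInt.coe_mul, PadicInt.coe_add, coe_toZ (nZ i), coe_toZ (nw i), coe_toZ (nS i),
        ← Rat.cast_add, ← Rat.cast_mul]
      have : Zq i + wq i = Sq i := by
        simp only [Zq, wq, Sq]
        rw [C.hs (j0 + i)]; ring
      rw [this, mul_inv_cancel₀ (hS0 i)]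
      simp)
    (by
      intro i
      apply Subtype.ext
      rw [PadicInt.coe_mul, PadicInt.coe_pow, coe_toZ (nZ (i + 1)), coe_toZ (nZ i),
        coe_toZ (nS i), ← Rat.cast_pow, ← Rat.cast_mul]
      congr 1
      simp only [Zq, Sq]
      rw [← Nat.add_assoc, C.hu (j0 + i)]
      have a := C.s0 (j0 + i)
      have c := hq0 i
      have d := hq1 i
      have e : q (i + 1) = (q i)⁻¹ := eq_inv_of_mul_eq_one_left d
      rw [e]
      field_simp)
    (by
      intro i
      simp only [wq]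
      rw [hq2 i])
    (by
      intro i
      apply Subtype.ext
      rw [PadicInt.coe_mul, coe_toZ (nw i), coe_toZ (ny i), PadicInt.coe_natCast,
        ← Rat.cast_natCast, ← Rat.cast_mul]
      congr 1
      field_simp)
    C.hn
    (by
      have : Zq (2 * n) = Zq 0 := by
        simp only [Zq, q]
        have := per_mul u C.hper 2 j0
        rw [Nat.add_zero, Nat.mul_comm 2 n, this]
      simp only [this])
  have h1 := congrArg (fun x : ℤ_[p] => (x : ℚ_[p])) hfin
  simp only [coe_toZ (nZ 2), coe_toZ (nZ 0)] at h1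
  have h2 : Zq 2 = Zq 0 := by exact_mod_cast h1
  apply of_two C j0
  simp only [Zq] at h2
  have h3 := hq2 0
  rw [Nat.zero_add] at h3
  rw [h3, Nat.add_zero] at h2
  exact mul_right_cancel₀ (hq0 0) h2

end

section

/-- integer facts in the expanding case -/
theorem typeB_neg {β g g' e : ℤ} (hβ : 0 < β) (h1 : g' = g - 2 * e)
    (h2 : g ≠ β → e = min β g) (h3 : min β g ≤ e)
    (hB : ¬ (-β < g ∧ g < β)) (hB' : ¬ (-β < g' ∧ g' < β)) :
    (g = β → g' ≤ -β) ∧ (g ≠ β → β ≤ g') := by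
  constructor
  · intro h
    subst h
    rw [min_self] at h3
    omega
  · intro h
    have := h2 h
    omega

/-- bundle of data attached to a cycle all of whose numerator primes are expanding -/
structure Data (b : ℚ) (u s : ℕ → ℚ) (n : ℕ) (E W : ℕ → ℕ) : Prop where
  cyc : Cyc b u s n
  hnt : ∀ i, (s i) ^ 2 ≠ 1
  E1 : ∀ i, 1 ≤ E i
  W1 : ∀ i, 1 ≤ W i
  WN : ∀ i, W i ≤ b.num.natAbs
  perE : ∀ i, E (i + n) = E i
  perW : ∀ i, W (i + n) = W i
  rel : ∀ i, |s (i + 1)| * ((E i : ℚ) * (W i : ℚ)) ^ 2 = (b.num.natAbs : ℚ) * (E (i + 1) : ℚ)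
  num : ∀ i, ∀ ρ : ℚ, ρ ≠ 0 → (∀ p : ℕ, p.Prime →
      (padicValRat p ρ ≤ padicValRat p b + padicValRat p (s i)
        - min (padicValRat p b) (padicValRat p (u i))) ∧
        (padicValRat p b ≤ 0 → padicValRat p ρ ≤ 0)) → ρ.num.natAbs ≤ b.num.natAbs * E i
  den : ∀ i, (s (i + 1)).den ≤ W i * E i ^ 2
  prod : (∏ i ∈ Finset.range n, E i) * (∏ i ∈ Finset.range n, W i) ^ 2 ≤ b.num.natAbs ^ n
  EW : ∀ i, W i = 1 → E i = 1
  hit : ∀ p, p.Prime → p ∣ b.num.natAbs → ∃ i, p ^ (padicValNat p b.num.natAbs) ≤ W i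
  minW : ∀ i m, (∀ x, x.Prime → x ∣ b.num.natAbs → m ≤ x ^ (padicValNat x b.num.natAbs)) →
    W i ≠ 1 → m ≤ W i
  big : ∀ i, (b.num.natAbs : ℚ) ^ 4 ≤ |u (i + 1) / b| *
    (((E i : ℚ) * (W i : ℚ)) ^ 2 * ((W (i + 1) : ℚ) ^ 4 * (W i : ℚ) ^ 4 * (W (i + 2) : ℚ) ^ 2))
  supp : ∀ i, ∀ p : ℕ, p.Prime → p ∣ E i * W i → p ∣ b.num.natAbs

theorem exists_data {b : ℚ} {u s : ℕ → ℚ} {n : ℕ} (C : Cyc b u s n)
    (hnt : ¬ ∀ i, |s i * s (i + 1)| = 1) : ∃ E W : ℕ → ℕ, Data b u s n E W := by
  have hnt1 : ∀ i, (s i) ^ 2 ≠ 1 := by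
    intro i hi
    apply hnt
    intro j
    have h1 := C.all_of_one i hi j
    have h2 := C.all_of_one i hi (j + 1)
    have h3 : |s j * s (j + 1)| ^ 2 = 1 := by rw [sq_abs, mul_pow, h1, h2]; norm_num
    have h4 : (0:ℚ) ≤ |s j * s (j + 1)| := abs_nonneg _
    nlinarith
  set N := b.num.natAbs with hNdef
  have hN0 : N ≠ 0 := by
    rw [hNdef]; simpa using C.hb
  set S := N.primeFactors with hSdef
  let β : ℕ → ℕ := fun p => padicValNat p N
  have hβ : ∀ p ∈ S, padicValRat p b = (β p : ℤ) ∧ 0 < β p := by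
    intro p hp
    have hpp := Nat.prime_of_mem_primeFactors hp
    have hd := Nat.dvd_of_mem_primeFactors hp
    have h1 := val_of_dvd hpp hd
    have h2 := val_pos_of_dvd hpp C.hb hd
    refine ⟨h1, ?_⟩
    rw [h1] at h2
    exact_mod_cast h2
  have hpr : ∀ p ∈ S, p.Prime := fun p hp => Nat.prime_of_mem_primeFactors hp
  have hoS : ∀ l, l.Prime → l ∉ S → padicValRat l b ≤ 0 := by
    intro l hl hlS
    apply val_of_not_dvd
    intro hd
    exact hlS (Nat.mem_primeFactors.mpr ⟨hl, hd, hN0⟩)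
  have hB : ∀ p ∈ S, ∀ i, ¬ (-(β p : ℤ) < padicValRat p (u i) ∧
      padicValRat p (u i) < (β p : ℤ)) := by
    intro p hp i hk
    have : Fact p.Prime := ⟨hpr p hp⟩
    rw [← (hβ p hp).1] at hk
    apply hnt
    apply caseAC C p _ i hk
    rw [(hβ p hp).1]
    exact_mod_cast (hβ p hp).2
  let g : ℕ → ℕ → ℤ := fun i p => padicValRat p (u i)
  let e : ℕ → ℕ → ℤ := fun i p => padicValRat p (s i)
  let η : ℕ → ℕ → ℕ := fun i p => (e i p - min (β p : ℤ) (g i p)).toNat
  let δ : ℕ → ℕ → ℕ := fun i p => if g i p = (β p : ℤ) then β p else 0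
  have hη : ∀ i, ∀ p ∈ S, (η i p : ℤ) = e i p - min (β p : ℤ) (g i p) := by
    intro i p hp
    have : Fact p.Prime := ⟨hpr p hp⟩
    have h3 := C.v3 p i
    rw [(hβ p hp).1] at h3
    simp only [η, e, g]
    omega
  have hη0 : ∀ i, ∀ p ∈ S, g i p ≠ (β p : ℤ) → η i p = 0 := by
    intro i p hp hne
    have : Fact p.Prime := ⟨hpr p hp⟩
    have h2 := C.v2 p i
    rw [(hβ p hp).1] at h2
    have h3 := h2 hne
    have h4 := hη i p hp
    simp only [e, g] at h4
    rw [h3, sub_self] at h4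
    exact_mod_cast h4
  -- e (i+1) in terms of η, δ
  have hrel : ∀ i, ∀ p ∈ S, e (i + 1) p = (β p : ℤ) + η (i + 1) p - 2 * η i p - 2 * δ i p := by
    intro i p hp
    have : Fact p.Prime := ⟨hpr p hp⟩
    have hv1 := C.v1 p i
    have hv2 := C.v2 p i
    have hv3 := C.v3 p i
    rw [(hβ p hp).1] at hv2 hv3
    have hpos : (0:ℤ) < (β p : ℤ) := by exact_mod_cast (hβ p hp).2
    obtain ⟨c1, c2⟩ := typeB_neg hpos hv1 hv2 hv3 (hB p hp i) (hB p hp (i + 1))
    have h4 := hη i p hp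
    have h4' := hη (i + 1) p hp
    by_cases hg : g i p = (β p : ℤ)
    · have h5 : δ i p = β p := by simp only [δ]; rw [if_pos hg]
      have h6 := c1 hg
      have h7 := hη0 (i + 1) p hp (by simp only [g]; omega)
      rw [h5]
      simp only [e, g] at h4 h4' hg ⊢
      rw [min_eq_right (by omega)] at h4'
      rw [hg, min_self] at h4
      rw [h7] at h4' ⊢
      push_cast at h4' ⊢
      omega
    · have h5 : δ i p = 0 := by simp only [δ]; rw [if_neg hg]
      have h6 := c2 hg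
      have h7 := hη0 i p hp hg
      rw [h5, h7]
      simp only [e, g] at h4' ⊢
      rw [min_eq_left h6] at h4'
      push_cast
      omega
  -- the potential inequality summed
  have hsum : ∀ p ∈ S, ∑ i ∈ Finset.range n, (η i p + 2 * δ i p) ≤ n * β p := by
    intro p hp
    have : Fact p.Prime := ⟨hpr p hp⟩
    let φ : ℕ → ℤ := fun i => max ((β p : ℤ) - g i p) (g i p - (β p : ℤ))
    have h1 : ∀ i, 2 * ((η i p : ℤ) + 2 * (δ i p : ℤ)) ≤ 2 * (β p : ℤ) + (φ (i + 1) - φ i) := by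
      intro i
      have hv1 := C.v1 p i
      have hv2 := C.v2 p i
      have hv3 := C.v3 p i
      rw [(hβ p hp).1] at hv2 hv3
      have hpos : (0:ℤ) < (β p : ℤ) := by exact_mod_cast (hβ p hp).2
      have hpot := pot hpos hv1 hv2 hv3
      have h4 := hη i p hp
      have h5 : (4 * (δ i p : ℤ)) = (if padicValRat p (u i) = (β p : ℤ) then 4 * (β p : ℤ) else 0) := by
        simp only [δ, g]
        split_ifs <;> simp
      rw [← h5] at hpot
      simp only [φ, g, e] at h4 ⊢
      linarith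
    have h2 : ∑ i ∈ Finset.range n, (2 * ((η i p : ℤ) + 2 * (δ i p : ℤ))) ≤
        ∑ i ∈ Finset.range n, (2 * (β p : ℤ) + (φ (i + 1) - φ i)) :=
      Finset.sum_le_sum (fun i _ => h1 i)
    rw [Finset.sum_add_distrib, Finset.sum_range_sub, ← Finset.mul_sum] at h2
    have h3 : φ n = φ 0 := by
      simp only [φ, g]
      have := C.hper 0
      rw [Nat.zero_add] at this
      rw [this]
    rw [h3, sub_self, add_zero, Finset.sum_const, Finset.card_range, nsmul_eq_mul] at h2
    have h4 : ((∑ i ∈ Finset.range n, (η i p + 2 * δ i p) : ℕ) : ℤ) ≤ ((n * β p : ℕ) : ℤ) := by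
      push_cast
      linarith
    exact_mod_cast h4
  have hfac : ∏ p ∈ S, p ^ (β p) = N := prod_fac hN0
  let E : ℕ → ℕ := fun i => ∏ p ∈ S, p ^ η i p
  let W : ℕ → ℕ := fun i => ∏ p ∈ S, p ^ δ i p
  have hE1 : ∀ i, 1 ≤ E i := fun i => Nat.one_le_iff_ne_zero.mpr
    (Finset.prod_ne_zero_iff.mpr (fun p hp => pow_ne_zero _ (hpr p hp).ne_zero))
  have hW1 : ∀ i, 1 ≤ W i := fun i => Nat.one_le_iff_ne_zero.mpr
    (Finset.prod_ne_zero_iff.mpr (fun p hp => pow_ne_zero _ (hpr p hp).ne_zero))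
  -- valuations of such products
  have hvprod : ∀ (f : ℕ → ℕ) (l : ℕ), l.Prime →
      padicValRat l ((∏ p ∈ S, p ^ f p : ℕ) : ℚ) = if l ∈ S then (f l : ℤ) else 0 := by
    intro f l hl
    have : Fact l.Prime := ⟨hl⟩
    rw [padicValRat.of_nat]
    have hne : (∏ p ∈ S, p ^ f p) ≠ 0 :=
      Finset.prod_ne_zero_iff.mpr (fun p hp => pow_ne_zero _ (hpr p hp).ne_zero)
    rw [← Nat.factorization_def _ hl, Nat.factorization_prod (fun p hp =>
      pow_ne_zero _ (hpr p hp).ne_zero), Finsupp.finset_sum_apply]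
    have h1 : ∀ p ∈ S, (p ^ f p).factorization l = if p = l then f p else 0 := by
      intro p hp
      rw [Nat.Prime.factorization_pow (hpr p hp), Finsupp.single_apply]
    rw [Finset.sum_congr rfl h1, Finset.sum_ite_eq']
    split_ifs <;> simp
  refine ⟨E, W, C, hnt1, hE1, hW1, ?_, ?_, ?_, ?_, ?_, ?_, ?_, ?_, ?_, ?_, ?_, ?_⟩
  · -- WN
    intro i
    change W i ≤ N
    rw [← hfac]
    apply Finset.prod_le_prod'
    intro p hp
    apply Nat.pow_le_pow_right (hpr p hp).pos
    simp only [δ]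
    split_ifs <;> omega
  · intro i
    simp only [E, η, e, g]
    rw [C.hper, C.sper]
  · intro i
    have h1 : ∀ p, g (i + n) p = g i p := by
      intro p
      simp only [g]
      rw [C.hper]
    have h2 : ∀ p, δ (i + n) p = δ i p := by
      intro p
      simp only [δ, h1]
    simp only [W, h2]
  · -- rel
    intro i
    have hEq : (E i : ℚ) ≠ 0 := by have := hE1 i; positivity
    have hWq : (W i : ℚ) ≠ 0 := by have := hW1 i; positivity
    have hEq' : (E (i + 1) : ℚ) ≠ 0 := by have := hE1 (i + 1); positivity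
    have hNq : (N : ℚ) ≠ 0 := by exact_mod_cast hN0
    have hsa : |s (i + 1)| ≠ 0 := abs_ne_zero.mpr (C.s0 _)
    have key : |(|s (i + 1)| * ((E i : ℚ) * (W i : ℚ)) ^ 2) / ((N : ℚ) * (E (i + 1) : ℚ))| = 1 := by
      apply one_of_val (div_ne_zero (mul_ne_zero hsa (pow_ne_zero _ (mul_ne_zero hEq hWq)))
        (mul_ne_zero hNq hEq'))
      intro l hl
      have : Fact l.Prime := ⟨hl⟩
      rw [padicValRat.div (mul_ne_zero hsa (pow_ne_zero _ (mul_ne_zero hEq hWq)))
        (mul_ne_zero hNq hEq'), padicValRat.mul hsa (pow_ne_zero _ (mul_ne_zero hEq hWq)),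
        padicValRat.pow, padicValRat.mul hEq hWq, padicValRat.mul hNq hEq', val_abs]
      have w1 := hvprod (η i) l hl
      have w2 := hvprod (δ i) l hl
      have w3 := hvprod (η (i + 1)) l hl
      have w4 := hvprod β l hl
      rw [hfac] at w4
      simp only [E, W]
      rw [w1, w2, w3, w4]
      by_cases hlS : l ∈ S
      · simp only [if_pos hlS]
        have := hrel i l hlS
        simp only [e] at this
        rw [this]
        push_cast
        ring
      · simp only [if_neg hlS]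
        rw [(C.v_unit l (hoS l hl hlS) (i + 1)).1]
        norm_num
    rw [abs_of_nonneg (by positivity)] at key
    exact (div_eq_one_iff_eq (mul_ne_zero hNq hEq')).mp key
  · -- num
    intro i ρ hρ hh
    have h1 : N * E i = ∏ p ∈ S, p ^ (β p + η i p) := by
      rw [← hfac]
      simp only [E]
      rw [← Finset.prod_mul_distrib]
      apply Finset.prod_congr rfl
      intro p _
      rw [pow_add]
    rw [h1]
    apply num_le hρ S hpr
    · intro p hp
      have h3 := (hh p (hpr p hp)).1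
      have h4 := hη i p hp
      rw [(hβ p hp).1] at h3
      simp only [e, g] at h4
      push_cast
      rw [h4]
      linarith
    · intro p hp hpS
      exact (hh p hp).2 (hoS p hp hpS)
  · -- den
    intro i
    have hs0 := C.s0 (i + 1)
    have h1 : W i * E i ^ 2 = ∏ p ∈ S, p ^ (δ i p + 2 * η i p) := by
      simp only [E, W]
      rw [← Finset.prod_pow, ← Finset.prod_mul_distrib]
      apply Finset.prod_congr rfl
      intro p _
      rw [pow_add, mul_comm 2, pow_mul]
    have h2 : (s (i + 1)).den = ((s (i + 1))⁻¹).num.natAbs := by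
      rw [Rat.num_inv]
      rw [Int.natAbs_mul, Int.natAbs_sign_of_ne_zero (by simpa using hs0), one_mul]
      simp
    rw [h2, h1]
    apply num_le (inv_ne_zero hs0) S hpr
    · intro p hp
      have : Fact p.Prime := ⟨hpr p hp⟩
      rw [padicValRat.inv]
      have h5 := hrel i p hp
      simp only [e] at h5
      rw [h5]
      push_cast
      by_cases hg : g i p = (β p : ℤ)
      · have h6 : δ i p = β p := by simp only [δ]; rw [if_pos hg]
        rw [h6]
        have : (0:ℤ) ≤ η (i + 1) p := by positivity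
        linarith
      · have h7 := hη0 i p hp hg
        have h6 : δ i p = 0 := by simp only [δ]; rw [if_neg hg]
        rw [h6, h7]
        have : (0:ℤ) ≤ η (i + 1) p := by positivity
        have : (0:ℤ) ≤ β p := by positivity
        push_cast
        linarith
    · intro p hp hpS
      have : Fact p.Prime := ⟨hp⟩
      rw [padicValRat.inv, (C.v_unit p (hoS p hp hpS) (i + 1)).1]
      simp
  · -- prod
    calc (∏ i ∈ Finset.range n, E i) * (∏ i ∈ Finset.range n, W i) ^ 2
        = ∏ i ∈ Finset.range n, ∏ p ∈ S, p ^ (η i p + 2 * δ i p) := by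
          rw [← Finset.prod_pow, ← Finset.prod_mul_distrib]
          apply Finset.prod_congr rfl
          intro i _
          simp only [E, W]
          rw [← Finset.prod_pow, ← Finset.prod_mul_distrib]
          apply Finset.prod_congr rfl
          intro p _
          rw [pow_add, mul_comm 2, pow_mul]
      _ = ∏ p ∈ S, ∏ i ∈ Finset.range n, p ^ (η i p + 2 * δ i p) := Finset.prod_comm
      _ = ∏ p ∈ S, p ^ (∑ i ∈ Finset.range n, (η i p + 2 * δ i p)) :=
          Finset.prod_congr rfl (fun p _ => Finset.prod_pow_eq_pow_sum _ _ _)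
      _ ≤ ∏ p ∈ S, p ^ (n * β p) := by
          apply Finset.prod_le_prod'
          intro p hp
          exact Nat.pow_le_pow_right (hpr p hp).pos (hsum p hp)
      _ = ∏ p ∈ S, (p ^ β p) ^ n := by
          apply Finset.prod_congr rfl
          intro p _
          rw [← pow_mul, mul_comm]
      _ = N ^ n := by
          rw [Finset.prod_pow, hfac]
  · -- EW
    intro i hW
    apply Finset.prod_eq_one
    intro p hp
    have h1 : p ^ δ i p = 1 := by
      have h2 : p ^ (δ i p) ≤ W i := by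
        apply Finset.single_le_prod' (f := fun p => p ^ (δ i p)) _ hp
        intro q hq'
        exact Nat.one_le_pow _ _ (hpr q hq').pos
      rw [hW] at h2
      have := Nat.one_le_pow (δ i p) p (hpr p hp).pos
      omega
    have h3 : g i p ≠ (β p : ℤ) := by
      intro hg
      have h6 : δ i p = β p := by simp only [δ]; rw [if_pos hg]
      rw [h6] at h1
      have h7 : 2 ≤ p ^ β p := le_trans (hpr p hp).two_le (Nat.le_self_pow (hβ p hp).2.ne' p)
      omega
    rw [hη0 i p hp h3, pow_zero]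
  · -- hit
    intro p hp hd
    have hpS : p ∈ S := Nat.mem_primeFactors.mpr ⟨hp, hd, hN0⟩
    have : Fact p.Prime := ⟨hp⟩
    by_contra hcon
    push Not at hcon
    have hne : ∀ i, g i p ≠ (β p : ℤ) := by
      intro i hg
      have h6 : δ i p = β p := by simp only [δ]; rw [if_pos hg]
      have h2 : p ^ (δ i p) ≤ W i := by
        apply Finset.single_le_prod' (f := fun p => p ^ (δ i p)) _ hpS
        intro q hq'
        exact Nat.one_le_pow _ _ (hpr q hq').pos
      rw [h6] at h2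
      have h3 : W i < p ^ padicValNat p N := hcon i
      simp only [β] at h2
      omega
    have hpos : (0:ℤ) < (β p : ℤ) := by exact_mod_cast (hβ p hpS).2
    have hge : ∀ i, (β p : ℤ) ≤ g (i + 1) p := by
      intro i
      have hv1 := C.v1 p i
      have hv2 := C.v2 p i
      have hv3 := C.v3 p i
      rw [(hβ p hpS).1] at hv2 hv3
      exact (typeB_neg hpos hv1 hv2 hv3 (hB p hpS i) (hB p hpS (i + 1))).2 (hne i)
    apply per_lt (fun i => - g i p) C.hn (fun i => by simp only [g]; rw [C.hper]) 1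
    intro i hi
    obtain ⟨j, rfl⟩ : ∃ j, i = j + 1 := ⟨i - 1, by omega⟩
    have h1 := hge j
    have h2 := hne (j + 1)
    have hv1 := C.v1 p (j + 1)
    have hv2 := C.v2 p (j + 1)
    rw [(hβ p hpS).1] at hv2
    simp only [g] at h1 h2 ⊢
    have h3 := hv2 h2
    rw [min_eq_left h1] at h3
    omega
  · -- minW
    intro i m hm hWne
    have hex : ∃ p ∈ S, g i p = (β p : ℤ) := by
      by_contra hc
      push Not at hc
      apply hWne
      apply Finset.prod_eq_one
      intro p hp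
      have h5 : δ i p = 0 := by simp only [δ]; rw [if_neg (hc p hp)]
      rw [h5, pow_zero]
    obtain ⟨p, hp, hg⟩ := hex
    have h6 : δ i p = β p := by simp only [δ]; rw [if_pos hg]
    have h2 : p ^ (δ i p) ≤ W i := by
      apply Finset.single_le_prod' (f := fun p => p ^ (δ i p)) _ hp
      intro q hq'
      exact Nat.one_le_pow _ _ (hpr q hq').pos
    rw [h6] at h2
    exact le_trans (hm p (hpr p hp) (Nat.dvd_of_mem_primeFactors hp)) h2
  · -- big
    intro i
    have hEq : (E i : ℚ) ≠ 0 := by have := hE1 i; positivity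
    have hWq : ∀ j, (W j : ℚ) ≠ 0 := by intro j; have := hW1 j; positivity
    have hNq : (N : ℚ) ≠ 0 := by exact_mod_cast hN0
    have hub : u (i + 1) / b ≠ 0 := div_ne_zero (C.u0 _) C.hb
    have hub' : |u (i + 1) / b| ≠ 0 := abs_ne_zero.mpr hub
    set ρ : ℚ := |u (i + 1) / b| * (((E i : ℚ) * (W i : ℚ)) ^ 2 *
      ((W (i + 1) : ℚ) ^ 4 * (W i : ℚ) ^ 4 * (W (i + 2) : ℚ) ^ 2)) / (N : ℚ) ^ 4 with hρ
    have hM0 : (((E i : ℚ) * (W i : ℚ)) ^ 2 *
      ((W (i + 1) : ℚ) ^ 4 * (W i : ℚ) ^ 4 * (W (i + 2) : ℚ) ^ 2)) ≠ 0 := by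
      have := hWq i
      have := hWq (i + 1)
      have := hWq (i + 2)
      positivity
    have hval : ∀ l, l.Prime → 0 ≤ padicValRat l ρ := by
      intro l hl
      have : Fact l.Prime := ⟨hl⟩
      rw [hρ, padicValRat.div (mul_ne_zero hub' hM0) (pow_ne_zero _ hNq),
        padicValRat.mul hub' hM0, val_abs, padicValRat.div (C.u0 _) C.hb,
        padicValRat.mul (pow_ne_zero _ (mul_ne_zero hEq (hWq i)))
          (mul_ne_zero (mul_ne_zero (pow_ne_zero _ (hWq _)) (pow_ne_zero _ (hWq _)))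
            (pow_ne_zero _ (hWq _))),
        padicValRat.pow, padicValRat.mul hEq (hWq i),
        padicValRat.mul (mul_ne_zero (pow_ne_zero _ (hWq _)) (pow_ne_zero _ (hWq _)))
            (pow_ne_zero _ (hWq _)),
        padicValRat.mul (pow_ne_zero _ (hWq _)) (pow_ne_zero _ (hWq _)),
        padicValRat.pow, padicValRat.pow, padicValRat.pow, padicValRat.pow]
      have w1 := hvprod (η i) l hl
      have w2 := hvprod (δ i) l hl
      have w3 := hvprod (δ (i + 1)) l hl
      have w4 := hvprod (δ (i + 2)) l hl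
      have w5 := hvprod β l hl
      rw [hfac] at w5
      simp only [E, W]
      rw [w1, w2, w3, w4, w5]
      by_cases hlS : l ∈ S
      · simp only [if_pos hlS]
        rw [(hβ l hlS).1]
        have hpos : (0:ℤ) < (β l : ℤ) := by exact_mod_cast (hβ l hlS).2
        have hT : ∀ j, (g j l = (β l : ℤ) → g (j + 1) l = - (β l : ℤ) - 2 * η j l) ∧
            (g j l ≠ (β l : ℤ) → (β l : ℤ) ≤ g (j + 1) l) ∧
            ((β l : ℤ) < g j l → g (j + 1) l = g j l - 2 * β l) := by
          intro j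
          have hv1 := C.v1 l j
          have hv2 := C.v2 l j
          have hv3 := C.v3 l j
          rw [(hβ l hlS).1] at hv2 hv3
          obtain ⟨c1, c2⟩ := typeB_neg hpos hv1 hv2 hv3 (hB l hlS j) (hB l hlS (j + 1))
          have h4 := hη j l hlS
          simp only [e, g] at h4 ⊢
          refine ⟨?_, c2, ?_⟩
          · intro hg
            rw [hg, min_self] at h4
            omega
          · intro hg
            have h5 := hv2 (by omega)
            rw [min_eq_left hg.le] at h5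
            omega
        have hd0 : (δ i l : ℤ) = if g i l = (β l : ℤ) then (β l : ℤ) else 0 := by
          simp only [δ]; split_ifs <;> simp
        have hd1 : (δ (i + 1) l : ℤ) = if g (i + 1) l = (β l : ℤ) then (β l : ℤ) else 0 := by
          simp only [δ]; split_ifs <;> simp
        have hd2 : (δ (i + 2) l : ℤ) = if g (i + 2) l = (β l : ℤ) then (β l : ℤ) else 0 := by
          simp only [δ]; split_ifs <;> simp
        have t0 := hT i
        have t1 := hT (i + 1)
        have t2 := hT (i + 2)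
        rw [show i + 1 + 1 = i + 2 by ring] at t1
        rw [show i + 2 + 1 = i + 3 by ring] at t2
        have hη' : (0:ℤ) ≤ η i l := by positivity
        rw [hd0, hd1, hd2]
        simp only [g] at t0 t1 t2 ⊢
        obtain ⟨t01, t02, t03⟩ := t0
        obtain ⟨t11, t12, t13⟩ := t1
        obtain ⟨t21, t22, t23⟩ := t2
        push_cast
        split_ifs with k0 k1 k2 k2 k1 k2 k2 <;> omega
      · simp only [if_neg hlS]
        have := (C.v_unit l (hoS l hl hlS) (i + 1)).2
        push_cast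
        omega
    have hden := den_one_of_val hval
    have hρpos : 0 < ρ := by
      rw [hρ]
      have h1 := hWq i
      have h2 := hWq (i + 1)
      have h3 := hWq (i + 2)
      positivity
    have hρ1 : 1 ≤ ρ := by
      have h1 : ρ = ρ.num := by
        conv_lhs => rw [← Rat.num_div_den ρ, hden]
        simp
      have h2 : 0 < ρ.num := Rat.num_pos.mpr hρpos
      rw [h1]
      exact_mod_cast h2
    have hN4 : (0:ℚ) < (N : ℚ) ^ 4 := by positivity
    rw [hρ, le_div_iff₀ hN4, one_mul] at hρ1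
    exact hρ1
  · -- supp
    intro i l hl hd
    have hone : ∀ f : ℕ → ℕ, l ∣ ∏ p ∈ S, p ^ f p → l ∣ N := by
      intro f hf
      obtain ⟨p, hp, hlp⟩ := (Prime.dvd_finset_prod_iff hl.prime _).mp hf
      have h1 : l ∣ p := hl.dvd_of_dvd_pow hlp
      exact dvd_trans h1 (Nat.dvd_of_mem_primeFactors hp)
    rcases (Nat.Prime.dvd_mul hl).mp hd with h1 | h1
    · exact hone _ h1
    · exact hone _ h1

end

section

theorem bD_eq {b : ℚ} (hb : 0 < b) : b * (b.den : ℚ) = (b.num.natAbs : ℚ) := by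
  have h1 : b * b.den = b.num := Rat.mul_den_eq_num b
  have h2 : ((b.num.natAbs : ℕ) : ℚ) = b.num := by
    rw [Nat.cast_natAbs, abs_of_pos (Rat.num_pos.mpr hb)]
  rw [h2]; exact h1

theorem upper_abs {b : ℚ} {u s : ℕ → ℚ} {n : ℕ} (C : Cyc b u s n) (hb : 1 < b)
    (hnt : ∀ i, (s i) ^ 2 ≠ 1) (i : ℕ) : (b - 1) * |s i| < b := by
  have hu := C.u_neg hb.le
  have h1 := C.s_lt_one hu hnt i
  have h2 := C.s_gt hu hnt i
  rcases abs_cases (s i) with ⟨h, _⟩ | ⟨h, _⟩
  · rw [h]; nlinarith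
  · rw [h]; nlinarith

theorem W_ne_one {b : ℚ} {u s : ℕ → ℚ} {n : ℕ} {E W : ℕ → ℕ} (h : Data b u s n E W)
    (hb : 1 < b) (i : ℕ) : W i ≠ 1 := by
  intro hW
  have hE := h.EW i hW
  have hr := h.rel i
  rw [hW, hE] at hr
  have hup := upper_abs h.cyc hb h.hnt (i + 1)
  have hE1 : (1:ℚ) ≤ E (i + 1) := by exact_mod_cast h.E1 (i + 1)
  have hbD := bD_eq (show 0 < b by linarith)
  have hD1 : (1:ℚ) ≤ b.den := by exact_mod_cast b.den_pos
  have hND : b.den < b.num.natAbs := by
    have : (b.den : ℚ) < (b.num.natAbs : ℚ) := by rw [← hbD]; nlinarith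
    exact_mod_cast this
  have hND' : (b.den : ℚ) + 1 ≤ (b.num.natAbs : ℚ) := by exact_mod_cast hND
  set N : ℚ := (b.num.natAbs : ℚ) with hN
  set D : ℚ := (b.den : ℚ) with hD
  have hs : N ≤ |s (i + 1)| := by
    have e : |s (i + 1)| = N * (E (i + 1) : ℚ) := by
      rw [← hr]; norm_num
    rw [e]; nlinarith
  have h1 : (b - 1) * N < b := lt_of_le_of_lt (mul_le_mul_of_nonneg_left hs (by linarith)) hup
  -- multiply by D
  have h2 : (b * D - D) * N < b * D := by nlinarith
  rw [hbD] at h2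
  nlinarith

theorem exists_max {n : ℕ} (hn : 0 < n) (E : ℕ → ℕ) (hper : ∀ i, E (i + n) = E i) :
    ∃ k, ∀ j, E j ≤ E k := by
  obtain ⟨k, hk, hmax⟩ := Finset.exists_max_image (Finset.range n) E
    ⟨0, Finset.mem_range.mpr hn⟩
  refine ⟨k, fun j => ?_⟩
  have h1 := per_mul E hper (j / n) (j % n)
  rw [Nat.mod_add_div] at h1
  rw [h1]
  exact hmax _ (Finset.mem_range.mpr (Nat.mod_lt _ hn))

/-- one large prime power in the numerator -/
theorem crit_large {b : ℚ} {u s : ℕ → ℚ} {n : ℕ} {E W : ℕ → ℕ} (h : Data b u s n E W)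
    (hb : 6 ≤ b) {m q : ℕ} (hm : ∀ i, m ≤ W i) (hm0 : 0 < m) (hq : ∃ i, q ≤ W i)
    (hmq : (b.den : ℚ) ^ 2 * b ^ 4 ≤ (m : ℚ) * q * (b - 1) ^ 4) : False := by
  have C := h.cyc
  have hbD := bD_eq (show 0 < b by linarith)
  have hD1 : (1:ℚ) ≤ b.den := by exact_mod_cast b.den_pos
  have hlow : ∀ i, (b - 1) ^ 3 ≤ b * ((b.num.natAbs : ℚ) * (E i : ℚ)) := by
    intro i
    obtain ⟨ρ, hρ0, hρ1, hρ2, hρ3⟩ := rho_exists C hb h.hnt i
    have h1 := num_ge hb hρ0 hρ1 hρ2
    have h2 := h.num i ρ hρ0.ne' hρ3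
    have h3 : (ρ.num.natAbs : ℚ) ≤ (b.num.natAbs : ℚ) * (E i : ℚ) := by exact_mod_cast h2
    nlinarith
  obtain ⟨k, hk⟩ := exists_max C.hn E h.perE
  have hab := fun i => abs_bounds C hb h.hnt i
  set N : ℚ := (b.num.natAbs : ℚ) with hN
  set D : ℚ := (b.den : ℚ) with hD
  have hNpos : 0 < N := by
    rw [← hbD]; nlinarith
  have hmq' : (0:ℚ) < m := by exact_mod_cast hm0
  have hEk : (1:ℚ) ≤ E k := by exact_mod_cast h.E1 k
  -- (4)
  have h4 : (b - 1) * m ^ 2 * E k ≤ b * N := by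
    have hr := h.rel k
    have h1 := (hab (k + 1)).1
    have h2 : (E (k + 1) : ℚ) ≤ E k := by exact_mod_cast hk (k + 1)
    have h3 : (m : ℚ) ≤ W k := by exact_mod_cast hm k
    have h5 : (m:ℚ) ^ 2 ≤ (W k : ℚ) ^ 2 := by nlinarith
    have h6 : (b - 1) * ((E k : ℚ) * (W k : ℚ)) ^ 2 ≤ b * (N * E k) := by
      have : (b - 1) * ((E k : ℚ) * (W k : ℚ)) ^ 2 ≤
          b * |s (k + 1)| * ((E k : ℚ) * (W k : ℚ)) ^ 2 :=
        mul_le_mul_of_nonneg_right h1.le (sq_nonneg _)
      have e : b * |s (k + 1)| * ((E k : ℚ) * (W k : ℚ)) ^ 2 = b * (N * E (k + 1)) := by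
        rw [← hr]; ring
      rw [e] at this
      have : b * (N * (E (k + 1) : ℚ)) ≤ b * (N * E k) := by
        apply mul_le_mul_of_nonneg_left _ (by linarith)
        exact mul_le_mul_of_nonneg_left h2 hNpos.le
      linarith
    have h7 : (b - 1) * m ^ 2 * E k * E k ≤ b * N * E k := by
      have : (b - 1) * (m:ℚ) ^ 2 * E k * E k ≤ (b - 1) * ((E k : ℚ) * (W k : ℚ)) ^ 2 := by
        have e : (b - 1) * ((E k : ℚ) * (W k : ℚ)) ^ 2 = (b - 1) * (W k : ℚ) ^ 2 * E k * E k := by
          ring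
        rw [e]
        have hb1 : 0 ≤ b - 1 := by linarith
        have := mul_le_mul_of_nonneg_left h5 hb1
        have := mul_le_mul_of_nonneg_right this (by linarith : (0:ℚ) ≤ E k)
        exact mul_le_mul_of_nonneg_right this (by linarith : (0:ℚ) ≤ E k)
      linarith
    exact le_of_mul_le_mul_right h7 (by linarith)
  obtain ⟨i, hi⟩ := hq
  have hWi : (q : ℚ) ≤ W i := by exact_mod_cast hi
  have hEi : (1:ℚ) ≤ E i := by exact_mod_cast h.E1 i
  have hWi1 : (1:ℚ) ≤ W i := by exact_mod_cast h.W1 i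
  -- (5)
  have h5 : (b - 1) * ((E i : ℚ) * (W i : ℚ)) ^ 2 < b * (N * E k) := by
    have hr := h.rel i
    have h1 := (hab (i + 1)).1
    have h2 : (E (i + 1) : ℚ) ≤ E k := by exact_mod_cast hk (i + 1)
    have h3 : (b - 1) * ((E i : ℚ) * (W i : ℚ)) ^ 2 <
        b * |s (i + 1)| * ((E i : ℚ) * (W i : ℚ)) ^ 2 :=
      mul_lt_mul_of_pos_right h1 (by positivity)
    have e : b * |s (i + 1)| * ((E i : ℚ) * (W i : ℚ)) ^ 2 = b * (N * E (i + 1)) := by
      rw [← hr]; ring
    rw [e] at h3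
    have : b * (N * (E (i + 1) : ℚ)) ≤ b * (N * E k) := by
      apply mul_le_mul_of_nonneg_left _ (by linarith)
      exact mul_le_mul_of_nonneg_left h2 hNpos.le
    linarith
  set x : ℚ := (b - 1) * m * (E i * W i) with hx
  have hxpos : 0 < x := by
    rw [hx]
    have : 0 < b - 1 := by linarith
    positivity
  have h6 : x ^ 2 < (b * N) ^ 2 := by
    have e1 : x ^ 2 = ((b - 1) * m ^ 2) * ((b - 1) * ((E i : ℚ) * (W i : ℚ)) ^ 2) := by
      rw [hx]; ring
    rw [e1]
    have hpos : 0 < (b - 1) * (m:ℚ) ^ 2 := by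
      have : 0 < b - 1 := by linarith
      positivity
    have h7 := mul_lt_mul_of_pos_left h5 hpos
    have h8 : ((b - 1) * (m:ℚ) ^ 2) * (b * (N * E k)) = (b * N) * ((b - 1) * m ^ 2 * E k) := by ring
    rw [h8] at h7
    have h9 : (b * N) * ((b - 1) * m ^ 2 * E k) ≤ (b * N) * (b * N) :=
      mul_le_mul_of_nonneg_left h4 (by positivity)
    nlinarith
  have h7 : x < b * N := by
    have : 0 < b * N := by positivity
    exact lt_of_pow_lt_pow_left₀ 2 this.le h6
  -- (6)
  have h8 := hlow i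
  have hb1 : 0 < b - 1 := by linarith
  have h9 : (b - 1) ^ 3 * ((b - 1) * m * W i) ≤ b * (N * E i) * ((b - 1) * m * W i) :=
    mul_le_mul_of_nonneg_right h8 (by positivity)
  have h10 : b * (N * E i) * ((b - 1) * m * W i) = (b * N) * x := by rw [hx]; ring
  rw [h10] at h9
  have h11 : (b * N) * x < (b * N) * (b * N) := mul_lt_mul_of_pos_left h7 (by positivity)
  have h12 : (b * N) * (b * N) = D ^ 2 * b ^ 4 := by rw [← hbD]; ring
  have h13 : (m : ℚ) * q * (b - 1) ^ 4 ≤ (b - 1) ^ 3 * ((b - 1) * m * W i) := by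
    have e : (b - 1) ^ 3 * ((b - 1) * m * W i) = (m : ℚ) * W i * (b - 1) ^ 4 := by ring
    rw [e]
    apply mul_le_mul_of_nonneg_right _ (by positivity)
    exact mul_le_mul_of_nonneg_left hWi hmq'.le
  linarith

theorem val_neg_of_dvd_den {q : ℚ} {p : ℕ} (hp : p.Prime) (hd : p ∣ q.den) :
    padicValRat p q < 0 := by
  have : Fact p.Prime := ⟨hp⟩
  have h3 : ¬ p ∣ q.num.natAbs := by
    intro h2
    have h4 : p ∣ 1 := by
      rw [← q.reduced]; exact Nat.dvd_gcd h2 hd
    exact hp.one_lt.ne' (Nat.dvd_one.mp h4)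
  rw [padicValRat, padicValInt, padicValNat.eq_zero_of_not_dvd h3]
  have h5 : 1 ≤ padicValNat p q.den := one_le_padicValNat_of_dvd q.den_ne_zero hd
  omega

theorem den_dvd {b : ℚ} {u s : ℕ → ℚ} {n : ℕ} (C : Cyc b u s n) (i : ℕ) :
    (b.den : ℤ) ∣ (s i).num ^ 2 - ((s i).den : ℤ) ^ 2 := by
  have ht := C.t_eq i
  set x := (s i).num with hx
  set y := (s i).den with hy
  set x' := (s (i + 1)).num with hx'
  set y' := (s (i + 1)).den with hy'
  have hyq : (y : ℚ) ≠ 0 := by exact_mod_cast (s i).den_ne_zero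
  have hyq' : (y' : ℚ) ≠ 0 := by exact_mod_cast (s (i + 1)).den_ne_zero
  have hDq : (b.den : ℚ) ≠ 0 := by exact_mod_cast b.den_ne_zero
  have e1 : s i * y = x := Rat.mul_den_eq_num (s i)
  have e2 : s (i + 1) * y' = x' := Rat.mul_den_eq_num (s (i + 1))
  have e3 : b * b.den = b.num := Rat.mul_den_eq_num b
  have key : (b.num : ℚ) * (((x : ℚ) ^ 2 - (y : ℚ) ^ 2) * y') =
      (b.den : ℚ) * (x * (x * x' - y * y')) := by
    rw [← e1, ← e2, ← e3]
    linear_combination (b.den : ℚ) * (y : ℚ) ^ 2 * y' * ht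
  have keyZ : b.num * ((x ^ 2 - (y : ℤ) ^ 2) * (y' : ℤ)) = (b.den : ℤ) * (x * (x * x' - y * y')) := by
    exact_mod_cast key
  have c1 : IsCoprime (b.den : ℤ) b.num := by
    rw [Int.isCoprime_iff_gcd_eq_one]
    have := b.reduced
    rw [Nat.Coprime, Nat.gcd_comm] at this
    rw [Int.gcd]
    simpa using this
  have c2 : IsCoprime (b.den : ℤ) (y' : ℤ) := by
    rw [Nat.isCoprime_iff_coprime]
    apply Nat.coprime_of_dvd
    intro l hl hd1 hd2
    have : Fact l.Prime := ⟨hl⟩
    have h1 : padicValRat l b ≤ 0 := (val_neg_of_dvd_den hl hd1).le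
    have h2 := (C.v_unit l h1 (i + 1)).1
    have h3 := val_neg_of_dvd_den hl hd2
    omega
  have d1 : (b.den : ℤ) ∣ b.num * ((x ^ 2 - (y : ℤ) ^ 2) * (y' : ℤ)) := ⟨_, keyZ⟩
  have d2 := c1.dvd_of_dvd_mul_left d1
  exact c2.dvd_of_dvd_mul_right d2

/-- large denominator -/
theorem crit_den {b : ℚ} {u s : ℕ → ℚ} {n : ℕ} {E W : ℕ → ℕ} (h : Data b u s n E W)
    (hD : b.num.natAbs ^ 6 ≤ b.den) : False := by
  have C := h.cyc
  set N := b.num.natAbs with hN
  have hN0 : N ≠ 0 := by rw [hN]; simpa using C.hb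
  have hN1 : 1 ≤ N := Nat.pos_of_ne_zero hN0
  have hor : ∀ i, N ^ 2 < E (i + 1) ∨ N < E i := by
    intro i
    have hdvd := den_dvd C (i + 1)
    have hne : (s (i + 1)).num ^ 2 - ((s (i + 1)).den : ℤ) ^ 2 ≠ 0 := by
      intro h0
      apply h.hnt (i + 1)
      have h1 : (s (i + 1)).num ^ 2 = ((s (i + 1)).den : ℤ) ^ 2 := by linarith
      have h2 : ((s (i + 1)).num : ℚ) ^ 2 = ((s (i + 1)).den : ℚ) ^ 2 := by exact_mod_cast h1
      have h3 : ((s (i + 1)).den : ℚ) ≠ 0 := by exact_mod_cast (s (i + 1)).den_ne_zero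
      have h4 : s (i + 1) = (s (i + 1)).num / (s (i + 1)).den := (Rat.num_div_den _).symm
      rw [h4, div_pow, h2, div_self (pow_ne_zero _ h3)]
    have hle := Int.le_of_dvd (abs_pos.mpr hne) ((dvd_abs _ _).mpr hdvd)
    have hx : (s (i + 1)).num.natAbs ≤ N * E (i + 1) := by
      apply h.num (i + 1) (s (i + 1)) (C.s0 _)
      intro p hp
      have : Fact p.Prime := ⟨hp⟩
      constructor
      · have := min_le_left (padicValRat p b) (padicValRat p (u (i + 1)))
        linarith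
      · intro hβ
        rw [(C.v_unit p hβ (i + 1)).1]
    have hy : (s (i + 1)).den ≤ W i * E i ^ 2 := h.den i
    have hnum0 : (s (i + 1)).num ≠ 0 := by simpa using C.s0 (i + 1)
    have hden0 : 0 < (s (i + 1)).den := (s (i + 1)).den_pos
    have hsq : (s (i + 1)).num ^ 2 = (((s (i + 1)).num.natAbs : ℕ) : ℤ) ^ 2 := by
      rw [Int.natCast_natAbs, sq_abs]
    rw [hsq] at hle
    have hn1 : 0 < (s (i + 1)).num.natAbs := Int.natAbs_pos.mpr hnum0
    set X := (s (i + 1)).num.natAbs with hX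
    set Y := (s (i + 1)).den with hY
    have hcase : b.den < X ^ 2 ∨ b.den < Y ^ 2 := by
      rcases abs_cases (((X : ℕ) : ℤ) ^ 2 - ((Y : ℕ) : ℤ) ^ 2) with ⟨h1, _⟩ | ⟨h1, _⟩
      · left
        rw [h1] at hle
        have : (0:ℤ) < ((Y : ℕ) : ℤ) ^ 2 := by positivity
        have : (b.den : ℤ) < ((X : ℕ) : ℤ) ^ 2 := by linarith
        exact_mod_cast this
      · right
        rw [h1] at hle
        have : (0:ℤ) < ((X : ℕ) : ℤ) ^ 2 := by positivity
        have : (b.den : ℤ) < ((Y : ℕ) : ℤ) ^ 2 := by linarith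
        exact_mod_cast this
    rcases hcase with hc | hc
    · left
      have h1 : (N ^ 3) ^ 2 < (N * E (i + 1)) ^ 2 := by
        calc (N ^ 3) ^ 2 = N ^ 6 := by ring
          _ ≤ b.den := hD
          _ < X ^ 2 := hc
          _ ≤ (N * E (i + 1)) ^ 2 := Nat.pow_le_pow_left hx 2
      have h2 : N ^ 3 < N * E (i + 1) := lt_of_pow_lt_pow_left₀ 2 (Nat.zero_le _) h1
      have h3 : N * N ^ 2 < N * E (i + 1) := by
        calc N * N ^ 2 = N ^ 3 := by ring
          _ < _ := h2
      exact lt_of_mul_lt_mul_left h3 (Nat.zero_le _)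
    · right
      have h1 : (N ^ 3) ^ 2 < (N * E i ^ 2) ^ 2 := by
        calc (N ^ 3) ^ 2 = N ^ 6 := by ring
          _ ≤ b.den := hD
          _ < Y ^ 2 := hc
          _ ≤ (N * E i ^ 2) ^ 2 := Nat.pow_le_pow_left
              (le_trans hy (Nat.mul_le_mul_right _ (h.WN i))) 2
      have h2 : N ^ 3 < N * E i ^ 2 := lt_of_pow_lt_pow_left₀ 2 (Nat.zero_le _) h1
      have h3 : N * N ^ 2 < N * E i ^ 2 := by
        calc N * N ^ 2 = N ^ 3 := by ring
          _ < _ := h2
      have h4 : N ^ 2 < E i ^ 2 := lt_of_mul_lt_mul_left h3 (Nat.zero_le _)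
      exact lt_of_pow_lt_pow_left₀ 2 (Nat.zero_le _) h4
  let f : ℕ → ℕ := fun i => if N ^ 2 < E i then 1 else 0
  let g : ℕ → ℕ := fun i => if N < E i then 1 else 0
  have hNN : N ≤ N ^ 2 := by nlinarith
  have hfg : ∀ i, N ^ (f i + g i) ≤ E i := by
    intro i
    simp only [f, g]
    by_cases h1 : N ^ 2 < E i
    · rw [if_pos h1, if_pos (lt_of_le_of_lt hNN h1)]
      exact h1.le
    · rw [if_neg h1]
      by_cases h2 : N < E i
      · rw [if_pos h2]; simp; exact h2.le
      · rw [if_neg h2]; simpa using h.E1 i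
  have hshift : ∑ i ∈ Finset.range n, f (i + 1) = ∑ i ∈ Finset.range n, f i := by
    have h1 := Finset.sum_range_succ f n
    have h2 := Finset.sum_range_succ' f n
    have h3 : f n = f 0 := by
      simp only [f]
      have := h.perE 0
      rw [Nat.zero_add] at this
      rw [this]
    omega
  have hcount : n ≤ ∑ i ∈ Finset.range n, (f i + g i) := by
    rw [Finset.sum_add_distrib, ← hshift, ← Finset.sum_add_distrib]
    calc n = ∑ i ∈ Finset.range n, 1 := by simp
      _ ≤ ∑ i ∈ Finset.range n, (f (i + 1) + g i) := by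
          apply Finset.sum_le_sum
          intro i _
          simp only [f, g]
          rcases hor i with h1 | h1
          · rw [if_pos h1]; omega
          · rw [if_pos h1]; omega
  have hE : N ^ n ≤ ∏ i ∈ Finset.range n, E i := by
    calc N ^ n ≤ N ^ (∑ i ∈ Finset.range n, (f i + g i)) := Nat.pow_le_pow_right hN1 hcount
      _ = ∏ i ∈ Finset.range n, N ^ (f i + g i) := (Finset.prod_pow_eq_pow_sum _ _ _).symm
      _ ≤ ∏ i ∈ Finset.range n, E i := Finset.prod_le_prod' (fun i _ => hfg i)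
  have hprod : (∏ i ∈ Finset.range n, E i) * (∏ i ∈ Finset.range n, W i) ^ 2 ≤ N ^ n := h.prod
  have hW1 : ∏ i ∈ Finset.range n, W i = 1 := by
    have h1 : 1 ≤ ∏ i ∈ Finset.range n, W i := Finset.one_le_prod' (fun i _ => h.W1 i)
    by_contra hne
    have h2 : 2 ≤ ∏ i ∈ Finset.range n, W i := by omega
    have h3 : 4 ≤ (∏ i ∈ Finset.range n, W i) ^ 2 := by nlinarith
    have h4 : 0 < N ^ n := Nat.pow_pos hN1
    have h5 := Nat.mul_le_mul hE h3
    omega
  have hWi : ∀ i ∈ Finset.range n, W i = 1 := by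
    intro i hi
    have h1 : W i ≤ ∏ i ∈ Finset.range n, W i :=
      Finset.single_le_prod' (f := W) (fun j _ => h.W1 j) hi
    have := h.W1 i
    omega
  have hEi : ∀ i, E i = 1 := by
    intro i
    have h1 := per_mul E h.perE (i / n) (i % n)
    rw [Nat.mod_add_div] at h1
    rw [h1]
    exact h.EW _ (hWi _ (Finset.mem_range.mpr (Nat.mod_lt _ C.hn)))
  rcases hor 0 with h1 | h1
  · rw [hEi] at h1; nlinarith
  · rw [hEi] at h1; omega

end

section

/-- Rankin's bound for integers composed of given primes -/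
theorem rankin {ε : ℝ} (hε : 0 < ε) (S : Finset ℕ) (hS : ∀ p ∈ S, p.Prime) {X : ℝ} (hX : 0 < X)
    (T : Finset ℕ) (hT : ∀ m ∈ T, m ≠ 0 ∧ (m : ℝ) ≤ X ∧ ∀ p, p.Prime → p ∣ m → p ∈ S) :
    (T.card : ℝ) ≤ X ^ ε * ∏ p ∈ S, (1 - (p : ℝ) ^ (-ε))⁻¹ := by
  let g : ℕ →* ℝ :=
    { toFun := fun m => (m : ℝ) ^ (-ε)
      map_one' := by simp
      map_mul' := fun a c => by
        push_cast
        exact Real.mul_rpow (by positivity) (by positivity) }
  have hg : ∀ m : ℕ, g m = (m : ℝ) ^ (-ε) := fun m => rfl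
  have hg0 : ∀ m : ℕ, 0 ≤ g m := fun m => by rw [hg]; positivity
  have hlt : ∀ {p : ℕ}, p.Prime → ‖g p‖ < 1 := by
    intro p hp
    rw [Real.norm_of_nonneg (hg0 p), hg]
    exact Real.rpow_lt_one_of_one_lt_of_neg (by exact_mod_cast hp.one_lt) (by linarith)
  obtain ⟨h1, h2⟩ :=
    EulerProduct.summable_and_hasSum_factoredNumbers_prod_filter_prime_geometric (f := g) hlt S
  have hfil : S.filter Nat.Prime = S := Finset.filter_true_of_mem hS
  rw [hfil] at h2
  have hmem : ∀ m ∈ T, m ∈ Nat.factoredNumbers S := by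
    intro m hm
    obtain ⟨a1, _, a3⟩ := hT m hm
    exact Nat.mem_factoredNumbers'.mpr a3
  have hsum : ∑ m ∈ T, g m ≤ ∏ p ∈ S, (1 - g p)⁻¹ := by
    let T' : Finset (Nat.factoredNumbers S) := T.attach.map
      ⟨fun x => ⟨x.1, hmem x.1 x.2⟩, fun x y hxy => by
        apply Subtype.ext
        exact congrArg (fun z : Nat.factoredNumbers S => (z : ℕ)) hxy⟩
    have h3 : ∑ m ∈ T, g m = ∑ m ∈ T', g m := by
      simp only [T', Finset.sum_map, Function.Embedding.coeFn_mk]
      rw [← Finset.sum_attach]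
    rw [h3]
    exact sum_le_hasSum T' (fun m _ => hg0 m) h2
  have hcard : (T.card : ℝ) ≤ ∑ m ∈ T, X ^ ε * g m := by
    have h4 : (T.card : ℝ) = ∑ m ∈ T, (1 : ℝ) := by simp
    rw [h4]
    apply Finset.sum_le_sum
    intro m hm
    obtain ⟨a1, a2, _⟩ := hT m hm
    have hmpos : (0:ℝ) < m := by positivity
    rw [hg, Real.rpow_neg hmpos.le, ← div_eq_mul_inv, le_div_iff₀ (by positivity), one_mul]
    exact Real.rpow_le_rpow hmpos.le a2 hε.le
  calc (T.card : ℝ) ≤ ∑ m ∈ T, X ^ ε * g m := hcard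
    _ = X ^ ε * ∑ m ∈ T, g m := by rw [Finset.mul_sum]
    _ ≤ X ^ ε * ∏ p ∈ S, (1 - g p)⁻¹ := mul_le_mul_of_nonneg_left hsum (by positivity)
    _ = _ := by simp only [hg]

/-- the Euler factors are small -/
theorem euler_le {ε : ℝ} (hε : 0 < ε) : ∃ C : ℝ, 1 ≤ C ∧ ∀ S : Finset ℕ, (∀ p ∈ S, p.Prime) →
    ∏ p ∈ S, (1 - (p : ℝ) ^ (-ε))⁻¹ ≤ C * ∏ p ∈ S, (p : ℝ) ^ ε := by
  set K : ℝ := (1 - (2 : ℝ) ^ (-ε))⁻¹ with hK
  set P : ℕ := ⌈(2 : ℝ) ^ (1 / ε)⌉₊ with hP
  have h2 : (0:ℝ) < (2 : ℝ) ^ (-ε) := by positivity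
  have h2' : (2 : ℝ) ^ (-ε) < 1 := Real.rpow_lt_one_of_one_lt_of_neg (by norm_num) (by linarith)
  have hK1 : 1 ≤ K := by
    rw [hK]
    exact (one_le_inv₀ (by linarith)).mpr (by linarith)
  refine ⟨K ^ P, one_le_pow₀ hK1, ?_⟩
  intro S hS
  have hpt : ∀ p ∈ S, (1 - (p : ℝ) ^ (-ε))⁻¹ ≤ (if p < P then K else 1) * (p : ℝ) ^ ε := by
    intro p hp
    have hp2 : (2:ℝ) ≤ p := by exact_mod_cast (hS p hp).two_le
    have hppos : (0:ℝ) < p := by linarith
    have hpe : 1 ≤ (p : ℝ) ^ ε := Real.one_le_rpow (by linarith) hε.le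
    split_ifs with h
    · have h3 : (p : ℝ) ^ (-ε) ≤ (2 : ℝ) ^ (-ε) :=
        Real.rpow_le_rpow_of_nonpos (by norm_num) hp2 (by linarith)
      calc (1 - (p : ℝ) ^ (-ε))⁻¹ ≤ K := by
            rw [hK]
            exact inv_anti₀ (by linarith) (by linarith)
        _ = K * 1 := (mul_one K).symm
        _ ≤ K * (p : ℝ) ^ ε := mul_le_mul_of_nonneg_left hpe (by linarith)
    · rw [one_mul]
      have h3 : (2 : ℝ) ^ (1 / ε) ≤ p := by
        push Not at h
        exact le_trans (Nat.le_ceil _) (by exact_mod_cast h)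
      have h4 : (2 : ℝ) ≤ (p : ℝ) ^ ε := by
        have := Real.rpow_le_rpow (by positivity) h3 hε.le
        rw [← Real.rpow_mul (by norm_num), one_div, inv_mul_cancel₀ hε.ne', Real.rpow_one] at this
        exact this
      rw [Real.rpow_neg hppos.le]
      have h5 : ((p : ℝ) ^ ε)⁻¹ ≤ 2⁻¹ := inv_anti₀ (by norm_num) h4
      calc (1 - ((p : ℝ) ^ ε)⁻¹)⁻¹ ≤ (2⁻¹ : ℝ)⁻¹ := inv_anti₀ (by norm_num) (by
            have : (2⁻¹ : ℝ) = 1 - 2⁻¹ := by norm_num
            linarith)
        _ = 2 := by norm_num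
        _ ≤ _ := h4
  have hnn : ∀ p ∈ S, 0 ≤ (1 - (p : ℝ) ^ (-ε))⁻¹ := by
    intro p hp
    apply inv_nonneg.mpr
    have : (p : ℝ) ^ (-ε) < 1 :=
      Real.rpow_lt_one_of_one_lt_of_neg (by exact_mod_cast (hS p hp).one_lt) (by linarith)
    linarith
  calc ∏ p ∈ S, (1 - (p : ℝ) ^ (-ε))⁻¹
      ≤ ∏ p ∈ S, ((if p < P then K else 1) * (p : ℝ) ^ ε) := Finset.prod_le_prod hnn hpt
    _ = (∏ p ∈ S, (if p < P then K else 1)) * ∏ p ∈ S, (p : ℝ) ^ ε := Finset.prod_mul_distrib
    _ ≤ K ^ P * ∏ p ∈ S, (p : ℝ) ^ ε := by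
        apply mul_le_mul_of_nonneg_right _ (Finset.prod_nonneg (fun p _ => by positivity))
        rw [Finset.prod_ite, Finset.prod_const, Finset.prod_const_one, mul_one]
        apply pow_le_pow_right₀ hK1
        calc (S.filter (fun p => p < P)).card ≤ (Finset.range P).card := by
              apply Finset.card_le_card
              intro p hp
              exact Finset.mem_range.mpr (Finset.mem_filter.mp hp).2
          _ = P := Finset.card_range P

/-- the integers up to `N ^ 3` all of whose primes divide `N` -/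
def sup3 (N : ℕ) : Finset ℕ :=
  (Finset.Icc 1 (N ^ 3)).filter (fun m => ∀ p ∈ m.primeFactors, p ∣ N)

theorem sup3_card {ε : ℝ} (hε : 0 < ε) : ∃ C : ℝ, 1 ≤ C ∧ ∀ N : ℕ, 1 ≤ N →
    ((sup3 N).card : ℝ) ≤ C * (N : ℝ) ^ ε := by
  obtain ⟨C, hC, h⟩ := euler_le (ε := ε / 4) (by linarith)
  refine ⟨C, hC, ?_⟩
  intro N hN
  have hNpos : (0:ℝ) < N := by exact_mod_cast hN
  have hN0 : N ≠ 0 := by omega
  have hpr : ∀ p ∈ N.primeFactors, p.Prime := fun p hp => Nat.prime_of_mem_primeFactors hp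
  have h1 := rankin (ε := ε / 4) (by linarith) N.primeFactors hpr
    (X := (N : ℝ) ^ 3) (by positivity) (sup3 N) (by
      intro m hm
      rw [sup3, Finset.mem_filter, Finset.mem_Icc] at hm
      refine ⟨by omega, by exact_mod_cast hm.1.2, fun p hp hpm => ?_⟩
      exact Nat.mem_primeFactors.mpr ⟨hp, hm.2 p (Nat.mem_primeFactors.mpr
        ⟨hp, hpm, by omega⟩), hN0⟩)
  have h2 : ∏ p ∈ N.primeFactors, (p : ℝ) ^ (ε / 4) ≤ (N : ℝ) ^ (ε / 4) := by
    rw [Real.finsetProd_rpow _ _ (fun p _ => by positivity)]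
    apply Real.rpow_le_rpow (Finset.prod_nonneg (fun p _ => by positivity)) _ (by linarith)
    have h5 : ((∏ p ∈ N.primeFactors, p : ℕ) : ℝ) ≤ (N : ℝ) := by
      exact_mod_cast Nat.le_of_dvd (by omega) (Nat.prod_primeFactors_dvd N)
    rw [Nat.cast_prod] at h5
    exact h5
  have h3 : ((N : ℝ) ^ 3) ^ (ε / 4) = (N : ℝ) ^ (3 * (ε / 4)) := by
    rw [← Real.rpow_natCast, ← Real.rpow_mul hNpos.le]
    norm_num
  calc ((sup3 N).card : ℝ) ≤ ((N : ℝ) ^ 3) ^ (ε / 4) *
        ∏ p ∈ N.primeFactors, (1 - (p : ℝ) ^ (-(ε / 4)))⁻¹ := h1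
    _ ≤ ((N : ℝ) ^ 3) ^ (ε / 4) * (C * ∏ p ∈ N.primeFactors, (p : ℝ) ^ (ε / 4)) :=
        mul_le_mul_of_nonneg_left (h _ hpr) (by positivity)
    _ ≤ ((N : ℝ) ^ 3) ^ (ε / 4) * (C * (N : ℝ) ^ (ε / 4)) := by
        apply mul_le_mul_of_nonneg_left _ (by positivity)
        exact mul_le_mul_of_nonneg_left h2 (by linarith)
    _ = C * (N : ℝ) ^ ε := by
        rw [h3]
        have : (N : ℝ) ^ (3 * (ε / 4)) * (C * (N : ℝ) ^ (ε / 4)) =
          C * ((N : ℝ) ^ (3 * (ε / 4)) * (N : ℝ) ^ (ε / 4)) := by ring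
        rw [this, ← Real.rpow_add hNpos]
        congr 2
        ring

end

section

/-- an index with small data -/
theorem small_index {n : ℕ} (hn : 0 < n) (N : ℕ) (E W : ℕ → ℕ) (hE1 : ∀ i, 1 ≤ E i)
    (hW1 : ∀ i, 1 ≤ W i) (hE : ∀ i, E (i + n) = E i) (hW : ∀ i, W (i + n) = W i)
    (hprod : (∏ i ∈ Finset.range n, E i) * (∏ i ∈ Finset.range n, W i) ^ 2 ≤ N ^ n) :
    ∃ i, E i * W i * (E (i + 1) * W (i + 1)) * E (i + 2) ≤ N ^ 3 := by
  by_contra hcon
  push Not at hcon
  let a : ℕ → ℕ := fun i => E i * W i ^ 2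
  have ha : ∏ i ∈ Finset.range n, a i ≤ N ^ n := by
    simp only [a]
    rw [Finset.prod_mul_distrib, Finset.prod_pow]
    exact hprod
  have hshift : ∀ g : ℕ → ℕ, (∀ i, g (i + n) = g i) → (∀ i, 1 ≤ g i) →
      ∏ i ∈ Finset.range n, g (i + 1) = ∏ i ∈ Finset.range n, g i := by
    intro g hg hg1
    have h1 := Finset.prod_range_succ g n
    have h2 := Finset.prod_range_succ' g n
    have h3 : g n = g 0 := by
      have := hg 0
      rw [Nat.zero_add] at this
      exact this
    rw [h3] at h1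
    rw [h1] at h2
    exact (Nat.eq_of_mul_eq_mul_right (hg1 0) h2).symm
  have ha1 : ∀ i, 1 ≤ a i := fun i => Nat.mul_pos (hE1 i) (Nat.pow_pos (hW1 i))
  have haper : ∀ i, a (i + n) = a i := fun i => by simp only [a, hE, hW]
  have s1 := hshift a haper ha1
  have s2 : ∏ i ∈ Finset.range n, a (i + 1 + 1) = ∏ i ∈ Finset.range n, a (i + 1) :=
    hshift (fun i => a (i + 1))
    (fun i => by
      show a (i + n + 1) = a (i + 1)
      rw [Nat.add_right_comm, haper]) (fun i => ha1 _)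
  have hlt : ∀ i, N ^ 3 < a i * a (i + 1) * a (i + 2) := by
    intro i
    refine lt_of_lt_of_le (hcon i) ?_
    simp only [a]
    have w0 := hW1 i
    have w1 := hW1 (i + 1)
    have w2 := hW1 (i + 2)
    have x0 : E i * W i ≤ E i * W i ^ 2 := Nat.mul_le_mul_left _ (Nat.le_self_pow (by norm_num) _)
    have x1 : E (i + 1) * W (i + 1) ≤ E (i + 1) * W (i + 1) ^ 2 :=
      Nat.mul_le_mul_left _ (Nat.le_self_pow (by norm_num) _)
    have x2 : E (i + 2) ≤ E (i + 2) * W (i + 2) ^ 2 := Nat.le_mul_of_pos_right _ (Nat.pow_pos w2)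
    exact Nat.mul_le_mul (Nat.mul_le_mul x0 x1) x2
  have h4 : ∏ i ∈ Finset.range n, N ^ 3 < ∏ i ∈ Finset.range n, (a i * a (i + 1) * a (i + 2)) := by
    by_cases hN : N = 0
    · subst hN
      rw [Finset.prod_const, Finset.card_range]
      simp only [ne_eq, OfNat.ofNat_ne_zero, not_false_eq_true, zero_pow]
      rw [zero_pow hn.ne']
      exact Finset.prod_pos (fun i _ => lt_of_le_of_lt (Nat.zero_le _) (hlt i))
    · apply Finset.prod_lt_prod_of_nonempty
      · intro i _
        exact Nat.pow_pos (Nat.pos_of_ne_zero hN)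
      · intro i _
        exact hlt i
      · exact ⟨0, Finset.mem_range.mpr hn⟩
  rw [Finset.prod_mul_distrib, Finset.prod_mul_distrib, Finset.prod_const, Finset.card_range] at h4
  have s3 : ∏ i ∈ Finset.range n, a (i + 2) = ∏ i ∈ Finset.range n, a i := by
    rw [← s1]
    exact s2
  rw [s1, s3] at h4
  have h5 : (∏ i ∈ Finset.range n, a i) * (∏ i ∈ Finset.range n, a i) *
      (∏ i ∈ Finset.range n, a i) ≤ N ^ n * N ^ n * N ^ n :=
    Nat.mul_le_mul (Nat.mul_le_mul ha ha) ha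
  have h6 : N ^ n * N ^ n * N ^ n = (N ^ 3) ^ n := by ring
  omega

/-- recovering `b` from two consecutive multipliers -/
theorem b_eq {b : ℚ} {u s : ℕ → ℚ} {n : ℕ} (C : Cyc b u s n) (i : ℕ) (h : (s i) ^ 2 ≠ 1) :
    b = s i * (s i * s (i + 1) - 1) / ((s i) ^ 2 - 1) := by
  have ht := C.t_eq i
  have : (s i) ^ 2 - 1 ≠ 0 := sub_ne_zero.mpr h
  rw [eq_div_iff this]
  exact ht

/-- the candidates for `b` -/
def cand (N : ℕ) (t : ((ℕ × ℕ) × (ℕ × ℕ) × ℕ) × (Bool × Bool)) : ℚ :=
  let x : ℚ := (if t.2.1 then 1 else -1) *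
    ((N : ℚ) * (t.1.2.1.1 : ℚ) / ((t.1.1.1 : ℚ) * (t.1.1.2 : ℚ)) ^ 2)
  let y : ℚ := (if t.2.2 then 1 else -1) *
    ((N : ℚ) * (t.1.2.2 : ℚ) / ((t.1.2.1.1 : ℚ) * (t.1.2.1.2 : ℚ)) ^ 2)
  x * (x * y - 1) / (x ^ 2 - 1)

/-- the index set -/
def index (N : ℕ) : Finset (((ℕ × ℕ) × (ℕ × ℕ) × ℕ) × (Bool × Bool)) :=
  ((sup3 N ×ˢ sup3 N) ×ˢ (sup3 N ×ˢ sup3 N) ×ˢ sup3 N) ×ˢ (Finset.univ ×ˢ Finset.univ)

theorem index_card (N : ℕ) : (index N).card = 4 * (sup3 N).card ^ 5 := by
  simp only [index, Finset.card_product, Finset.card_univ, Fintype.card_bool]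
  ring

theorem mem_cand {b : ℚ} {u s : ℕ → ℚ} {n : ℕ} (C : Cyc b u s n)
    (hnt : ¬ ∀ i, |s i * s (i + 1)| = 1) : b ∈ (index b.num.natAbs).image (cand b.num.natAbs) := by
  obtain ⟨E, W, h⟩ := exists_data C hnt
  set N := b.num.natAbs with hN
  obtain ⟨i, hi⟩ := small_index C.hn N E W h.E1 h.W1 h.perE h.perW h.prod
  have e0 := h.E1 i
  have e1 := h.E1 (i + 1)
  have e2 := h.E1 (i + 2)
  have w0 := h.W1 i
  have w1 := h.W1 (i + 1)
  have hd : ∀ x, x ∣ E i * W i * (E (i + 1) * W (i + 1)) * E (i + 2) → x ≤ N ^ 3 := by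
    intro x hx
    refine le_trans (Nat.le_of_dvd ?_ hx) hi
    have a0 := Nat.mul_pos e0 w0
    have a1 := Nat.mul_pos e1 w1
    exact Nat.mul_pos (Nat.mul_pos a0 a1) e2
  have memE : ∀ j, E j ≤ N ^ 3 → E j ∈ sup3 N := by
    intro j hj
    rw [sup3, Finset.mem_filter, Finset.mem_Icc]
    refine ⟨⟨h.E1 j, hj⟩, fun p hp => ?_⟩
    exact h.supp j p (Nat.prime_of_mem_primeFactors hp)
      (dvd_mul_of_dvd_left (Nat.dvd_of_mem_primeFactors hp) _)
  have memW : ∀ j, W j ≤ N ^ 3 → W j ∈ sup3 N := by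
    intro j hj
    rw [sup3, Finset.mem_filter, Finset.mem_Icc]
    refine ⟨⟨h.W1 j, hj⟩, fun p hp => ?_⟩
    exact h.supp j p (Nat.prime_of_mem_primeFactors hp)
      (dvd_mul_of_dvd_right (Nat.dvd_of_mem_primeFactors hp) _)
  have m0 := memE i (hd _ ⟨W i * (E (i + 1) * W (i + 1)) * E (i + 2), by ring⟩)
  have m1 := memE (i + 1) (hd _ ⟨E i * W i * W (i + 1) * E (i + 2), by ring⟩)
  have m2 := memE (i + 2) (hd _ ⟨E i * W i * (E (i + 1) * W (i + 1)), by ring⟩)
  have k0 := memW i (hd _ ⟨E i * (E (i + 1) * W (i + 1)) * E (i + 2), by ring⟩)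
  have k1 := memW (i + 1) (hd _ ⟨E i * W i * E (i + 1) * E (i + 2), by ring⟩)
  have habs : ∀ j, s (j + 1) = (if (0 ≤ s (j + 1) : Bool) then 1 else -1) *
      ((N : ℚ) * (E (j + 1) : ℚ) / ((E j : ℚ) * (W j : ℚ)) ^ 2) := by
    intro j
    have hr := h.rel j
    have hEq : (E j : ℚ) ≠ 0 := by have := h.E1 j; positivity
    have hWq : (W j : ℚ) ≠ 0 := by have := h.W1 j; positivity
    have h1 : |s (j + 1)| = (N : ℚ) * (E (j + 1) : ℚ) / ((E j : ℚ) * (W j : ℚ)) ^ 2 := by
      rw [eq_div_iff (pow_ne_zero _ (mul_ne_zero hEq hWq))]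
      exact hr
    rw [← h1]
    by_cases h0 : 0 ≤ s (j + 1)
    · simp [h0, abs_of_nonneg h0]
    · push Not at h0
      simp [not_le.mpr h0, abs_of_neg h0]
  rw [Finset.mem_image]
  refine ⟨(((E i, W i), (E (i + 1), W (i + 1)), E (i + 2)),
    ((0 ≤ s (i + 1) : Bool), (0 ≤ s (i + 2) : Bool))), ?_, ?_⟩
  · simp only [index, Finset.mem_product, Finset.mem_univ, and_true]
    exact ⟨⟨m0, k0⟩, ⟨m1, k1⟩, m2⟩
  · have hb := b_eq C (i + 1) (h.hnt (i + 1))
    have a1 := habs i
    have a2 := habs (i + 1)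
    rw [show i + 1 + 1 = i + 2 by ring] at hb a2
    simp only [cand]
    rw [← a1, ← a2]
    exact hb.symm

end

section

/-- the map `x ↦ b x + c / x` on the projective line `ℚ ∪ {∞}` -/
def f (b c : ℚ) : Option ℚ → Option ℚ
  | none => none
  | some x => if x = 0 then none else some (b * x + c / x)

theorem f_none (b c : ℚ) : f b c none = none := rfl

theorem f_zero (b c : ℚ) : f b c (some 0) = none := by simp [f]

theorem f_some (b c : ℚ) {x : ℚ} (hx : x ≠ 0) : f b c (some x) = some (b * x + c / x) := by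
  simp [f, hx]

theorem iter_none (b c : ℚ) (k : ℕ) : (f b c)^[k] none = none := by
  induction k with
  | zero => rfl
  | succ k ih => rw [Function.iterate_succ_apply, f_none, ih]

end

section

theorem sum_inv_sq (H : ℕ) (hH : 2 ≤ H) :
    ∑ k ∈ Finset.Icc 2 H, (1 : ℝ) / (k : ℝ) ^ 2 ≤ 3 / 4 - 1 / H := by
  induction H, hH using Nat.le_induction with
  | base =>
    simp only [Finset.Icc_self, Finset.sum_singleton]
    norm_num
  | succ H hH ih =>
    rw [Finset.sum_Icc_succ_top (by omega)]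
    have h1 : (0:ℝ) < H := by positivity
    have h2 : (1 : ℝ) / ((H + 1 : ℕ) : ℝ) ^ 2 ≤ 1 / H - 1 / ((H + 1 : ℕ) : ℝ) := by
      push_cast
      rw [div_sub_div _ _ h1.ne' (by positivity), div_le_div_iff₀ (by positivity) (by positivity)]
      nlinarith
    linarith

/-- at least a quarter of all pairs are coprime -/
theorem coprime_pairs (H : ℕ) :
    (H : ℝ) ^ 2 ≤ 4 * ((((Finset.Ioc 0 H) ×ˢ (Finset.Ioc 0 H)).filter
      (fun p => Nat.Coprime p.1 p.2)).card : ℝ) := by
  set A := (Finset.Ioc 0 H) ×ˢ (Finset.Ioc 0 H) with hA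
  have hAc : A.card = H ^ 2 := by
    rw [hA, Finset.card_product, Nat.card_Ioc, Nat.sub_zero, sq]
  have hsplit := Finset.card_filter_add_card_filter_not (s := A)
    (fun p : ℕ × ℕ => Nat.Coprime p.1 p.2)
  rw [hAc] at hsplit
  have hsub : A.filter (fun p => ¬ Nat.Coprime p.1 p.2) ⊆
      (Finset.Icc 2 H).biUnion (fun k => ((Finset.Ioc 0 H).filter (fun x => k ∣ x)) ×ˢ
        ((Finset.Ioc 0 H).filter (fun x => k ∣ x))) := by
    intro p hp
    rw [Finset.mem_filter, hA, Finset.mem_product] at hp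
    obtain ⟨⟨h1, h2⟩, h3⟩ := hp
    rw [Finset.mem_biUnion]
    refine ⟨Nat.gcd p.1 p.2, ?_, ?_⟩
    · rw [Finset.mem_Icc]
      rw [Finset.mem_Ioc] at h1
      have h4 : Nat.gcd p.1 p.2 ≤ p.1 := Nat.gcd_le_left _ h1.1
      have h5 : 0 < Nat.gcd p.1 p.2 := Nat.gcd_pos_of_pos_left _ h1.1
      have h6 : Nat.gcd p.1 p.2 ≠ 1 := h3
      omega
    · rw [Finset.mem_product, Finset.mem_filter, Finset.mem_filter]
      exact ⟨⟨h1, Nat.gcd_dvd_left _ _⟩, ⟨h2, Nat.gcd_dvd_right _ _⟩⟩
  have hle : (((A.filter (fun p => ¬ Nat.Coprime p.1 p.2)).card : ℕ) : ℝ) ≤ 3 / 4 * (H : ℝ) ^ 2 := by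
    have h1 : (A.filter (fun p => ¬ Nat.Coprime p.1 p.2)).card ≤
        ∑ k ∈ Finset.Icc 2 H, (H / k) ^ 2 := by
      refine le_trans (Finset.card_le_card hsub) (le_trans Finset.card_biUnion_le ?_)
      apply le_of_eq
      apply Finset.sum_congr rfl
      intro k _
      rw [Finset.card_product, Nat.Ioc_filter_dvd_card_eq_div, sq]
    rcases Nat.lt_or_ge H 2 with hH | hH
    · have h2 : Finset.Icc 2 H = ∅ := Finset.Icc_eq_empty (by omega)
      rw [h2, Finset.sum_empty] at h1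
      have h3 : (A.filter (fun p => ¬ Nat.Coprime p.1 p.2)).card = 0 := by omega
      rw [h3, Nat.cast_zero]
      positivity
    · calc (((A.filter (fun p => ¬ Nat.Coprime p.1 p.2)).card : ℕ) : ℝ)
          ≤ ((∑ k ∈ Finset.Icc 2 H, (H / k) ^ 2 : ℕ) : ℝ) := by exact_mod_cast h1
        _ = ∑ k ∈ Finset.Icc 2 H, (((H / k : ℕ) : ℝ)) ^ 2 := by push_cast; rfl
        _ ≤ ∑ k ∈ Finset.Icc 2 H, (H : ℝ) ^ 2 * (1 / (k : ℝ) ^ 2) := by
            apply Finset.sum_le_sum
            intro k hk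
            have hk2 := (Finset.mem_Icc.mp hk).1
            have hkpos : (0:ℝ) < k := by positivity
            have h4 : ((H / k : ℕ) : ℝ) ≤ (H : ℝ) / k := Nat.cast_div_le
            calc (((H / k : ℕ) : ℝ)) ^ 2 ≤ ((H : ℝ) / k) ^ 2 :=
                  pow_le_pow_left₀ (by positivity) h4 2
              _ = _ := by rw [div_pow]; ring
        _ = (H : ℝ) ^ 2 * ∑ k ∈ Finset.Icc 2 H, (1 / (k : ℝ) ^ 2) := by rw [Finset.mul_sum]
        _ ≤ (H : ℝ) ^ 2 * (3 / 4) := by
            apply mul_le_mul_of_nonneg_left _ (by positivity)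
            have := sum_inv_sq H hH
            have h5 : (0:ℝ) ≤ 1 / H := by positivity
            linarith
        _ = _ := by ring
  have hsplit' : (((A.filter (fun p => Nat.Coprime p.1 p.2)).card : ℕ) : ℝ) +
      (((A.filter (fun p => ¬ Nat.Coprime p.1 p.2)).card : ℕ) : ℝ) = (H : ℝ) ^ 2 := by
    exact_mod_cast hsplit
  linarith

/-- the non-zero rational numbers of height at most `H` -/
def Box (H : ℕ) : Set ℚ := {b : ℚ | b ≠ 0 ∧ b.num.natAbs ≤ H ∧ b.den ≤ H}

theorem box_finite (H : ℕ) : (Box H).Finite := by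
  apply Set.Finite.subset (Set.Finite.image (fun p : ℤ × ℤ => ((p.1 : ℚ) / (p.2 : ℚ)))
    (Set.Finite.prod (Set.finite_Icc (-(H : ℤ)) H) (Set.finite_Icc (0 : ℤ) H)))
  rintro b ⟨h0, h1, h2⟩
  refine ⟨(b.num, (b.den : ℤ)), ⟨?_, ?_⟩, ?_⟩
  · simp only [Set.mem_Icc]
    omega
  · simp only [Set.mem_Icc]
    omega
  · simp only
    push_cast
    exact Rat.num_div_den b

theorem box_card (H : ℕ) : (H : ℝ) ^ 2 ≤ 4 * ((Box H).ncard : ℝ) := by
  refine le_trans (coprime_pairs H) ?_
  apply mul_le_mul_of_nonneg_left _ (by norm_num)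
  set T := ((Finset.Ioc 0 H) ×ˢ (Finset.Ioc 0 H)).filter (fun p => Nat.Coprime p.1 p.2) with hT
  have hnd : ∀ p ∈ T, (((p.1 : ℤ) : ℚ) / ((p.2 : ℤ) : ℚ)).num = (p.1 : ℤ) ∧
      (((((p.1 : ℤ) : ℚ) / ((p.2 : ℤ) : ℚ)).den : ℕ) : ℤ) = (p.2 : ℤ) ∧
      0 < p.1 ∧ p.1 ≤ H ∧ 0 < p.2 ∧ p.2 ≤ H := by
    intro p hp
    rw [hT, Finset.mem_filter, Finset.mem_product, Finset.mem_Ioc, Finset.mem_Ioc] at hp
    obtain ⟨⟨h1, h2⟩, h3⟩ := hp
    have hpos : (0:ℤ) < (p.2 : ℤ) := by exact_mod_cast h2.1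
    have hc : Nat.Coprime (p.1 : ℤ).natAbs (p.2 : ℤ).natAbs := by simpa using h3
    exact ⟨Rat.num_div_eq_of_coprime hpos hc, Rat.den_div_eq_of_coprime hpos hc,
      h1.1, h1.2, h2.1, h2.2⟩
  let φ : ℕ × ℕ → ℚ := fun p => ((p.1 : ℤ) : ℚ) / ((p.2 : ℤ) : ℚ)
  have hinj : Set.InjOn φ (T : Set (ℕ × ℕ)) := by
    intro p hp q hq hpq
    obtain ⟨a1, a2, _⟩ := hnd p (Finset.mem_coe.mp hp)
    obtain ⟨c1, c2, _⟩ := hnd q (Finset.mem_coe.mp hq)
    simp only [φ] at hpq
    rw [hpq] at a1 a2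
    apply Prod.ext
    · have := a1.symm.trans c1
      exact_mod_cast this
    · have := a2.symm.trans c2
      exact_mod_cast this
  have h1 : (T.image φ).card = T.card := Finset.card_image_of_injOn hinj
  have h2 : ((T.image φ : Finset ℚ) : Set ℚ) ⊆ Box H := by
    intro b hb
    rw [Finset.mem_coe, Finset.mem_image] at hb
    obtain ⟨p, hp, rfl⟩ := hb
    obtain ⟨a1, a2, a3, a4, a5, a6⟩ := hnd p hp
    refine ⟨?_, ?_, ?_⟩
    · simp only [φ]
      have : (0:ℚ) < ((p.1 : ℤ) : ℚ) / ((p.2 : ℤ) : ℚ) := by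
        apply div_pos
        · exact_mod_cast a3
        · exact_mod_cast a5
      exact this.ne'
    · simp only [φ]
      rw [a1]
      simpa using a4
    · simp only [φ]
      have : (((((p.1 : ℤ) : ℚ) / ((p.2 : ℤ) : ℚ)).den : ℕ) : ℤ) ≤ (H : ℤ) := by
        rw [a2]; exact_mod_cast a6
      exact_mod_cast this
  have h3 : T.card ≤ (Box H).ncard := by
    calc T.card = (T.image φ).card := h1.symm
      _ = ((T.image φ : Finset ℚ) : Set ℚ).ncard := (Set.ncard_coe_finset _).symm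
      _ ≤ (Box H).ncard := Set.ncard_le_ncard h2 (box_finite H)
  exact_mod_cast h3

end

section

/-- the rational preperiodic points: those with a finite forward orbit -/
def PrePer (b c : ℚ) : Set (Option ℚ) :=
  {P | (Set.range (fun n : ℕ => (f b c)^[n] P)).Finite}

/-- there is a cycle for which the product of two consecutive multipliers is not `1` or `-1` -/
def Bad (b : ℚ) : Prop :=
  ∃ (u s : ℕ → ℚ) (n : ℕ), Cyc b u s n ∧ ¬ ∀ i, |s i * s (i + 1)| = 1

/-- integers are not bad -/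
theorem int_case {b : ℚ} {u s : ℕ → ℚ} {n : ℕ} (C : Cyc b u s n) (hb : 0 < b)
    (hden : b.den = 1) : ∀ i, |s i * s (i + 1)| = 1 := by
  have hsq : (∀ i, (s i) ^ 2 = 1) → ∀ i, |s i * s (i + 1)| = 1 := by
    intro h1 i
    have a1 := h1 i
    have a2 := h1 (i + 1)
    have h3 : |s i * s (i + 1)| ^ 2 = 1 := by rw [sq_abs, mul_pow, a1, a2]; norm_num
    have h4 : (0:ℚ) ≤ |s i * s (i + 1)| := abs_nonneg _
    nlinarith
  by_cases hv2 : padicValRat 2 b = 0
  · exact hsq (case_two C hv2)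
  by_cases hv3 : padicValRat 3 b = 0
  · exact hsq (case_three C hv3)
  by_contra hnt
  obtain ⟨E, W, hd⟩ := exists_data C hnt
  have hN0 : b.num.natAbs ≠ 0 := by simpa using C.hb
  set N := b.num.natAbs with hNdef
  have h2 : 2 ∣ N := by
    by_contra hc
    apply hv2
    rw [padicValRat, padicValInt, padicValNat.eq_zero_of_not_dvd hc, hden]
    simp
  have h3 : 3 ∣ N := by
    by_contra hc
    apply hv3
    rw [padicValRat, padicValInt, padicValNat.eq_zero_of_not_dvd hc, hden]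
    simp
  have h6 : 6 ∣ N := Nat.Coprime.mul_dvd_of_dvd_of_dvd (by norm_num) h2 h3
  have h6' : 6 ≤ N := Nat.le_of_dvd (Nat.pos_of_ne_zero hN0) h6
  have hbN : b = N := by
    have := bD_eq hb
    rw [hden, Nat.cast_one, mul_one] at this
    exact this
  have hb6 : 6 ≤ b := by rw [hbN]; exact_mod_cast h6'
  have hW2 : ∀ i, 2 ≤ W i := by
    intro i
    have h1 := hd.W1 i
    have h2 := W_ne_one hd (by linarith) i
    omega
  apply crit_large hd hb6 (m := 2) (q := 2) hW2 (by norm_num) ⟨0, hW2 0⟩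
  rw [hden]
  have h5 : b ≤ 6 / 5 * (b - 1) := by linarith
  have h6 : b ^ 4 ≤ (6 / 5 * (b - 1)) ^ 4 := pow_le_pow_left₀ (by linarith) h5 4
  have h7 : 0 ≤ (b - 1) ^ 4 := by positivity
  push_cast
  nlinarith

theorem not_bad_int {b : ℚ} (hden : b.den = 1) : ¬ Bad b := by
  rintro ⟨u, s, n, C, h⟩
  apply h
  rcases lt_or_gt_of_ne C.hb with hb | hb
  · have := int_case C.neg (by linarith) (by rw [Rat.neg_den]; exact hden)
    intro i
    have h1 := this i
    simpa using h1
  · exact int_case C hb hden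

theorem bad_mem {b : ℚ} (h : Bad b) : b ∈ (index b.num.natAbs).image (cand b.num.natAbs) := by
  obtain ⟨u, s, n, C, hnt⟩ := h
  exact mem_cand C hnt

/-- the cycle attached to a finite periodic point, with its first entry -/
theorem orbit_of_periodic {b c : ℚ} (hb : b ≠ 0) (hc : c ≠ 0) {x0 : ℚ}
    (hP : some x0 ∈ Function.periodicPts (f b c)) : x0 ≠ 0 ∧
    ∃ (u s : ℕ → ℚ) (n : ℕ), Cyc b u s n ∧ u 0 = c / x0 ^ 2 := by
  obtain ⟨n, hn, hPn⟩ := hP
  have hPn' : (f b c)^[n] (some x0) = some x0 := hPn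
  have hne : ∀ i, ∃ y : ℚ, y ≠ 0 ∧ (f b c)^[i] (some x0) = some y := by
    intro i
    have hnn : ∀ j, (f b c)^[j] (some x0) ≠ none := by
      intro j hj
      have h1 : (f b c)^[n * j] (some x0) = some x0 := by
        have : Function.IsPeriodicPt (f b c) (n * j) (some x0) := by
          exact Function.IsPeriodicPt.mul_const hPn j
        exact this
      have h2 : j ≤ n * j := by nlinarith [Nat.mul_le_mul_right j hn]
      obtain ⟨k, hk⟩ := Nat.exists_eq_add_of_le h2
      rw [hk, Nat.add_comm, Function.iterate_add_apply, hj, iter_none] at h1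
      exact absurd h1 (by simp)
    cases hy : (f b c)^[i] (some x0) with
    | none => exact absurd hy (hnn i)
    | some y =>
      refine ⟨y, ?_, rfl⟩
      intro hy0
      apply hnn (i + 1)
      rw [Function.iterate_succ_apply', hy, hy0, f_zero]
  choose x hx0 hx using hne
  have h00 : x 0 = x0 := by
    have := hx 0
    rw [Function.iterate_zero, id] at this
    exact (Option.some.inj this).symm
  have hstep : ∀ i, x (i + 1) = b * x i + c / x i := by
    intro i
    have h1 := hx (i + 1)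
    rw [Function.iterate_succ_apply', hx i, f_some b c (hx0 i)] at h1
    exact (Option.some.inj h1).symm
  have hxper : ∀ i, x (i + n) = x i := by
    intro i
    have h1 := hx (i + n)
    rw [Function.iterate_add_apply, hPn', hx i] at h1
    exact (Option.some.inj h1).symm
  have hsx : ∀ i, x (i + 1) = (b + c / x i ^ 2) * x i := by
    intro i
    rw [hstep]
    have := hx0 i
    field_simp
  refine ⟨by rw [← h00]; exact hx0 0, fun i => c / x i ^ 2, fun i => b + c / x i ^ 2, n, ?_, ?_⟩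
  · refine ⟨hn, hb, fun i => rfl, ?_, ?_, ?_, ?_⟩
    · intro i
      show c / x (i + 1) ^ 2 = c / x i ^ 2 / (b + c / x i ^ 2) ^ 2
      rw [hsx i, mul_pow, div_div, mul_comm]
    · intro i
      show c / x (i + n) ^ 2 = c / x i ^ 2
      rw [hxper]
    · intro i
      exact div_ne_zero hc (pow_ne_zero 2 (hx0 i))
    · intro i h1
      apply hx0 (i + 1)
      rw [hsx i]
      show (b + c / x i ^ 2) * x i = 0
      have h2 : b + c / x i ^ 2 = 0 := h1
      rw [h2, zero_mul]
  · show c / x 0 ^ 2 = c / x0 ^ 2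
    rw [h00]

/-- `b` satisfies one of finitely many square conditions -/
def Thin (b : ℚ) : Prop :=
  (∃ q : ℚ, q ^ 2 = 1 + 4 * b ^ 2) ∨ (∃ q : ℚ, q ^ 2 = 1 + b ^ 2) ∨
  (∃ q : ℚ, q ≠ 0 ∧ q ^ 2 = b ^ 2 - 1) ∨ (∃ q : ℚ, q ≠ 0 ∧ q ^ 2 = b ^ 2 - b) ∨
  (∃ q : ℚ, q ≠ 0 ∧ q ^ 2 = b ^ 2 + b) ∨
  (b ≠ 1 ∧ ∃ q : ℚ, q ^ 2 = (1 - b) * (1 - b - 4 * b ^ 3)) ∨
  (b ≠ -1 ∧ ∃ q : ℚ, q ^ 2 = (1 + b) * (1 + b + 4 * b ^ 3))

/-- the points that are always preperiodic -/
def InT (b c : ℚ) (P : Option ℚ) : Prop :=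
  P = none ∨ P = some 0 ∨ ∃ x : ℚ, x ≠ 0 ∧ P = some x ∧
    (c / x ^ 2 = -b ∨ c / x ^ 2 = 1 - b ∨ c / x ^ 2 = -1 - b ∨
      (b ≠ 1 ∧ c / x ^ 2 = b ^ 2 / (1 - b)) ∨ (b ≠ -1 ∧ c / x ^ 2 = -(b ^ 2 / (1 + b))))

theorem inT_of_periodic {b c : ℚ} (hb : b ≠ 0) (hc : c ≠ 0) (hB : ¬ Bad b) (hT : ¬ Thin b)
    {P : Option ℚ} (hP : P ∈ Function.periodicPts (f b c)) : InT b c P := by
  rcases P with _ | x
  · left; rfl
  right; right
  obtain ⟨hx0, u, s, n, C, hu0⟩ := orbit_of_periodic hb hc hP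
  refine ⟨x, hx0, rfl, ?_⟩
  have hall : ∀ i, |s i * s (i + 1)| = 1 := by
    by_contra hcon
    exact hB ⟨u, s, n, C, hcon⟩
  have hs0 : (s 0) ^ 2 = 1 := by
    rcases of_t C hall with h1 | h1
    · exact h1 0
    · exfalso
      have h2 := C.t_eq 0
      rw [h1 0] at h2
      apply hT
      right; left
      exact ⟨b * s 0 + 1, by linear_combination b * h2⟩
  have h1 := C.hs 0
  rw [hu0] at h1
  have h3 : (s 0 - 1) * (s 0 + 1) = 0 := by linear_combination hs0
  rcases mul_eq_zero.mp h3 with h4 | h4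
  · right; left
    linarith
  · right; right; left
    linarith

theorem inT_back {b c : ℚ} (hb : b ≠ 0) (hc : c ≠ 0) (hT : ¬ Thin b)
    {P : Option ℚ} (hP : InT b c (f b c P)) : InT b c P := by
  rcases P with _ | x
  · left; rfl
  by_cases hx0 : x = 0
  · right; left; rw [hx0]
  right; right
  refine ⟨x, hx0, rfl, ?_⟩
  set u := c / x ^ 2 with hu
  have hune : u ≠ 0 := div_ne_zero hc (pow_ne_zero 2 hx0)
  rw [f_some b c hx0] at hP
  have hfx : b * x + c / x = (b + u) * x := by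
    rw [hu]; field_simp
  rw [hfx] at hP
  by_cases hs : b + u = 0
  · left; linarith
  have hval : c / ((b + u) * x) ^ 2 = u / (b + u) ^ 2 := by
    rw [hu, mul_pow, div_div, mul_comm]
  rcases hP with h | h | ⟨y, hy0, hy, h⟩
  · exact absurd h (by simp)
  · have := Option.some.inj h
    exact absurd this (mul_ne_zero hs hx0)
  have hy' := Option.some.inj hy
  rw [← hy', hval] at h
  have hs2 : (b + u) ^ 2 ≠ 0 := pow_ne_zero 2 hs
  set t := b + u with ht
  have hut : u = t - b := by rw [ht]; ring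
  rcases h with h | h | h | ⟨h0, h⟩ | ⟨h0, h⟩
  · exfalso
    rw [div_eq_iff hs2, hut] at h
    apply hT
    left
    exact ⟨2 * b * t + 1, by linear_combination (4 * b) * h⟩
  · rw [div_eq_iff hs2, hut] at h
    have h3 : (t - 1) * ((1 - b) * t - b) = 0 := by linear_combination - h
    rcases mul_eq_zero.mp h3 with h4 | h4
    · right; left
      linarith
    · right; right; right; left
      have hb1 : b ≠ 1 := by
        rintro rfl
        apply hb
        linarith
      have hb1' : 1 - b ≠ 0 := sub_ne_zero.mpr (Ne.symm hb1)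
      refine ⟨hb1, ?_⟩
      rw [eq_div_iff hb1', hut]
      linear_combination h4
  · rw [div_eq_iff hs2, hut] at h
    have h3 : (t + 1) * ((1 + b) * t - b) = 0 := by linear_combination h
    rcases mul_eq_zero.mp h3 with h4 | h4
    · right; right; left
      linarith
    · right; right; right; right
      have hb1 : b ≠ -1 := by
        rintro rfl
        apply hb
        linarith
      have hb1' : 1 + b ≠ 0 := by
        intro h5
        apply hb1
        linarith
      refine ⟨hb1, ?_⟩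
      rw [hut, ← neg_div, eq_div_iff hb1']
      linear_combination h4
  · exfalso
    have hb1' : 1 - b ≠ 0 := sub_ne_zero.mpr (Ne.symm h0)
    rw [div_eq_div_iff hs2 hb1', hut] at h
    apply hT
    right; right; right; right; right; left
    refine ⟨h0, 2 * b ^ 2 * t - (1 - b), ?_⟩
    linear_combination (-4 * b ^ 2) * h
  · exfalso
    have hb1' : 1 + b ≠ 0 := by
      intro h5
      apply h0
      linarith
    rw [← neg_div, div_eq_div_iff hs2 hb1', hut] at h
    apply hT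
    right; right; right; right; right; right
    refine ⟨h0, 2 * b ^ 2 * t + (1 + b), ?_⟩
    linear_combination (4 * b ^ 2) * h

theorem inT_of_prePer {b c : ℚ} (hb : b ≠ 0) (hc : c ≠ 0) (hB : ¬ Bad b) (hT : ¬ Thin b)
    {P : Option ℚ} (hP : P ∈ PrePer b c) : InT b c P := by
  have hfin : (Set.range (fun n : ℕ => (f b c)^[n] P)).Finite := hP
  have hni : ¬ Function.Injective (fun n : ℕ => (f b c)^[n] P) := by
    intro hinj
    exact Set.infinite_range_of_injective hinj hfin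
  simp only [Function.Injective] at hni
  push Not at hni
  obtain ⟨i, j, hij, hne⟩ := hni
  have key : ∀ i j : ℕ, i < j → (f b c)^[i] P = (f b c)^[j] P → InT b c P := by
    intro i j hlt heq
    have hper : (f b c)^[i] P ∈ Function.periodicPts (f b c) := by
      refine ⟨j - i, by omega, ?_⟩
      show (f b c)^[j - i] ((f b c)^[i] P) = (f b c)^[i] P
      rw [← Function.iterate_add_apply, Nat.sub_add_cancel hlt.le, heq]
    have h1 := inT_of_periodic hb hc hB hT hper
    have h2 : ∀ k, InT b c ((f b c)^[k] P) → InT b c P := by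
      intro k
      induction k with
      | zero => intro h; exact h
      | succ k ih =>
        intro h
        rw [Function.iterate_succ_apply'] at h
        exact ih (inT_back hb hc hT h)
    exact h2 i h1
  rcases lt_or_gt_of_ne hne with h | h
  · exact key i j h hij
  · exact key j i h hij.symm

end

section

theorem sq_cases {x r w : ℚ} (h1 : x ^ 2 = w) (h2 : r ^ 2 = w) : x = r ∨ x = -r := by
  have : (x - r) * (x + r) = 0 := by linear_combination h1 - h2
  rcases mul_eq_zero.mp this with h | h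
  · left; linarith
  · right; linarith

/-- at most six points -/
theorem inT_six {b c : ℚ} (hb : b ≠ 0) (hc : c ≠ 0) (hT : ¬ Thin b) :
    ∃ r t : ℚ, ∀ P, InT b c P → P ∈ ({none, some 0, some r, some (-r), some (t * r),
      some (-(t * r))} : Finset (Option ℚ)) := by
  -- two families cannot occur together
  have hprod : ∀ {x y α β : ℚ}, x ≠ 0 → y ≠ 0 → c / x ^ 2 = α → c / y ^ 2 = β →
      (c / (x * y)) ^ 2 = α * β ∧ c / (x * y) ≠ 0 := by
    intro x y α β hx hy h1 h2
    refine ⟨?_, div_ne_zero hc (mul_ne_zero hx hy)⟩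
    rw [← h1, ← h2]
    field_simp
  -- normal form of the second and third family
  have hF1 : ∀ {x : ℚ}, x ≠ 0 → (c / x ^ 2 = 1 - b ∨ (b ≠ 1 ∧ c / x ^ 2 = b ^ 2 / (1 - b))) →
      b ≠ 1 ∧ ∃ r : ℚ, r ≠ 0 ∧ c / r ^ 2 = 1 - b ∧
        (x = r ∨ x = (1 - b) / b * r) := by
    intro x hx h
    rcases h with h | ⟨h0, h⟩
    · have h0 : b ≠ 1 := by
        rintro rfl
        rw [sub_self] at h
        exact div_ne_zero hc (pow_ne_zero 2 hx) h
      exact ⟨h0, x, hx, h, Or.inl rfl⟩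
    · have hb1' : 1 - b ≠ 0 := sub_ne_zero.mpr (Ne.symm h0)
      refine ⟨h0, b / (1 - b) * x, mul_ne_zero (div_ne_zero hb hb1') hx, ?_, Or.inr ?_⟩
      · have e : c / (b / (1 - b) * x) ^ 2 = (c / x ^ 2) * ((1 - b) ^ 2 / b ^ 2) := by
          field_simp
        rw [e, h]
        field_simp
      · field_simp
  have hF2 : ∀ {x : ℚ}, x ≠ 0 → (c / x ^ 2 = -1 - b ∨ (b ≠ -1 ∧ c / x ^ 2 = -(b ^ 2 / (1 + b)))) →
      b ≠ -1 ∧ ∃ r : ℚ, r ≠ 0 ∧ c / r ^ 2 = -1 - b ∧
        (x = r ∨ x = (1 + b) / b * r) := by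
    intro x hx h
    rcases h with h | ⟨h0, h⟩
    · have h0 : b ≠ -1 := by
        rintro rfl
        apply div_ne_zero hc (pow_ne_zero 2 hx)
        rw [h]; norm_num
      exact ⟨h0, x, hx, h, Or.inl rfl⟩
    · have hb1' : 1 + b ≠ 0 := by
        intro h5
        apply h0
        linarith
      refine ⟨h0, b / (1 + b) * x, mul_ne_zero (div_ne_zero hb hb1') hx, ?_, Or.inr ?_⟩
      · have e : c / (b / (1 + b) * x) ^ 2 = (c / x ^ 2) * ((1 + b) ^ 2 / b ^ 2) := by
          field_simp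
        rw [e, h]
        field_simp
        ring
      · field_simp
  -- conflicts
  have c01 : ∀ {x y : ℚ}, x ≠ 0 → y ≠ 0 → c / x ^ 2 = -b → c / y ^ 2 = 1 - b → False := by
    intro x y hx hy h1 h2
    obtain ⟨h3, h4⟩ := hprod hx hy h1 h2
    apply hT
    right; right; right; left
    exact ⟨_, h4, by rw [h3]; ring⟩
  have c02 : ∀ {x y : ℚ}, x ≠ 0 → y ≠ 0 → c / x ^ 2 = -b → c / y ^ 2 = -1 - b → False := by
    intro x y hx hy h1 h2
    obtain ⟨h3, h4⟩ := hprod hx hy h1 h2
    apply hT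
    right; right; right; right; left
    exact ⟨_, h4, by rw [h3]; ring⟩
  have c12 : ∀ {x y : ℚ}, x ≠ 0 → y ≠ 0 → c / x ^ 2 = 1 - b → c / y ^ 2 = -1 - b → False := by
    intro x y hx hy h1 h2
    obtain ⟨h3, h4⟩ := hprod hx hy h1 h2
    apply hT
    right; right; left
    exact ⟨_, h4, by rw [h3]; ring⟩
  have hsq : ∀ {x y v : ℚ}, x ≠ 0 → y ≠ 0 → c / x ^ 2 = v → c / y ^ 2 = v → x = y ∨ x = -y := by
    intro x y v hx hy h1 h2
    have h3 : x ^ 2 = y ^ 2 := by
      have h4 : c / x ^ 2 = c / y ^ 2 := by rw [h1, h2]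
      rw [div_eq_div_iff (pow_ne_zero 2 hx) (pow_ne_zero 2 hy)] at h4
      exact (mul_left_cancel₀ hc h4).symm
    exact sq_cases h3 rfl
  by_cases hA : ∃ r : ℚ, r ≠ 0 ∧ c / r ^ 2 = -b
  · obtain ⟨r, hr0, hr⟩ := hA
    refine ⟨r, 1, ?_⟩
    rintro P (h | h | ⟨x, hx0, h, hx⟩)
    · subst h; simp
    · subst h; simp
    · subst h
      have hxr : x = r ∨ x = -r := by
        rcases hx with hx | hx | hx | hx | hx
        · exact hsq hx0 hr0 hx hr
        · exact absurd (c01 hr0 hx0 hr hx) id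
        · exact absurd (c02 hr0 hx0 hr hx) id
        · obtain ⟨_, y, hy0, hy, _⟩ := hF1 hx0 (Or.inr hx)
          exact absurd (c01 hr0 hy0 hr hy) id
        · obtain ⟨_, y, hy0, hy, _⟩ := hF2 hx0 (Or.inr hx)
          exact absurd (c02 hr0 hy0 hr hy) id
      rcases hxr with rfl | rfl <;> simp
  by_cases hB : ∃ r : ℚ, r ≠ 0 ∧ c / r ^ 2 = 1 - b
  · obtain ⟨r, hr0, hr⟩ := hB
    refine ⟨r, (1 - b) / b, ?_⟩
    rintro P (h | h | ⟨x, hx0, h, hx⟩)
    · subst h; simp
    · subst h; simp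
    · subst h
      have hxr : (x = r ∨ x = -r) ∨ (x = (1 - b) / b * r ∨ x = -((1 - b) / b * r)) := by
        rcases hx with hx | hx | hx | hx | hx
        · exact absurd ⟨x, hx0, hx⟩ hA
        · left; exact hsq hx0 hr0 hx hr
        · exact absurd (c12 hr0 hx0 hr hx) id
        · obtain ⟨_, y, hy0, hy, hxy⟩ := hF1 hx0 (Or.inr hx)
          have hyr := hsq hy0 hr0 hy hr
          rcases hxy with h1 | h1
          · left; rw [h1]; exact hyr
          · right
            rcases hyr with h2 | h2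
            · left; rw [h1, h2]
            · right; rw [h1, h2]; ring
        · obtain ⟨_, y, hy0, hy, _⟩ := hF2 hx0 (Or.inr hx)
          exact absurd (c12 hr0 hy0 hr hy) id
      rcases hxr with (rfl | rfl) | (rfl | rfl) <;> simp
  by_cases hC : ∃ r : ℚ, r ≠ 0 ∧ c / r ^ 2 = -1 - b
  · obtain ⟨r, hr0, hr⟩ := hC
    refine ⟨r, (1 + b) / b, ?_⟩
    rintro P (h | h | ⟨x, hx0, h, hx⟩)
    · subst h; simp
    · subst h; simp
    · subst h
      have hxr : (x = r ∨ x = -r) ∨ (x = (1 + b) / b * r ∨ x = -((1 + b) / b * r)) := by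
        rcases hx with hx | hx | hx | hx | hx
        · exact absurd ⟨x, hx0, hx⟩ hA
        · exact absurd ⟨x, hx0, hx⟩ hB
        · left; exact hsq hx0 hr0 hx hr
        · obtain ⟨_, y, hy0, hy, _⟩ := hF1 hx0 (Or.inr hx)
          exact absurd ⟨y, hy0, hy⟩ hB
        · obtain ⟨_, y, hy0, hy, hxy⟩ := hF2 hx0 (Or.inr hx)
          have hyr := hsq hy0 hr0 hy hr
          rcases hxy with h1 | h1
          · left; rw [h1]; exact hyr
          · right
            rcases hyr with h2 | h2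
            · left; rw [h1, h2]
            · right; rw [h1, h2]; ring
      rcases hxr with (rfl | rfl) | (rfl | rfl) <;> simp
  refine ⟨0, 0, ?_⟩
  rintro P (h | h | ⟨x, hx0, h, hx⟩)
  · subst h; simp
  · subst h; simp
  · exfalso
    rcases hx with hx | hx | hx | hx | hx
    · exact hA ⟨x, hx0, hx⟩
    · exact hB ⟨x, hx0, hx⟩
    · exact hC ⟨x, hx0, hx⟩
    · obtain ⟨_, y, hy0, hy, _⟩ := hF1 hx0 (Or.inr hx)
      exact hB ⟨y, hy0, hy⟩
    · obtain ⟨_, y, hy0, hy, _⟩ := hF2 hx0 (Or.inr hx)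
      exact hC ⟨y, hy0, hy⟩

theorem pre_le_six {b c : ℚ} (hb : b ≠ 0) (hc : c ≠ 0) (hB : ¬ Bad b) (hT : ¬ Thin b) :
    (PrePer b c).Finite ∧ (PrePer b c).ncard ≤ 6 := by
  obtain ⟨r, t, h⟩ := inT_six hb hc hT
  have hsub : PrePer b c ⊆ (({none, some 0, some r, some (-r), some (t * r),
      some (-(t * r))} : Finset (Option ℚ)) : Set (Option ℚ)) := by
    intro P hP
    exact h P (inT_of_prePer hb hc hB hT hP)
  refine ⟨(Finset.finite_toSet _).subset hsub, ?_⟩
  calc (PrePer b c).ncard ≤ _ := Set.ncard_le_ncard hsub (Finset.finite_toSet _)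
    _ = _ := Set.ncard_coe_finset _
    _ ≤ 6 := Finset.card_le_six

end

section

theorem no_sq {m k : ℤ} (hk : 0 ≤ k) (h1 : k ^ 2 < m ^ 2) (h2 : m ^ 2 < (k + 1) ^ 2) : False := by
  have a := sq_lt_sq.mp h1
  have c := sq_lt_sq.mp h2
  rw [abs_of_nonneg hk] at a
  rw [abs_of_nonneg (by omega : 0 ≤ k + 1)] at c
  omega

theorem int_of_sq {q : ℚ} {z : ℤ} (h : q ^ 2 = (z : ℚ)) : ∃ m : ℤ, m ^ 2 = z ∧ (q ≠ 0 → m ≠ 0) := by
  have h1 : IsSquare (z : ℚ) := ⟨q, by rw [← h, sq]⟩
  obtain ⟨m, hm⟩ := Rat.isSquare_intCast_iff.mp h1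
  refine ⟨m, by rw [hm, sq], ?_⟩
  rintro hq rfl
  apply hq
  rw [mul_zero] at hm
  rw [hm] at h
  simpa using h

theorem quartic {z m : ℤ} (hz : z ≠ 0) (hz1 : z ≠ 1)
    (h : m ^ 2 = (1 - z) * (1 - z - 4 * z ^ 3)) : False := by
  have e : m ^ 2 = (2 * z ^ 2 - z) ^ 2 - 2 * z + 1 := by rw [h]; ring
  rcases lt_or_ge z 0 with h0 | h0
  · apply no_sq (m := m) (k := 2 * z ^ 2 - z)
    · nlinarith
    · rw [e]; nlinarith
    · rw [e]; nlinarith
  · have h2 : 2 ≤ z := by omega
    apply no_sq (m := m) (k := 2 * z ^ 2 - z - 1)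
    · nlinarith
    · rw [e]; nlinarith
    · rw [e]; nlinarith

theorem not_thin_int {z : ℤ} (hz : z ≠ 0) : ¬ Thin (z : ℚ) := by
  have hw : 1 ≤ |z| := Int.one_le_abs hz
  have hwz : |z| ^ 2 = z ^ 2 := sq_abs z
  rintro (⟨q, hq⟩ | ⟨q, hq⟩ | ⟨q, hq0, hq⟩ | ⟨q, hq0, hq⟩ | ⟨q, hq0, hq⟩ | ⟨h0, q, hq⟩ | ⟨h0, q, hq⟩)
  · obtain ⟨m, hm, _⟩ := int_of_sq (z := 1 + 4 * z ^ 2) (by push_cast; exact hq)
    apply no_sq (m := m) (k := 2 * |z|) (by omega)
    · rw [hm, ← hwz]; nlinarith
    · rw [hm, ← hwz]; nlinarith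
  · obtain ⟨m, hm, _⟩ := int_of_sq (z := 1 + z ^ 2) (by push_cast; exact hq)
    apply no_sq (m := m) (k := |z|) (by omega)
    · rw [hm, ← hwz]; nlinarith
    · rw [hm, ← hwz]; nlinarith
  · obtain ⟨m, hm, hm0⟩ := int_of_sq (z := z ^ 2 - 1) (by push_cast; exact hq)
    have hm1 := hm0 hq0
    have hmpos : 0 < m ^ 2 := by positivity
    have hw2 : 2 ≤ |z| := by
      by_contra hc
      have : |z| = 1 := by omega
      rw [← hwz, this] at hm
      rw [hm] at hmpos
      norm_num at hmpos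
    apply no_sq (m := m) (k := |z| - 1) (by omega)
    · rw [hm, ← hwz]; nlinarith
    · rw [hm, ← hwz]; nlinarith
  · obtain ⟨m, hm, hm0⟩ := int_of_sq (z := z ^ 2 - z) (by push_cast; exact hq)
    have hm1 := Int.one_le_abs (hm0 hq0)
    have hmm : |m| ^ 2 = m ^ 2 := sq_abs m
    apply no_sq (m := 2 * z - 1) (k := 2 * |m|) (by omega)
    · nlinarith
    · nlinarith
  · obtain ⟨m, hm, hm0⟩ := int_of_sq (z := z ^ 2 + z) (by push_cast; exact hq)
    have hm1 := Int.one_le_abs (hm0 hq0)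
    have hmm : |m| ^ 2 = m ^ 2 := sq_abs m
    apply no_sq (m := 2 * z + 1) (k := 2 * |m|) (by omega)
    · nlinarith
    · nlinarith
  · obtain ⟨m, hm, _⟩ := int_of_sq (z := (1 - z) * (1 - z - 4 * z ^ 3)) (by push_cast; exact hq)
    have hz1 : z ≠ 1 := by
      rintro rfl
      exact h0 (by norm_num)
    exact quartic hz hz1 hm
  · obtain ⟨m, hm, _⟩ := int_of_sq (z := (1 + z) * (1 + z + 4 * z ^ 3)) (by push_cast; exact hq)
    have hz1 : -z ≠ 1 := by
      intro h1
      apply h0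
      have : z = -1 := by omega
      rw [this]; norm_num
    exact quartic (neg_ne_zero.mpr hz) hz1 (by rw [hm]; ring)

theorem prePer_of_invariant {b c : ℚ} (S : Finset (Option ℚ)) (hS : ∀ Q ∈ S, f b c Q ∈ S) :
    (S : Set (Option ℚ)) ⊆ PrePer b c := by
  intro P hP
  show (Set.range (fun n : ℕ => (f b c)^[n] P)).Finite
  apply (Finset.finite_toSet S).subset
  rintro _ ⟨n, rfl⟩
  show (f b c)^[n] P ∈ (S : Set (Option ℚ))
  induction n with
  | zero => exact hP
  | succ n ih =>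
    rw [Function.iterate_succ_apply']
    exact hS _ ih

theorem six_card {t : ℚ} (h0 : t ≠ 0) (h1 : t ≠ 1) (h2 : t ≠ -1) :
    ({none, some 0, some 1, some (-1), some t, some (-t)} : Finset (Option ℚ)).card = 6 := by
  have e1 : (0:ℚ) ≠ 1 := by norm_num
  have e2 : (0:ℚ) ≠ -1 := by norm_num
  have e3 : (0:ℚ) ≠ -t := fun h => h0 (by linarith)
  have e4 : (1:ℚ) ≠ -1 := by norm_num
  have e5 : (1:ℚ) ≠ -t := fun h => h2 (by linarith)
  have e6 : (-1:ℚ) ≠ -t := fun h => h1 (by linarith)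
  have e7 : t ≠ -t := fun h => h0 (by linarith)
  rw [Finset.card_insert_of_notMem, Finset.card_insert_of_notMem, Finset.card_insert_of_notMem,
    Finset.card_insert_of_notMem, Finset.card_insert_of_notMem, Finset.card_singleton]
  · simp only [Finset.mem_singleton, Option.some.injEq]
    exact e7
  · simp only [Finset.mem_insert, Finset.mem_singleton, Option.some.injEq]
    rintro (h | h)
    · exact h2 h.symm
    · exact e6 h
  · simp only [Finset.mem_insert, Finset.mem_singleton, Option.some.injEq]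
    rintro (h | h | h)
    · exact e4 h
    · exact h1 h.symm
    · exact e5 h
  · simp only [Finset.mem_insert, Finset.mem_singleton, Option.some.injEq]
    rintro (h | h | h | h)
    · exact e1 h
    · exact e2 h
    · exact h0 h.symm
    · exact e3 h
  · simp

/-- every `f_{b,c}` has at most six preperiodic points and some has exactly six -/
def Six (b : ℚ) : Prop :=
  (∀ c : ℚ, c ≠ 0 → (PrePer b c).Finite ∧ (PrePer b c).ncard ≤ 6) ∧
  ∃ c : ℚ, c ≠ 0 ∧ (PrePer b c).ncard = 6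

theorem six_of {b : ℚ} (hb : b ≠ 0) (hB : ¬ Bad b) (hT : ¬ Thin b) : Six b := by
  refine ⟨fun c hc => pre_le_six hb hc hB hT, ?_⟩
  have hfin : ∀ {c : ℚ}, c ≠ 0 → ∀ S : Finset (Option ℚ), S.card = 6 →
      (∀ Q ∈ S, f b c Q ∈ S) → (PrePer b c).ncard = 6 := by
    intro c hc S hS hinv
    obtain ⟨h1, h2⟩ := pre_le_six hb hc hB hT
    have h3 := Set.ncard_le_ncard (prePer_of_invariant S hinv) h1
    rw [Set.ncard_coe_finset, hS] at h3
    omega
  by_cases h1 : b = 1
  · refine ⟨-2, by norm_num, ?_⟩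
    apply hfin (by norm_num) _ (six_card (t := 2) (by norm_num) (by norm_num) (by norm_num))
    intro Q hQ
    rw [h1]
    simp only [Finset.mem_insert, Finset.mem_singleton] at hQ
    rcases hQ with rfl | rfl | rfl | rfl | rfl | rfl
    · rw [f_none]; simp
    · rw [f_zero]; simp
    · rw [f_some _ _ (by norm_num)]; norm_num
    · rw [f_some _ _ (by norm_num)]; norm_num
    · rw [f_some _ _ (by norm_num)]; norm_num
    · rw [f_some _ _ (by norm_num)]; norm_num
  · have hb1 : 1 - b ≠ 0 := sub_ne_zero.mpr (Ne.symm h1)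
    refine ⟨1 - b, hb1, ?_⟩
    have ht0 : (1 - b) / b ≠ 0 := div_ne_zero hb1 hb
    apply hfin hb1 _ (six_card (t := (1 - b) / b) ht0 ?_ ?_)
    · intro Q hQ
      simp only [Finset.mem_insert, Finset.mem_singleton] at hQ
      rcases hQ with rfl | rfl | rfl | rfl | rfl | rfl
      · rw [f_none]; simp
      · rw [f_zero]; simp
      · rw [f_some _ _ (by norm_num)]
        have : b * 1 + (1 - b) / 1 = 1 := by ring
        rw [this]; simp
      · rw [f_some _ _ (by norm_num)]
        have : b * (-1) + (1 - b) / (-1) = -1 := by ring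
        rw [this]; simp
      · rw [f_some _ _ ht0]
        have : b * ((1 - b) / b) + (1 - b) / ((1 - b) / b) = 1 := by
          field_simp
          ring
        rw [this]; simp
      · rw [f_some _ _ (neg_ne_zero.mpr ht0)]
        have : b * (-((1 - b) / b)) + (1 - b) / (-((1 - b) / b)) = -1 := by
          field_simp
          ring
        rw [this]; simp
    · intro h
      rw [div_eq_one_iff_eq hb] at h
      apply hT
      right; right; right; right; right; left
      refine ⟨h1, 0, ?_⟩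
      have hb2 : b = 1 / 2 := by linarith
      rw [hb2]; norm_num
    · intro h
      rw [div_eq_iff hb] at h
      linarith

theorem six_int {z : ℤ} (hz : z ≠ 0) : Six (z : ℚ) :=
  six_of (by exact_mod_cast hz) (not_bad_int (Rat.den_intCast z)) (not_thin_int hz)

end

section

/-- candidates coming from the conics -/
def G1 (D : ℕ) : Finset ℚ :=
  ((D ^ 2).divisors ×ˢ ({1, -1} : Finset ℚ) ×ˢ ({1, -1} : Finset ℚ) ×ˢ ({2, 4} : Finset ℚ) ×ˢ
    ({-1, 0, 1} : Finset ℚ)).image (fun p => ((D : ℚ) ^ 2 / (p.2.1 * (p.1 : ℚ)) +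
      p.2.2.1 * (p.2.1 * (p.1 : ℚ)) + p.2.2.2.2 * (2 * (D : ℚ))) / (p.2.2.2.1 * (D : ℚ)))

/-- candidates coming from the quartics -/
def G2 (D H : ℕ) : Finset ℚ :=
  ((Finset.range (Nat.sqrt (2 * H) + 1)) ×ˢ ({1, -1} : Finset ℚ) ×ˢ ({1, 2} : Finset ℚ) ×ˢ
    ({1, -1} : Finset ℚ)).image (fun p => p.2.2.2 *
      ((D : ℚ) - p.2.1 * (p.2.2.1 * (p.1 : ℚ) ^ 2)) / (D : ℚ))

theorem G1_card (D : ℕ) : (G1 D).card ≤ 24 * (D ^ 2).divisors.card := by
  refine le_trans Finset.card_image_le ?_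
  simp only [Finset.card_product]
  have a1 : ({1, -1} : Finset ℚ).card ≤ 2 := Finset.card_le_two
  have a2 : ({2, 4} : Finset ℚ).card ≤ 2 := Finset.card_le_two
  have a3 : ({-1, 0, 1} : Finset ℚ).card ≤ 3 := Finset.card_le_three
  calc (D ^ 2).divisors.card * (({1, -1} : Finset ℚ).card * (({1, -1} : Finset ℚ).card *
        (({2, 4} : Finset ℚ).card * ({-1, 0, 1} : Finset ℚ).card)))
      ≤ (D ^ 2).divisors.card * (2 * (2 * (2 * 3))) :=
        Nat.mul_le_mul_left _ (Nat.mul_le_mul a1 (Nat.mul_le_mul a1 (Nat.mul_le_mul a2 a3)))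
    _ = _ := by ring

theorem G2_card (D H : ℕ) : (G2 D H).card ≤ 8 * (Nat.sqrt (2 * H) + 1) := by
  refine le_trans Finset.card_image_le ?_
  simp only [Finset.card_product, Finset.card_range]
  have a1 : ({1, -1} : Finset ℚ).card ≤ 2 := Finset.card_le_two
  have a2 : ({1, 2} : Finset ℚ).card ≤ 2 := Finset.card_le_two
  calc (Nat.sqrt (2 * H) + 1) * (({1, -1} : Finset ℚ).card * (({1, 2} : Finset ℚ).card *
        ({1, -1} : Finset ℚ).card))
      ≤ (Nat.sqrt (2 * H) + 1) * (2 * (2 * 2)) :=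
        Nat.mul_le_mul_left _ (Nat.mul_le_mul a1 (Nat.mul_le_mul a2 a1))
    _ = _ := by ring

theorem conic_mem {b : ℚ} {d e : ℤ} {w s t : ℚ} (hde : d * e = (b.den : ℤ) ^ 2)
    (hw : w ∈ ({2, 4} : Finset ℚ)) (hs : s ∈ ({1, -1} : Finset ℚ))
    (ht : t ∈ ({-1, 0, 1} : Finset ℚ)) (hN : w * (b.num : ℚ) = e + s * d + t * (2 * (b.den : ℚ))) :
    b ∈ G1 b.den := by
  have hD0 : (b.den : ℤ) ≠ 0 := by exact_mod_cast b.den_ne_zero
  have hDq : (b.den : ℚ) ≠ 0 := by exact_mod_cast b.den_ne_zero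
  have hd0 : d ≠ 0 := by
    rintro rfl
    rw [zero_mul] at hde
    exact pow_ne_zero 2 hD0 hde.symm
  have hdq : (d : ℚ) ≠ 0 := by exact_mod_cast hd0
  have hw0 : w ≠ 0 := by
    simp only [Finset.mem_insert, Finset.mem_singleton] at hw
    rcases hw with rfl | rfl <;> norm_num
  obtain ⟨σ, hσ, hσd⟩ : ∃ σ : ℚ, σ ∈ ({1, -1} : Finset ℚ) ∧ σ * ((d.natAbs : ℕ) : ℚ) = d := by
    rcases lt_or_gt_of_ne hd0 with h | h
    · refine ⟨-1, by simp, ?_⟩
      have h2 : ((d.natAbs : ℕ) : ℚ) = -d := by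
        rw [Nat.cast_natAbs, abs_of_neg h]; push_cast; rfl
      rw [h2]; ring
    · refine ⟨1, by simp, ?_⟩
      have h2 : ((d.natAbs : ℕ) : ℚ) = d := by
        rw [Nat.cast_natAbs, abs_of_pos h]
      rw [h2]; ring
  rw [G1, Finset.mem_image]
  refine ⟨(d.natAbs, σ, s, w, t), ?_, ?_⟩
  · simp only [Finset.mem_product]
    refine ⟨?_, hσ, hs, hw, ht⟩
    rw [Nat.mem_divisors]
    refine ⟨?_, pow_ne_zero 2 b.den_ne_zero⟩
    have h1 : d ∣ ((b.den ^ 2 : ℕ) : ℤ) := ⟨e, by push_cast; exact hde.symm⟩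
    exact Int.natAbs_dvd_natAbs.mpr h1
  · simp only
    rw [hσd]
    have he : (b.den : ℚ) ^ 2 / d = e := by
      rw [div_eq_iff hdq]
      have : (d : ℚ) * e = (b.den : ℚ) ^ 2 := by exact_mod_cast hde
      rw [← this]; ring
    rw [he, ← hN, mul_div_mul_left _ _ hw0]
    exact Rat.num_div_den b

/-- square classes of the first factor of the quartic -/
theorem quartic_class {N D m : ℤ} (hco : IsCoprime N D) (hne : D - N ≠ 0)
    (h : m ^ 2 = (D - N) * (D ^ 3 - N * D ^ 2 - 4 * N ^ 3)) :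
    ∃ (k a : ℕ), (a = 1 ∨ a = 2) ∧ (D - N).natAbs = a * k ^ 2 := by
  obtain ⟨a, k, hak, hsf⟩ := Nat.sq_mul_squarefree (D - N).natAbs
  have hK1 : (D - N).natAbs ≠ 0 := Int.natAbs_ne_zero.mpr hne
  have hk0 : k ≠ 0 := by
    rintro rfl
    rw [zero_pow (by norm_num), zero_mul] at hak
    exact hK1 hak.symm
  set K2 := (D ^ 3 - N * D ^ 2 - 4 * N ^ 3) with hK2
  have h1 : m.natAbs ^ 2 = k ^ 2 * (a * K2.natAbs) := by
    rw [← Int.natAbs_pow, h, Int.natAbs_mul, ← hak]; ring
  have h2 : k ∣ m.natAbs := by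
    apply (Nat.pow_dvd_pow_iff (n := 2) (by norm_num)).mp
    exact ⟨_, h1⟩
  obtain ⟨m', hm'⟩ := h2
  have h3 : m' ^ 2 = a * K2.natAbs := by
    rw [hm', mul_pow] at h1
    exact Nat.eq_of_mul_eq_mul_left (Nat.pow_pos (Nat.pos_of_ne_zero hk0)) h1
  have h4 : a ∣ m' := (hsf.dvd_pow_iff_dvd (by norm_num : (2:ℕ) ≠ 0)).mp ⟨_, h3⟩
  obtain ⟨m'', hm''⟩ := h4
  have ha0 : a ≠ 0 := hsf.ne_zero
  have h5 : a ∣ K2.natAbs := by
    refine ⟨m'' ^ 2, ?_⟩
    rw [hm''] at h3
    have : a * (a * m'' ^ 2) = a * K2.natAbs := by rw [← h3]; ring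
    exact (Nat.eq_of_mul_eq_mul_left (Nat.pos_of_ne_zero ha0) this).symm
  have d1 : (a : ℤ) ∣ D - N := by
    rw [← Int.dvd_natAbs]
    exact_mod_cast (⟨k ^ 2, by rw [← hak]; ring⟩ : a ∣ (D - N).natAbs)
  have d2 : (a : ℤ) ∣ K2 := by
    rw [← Int.dvd_natAbs]
    exact_mod_cast h5
  have d3 : (a : ℤ) ∣ N ^ 3 * 4 := by
    have e : N ^ 3 * 4 = D ^ 2 * (D - N) - K2 := by rw [hK2]; ring
    rw [e]
    exact dvd_sub (dvd_mul_of_dvd_right d1 _) d2
  have c1 : IsCoprime N (D - N) := by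
    obtain ⟨x, y, hxy⟩ := hco
    exact ⟨x + y, y, by linear_combination hxy⟩
  have c2 : IsCoprime (a : ℤ) N := by
    obtain ⟨j, hj⟩ := d1
    rw [hj] at c1
    exact (IsCoprime.of_mul_right_left c1).symm
  have d4 : (a : ℤ) ∣ 4 := (c2.pow_right (n := 3)).dvd_of_dvd_mul_left d3
  have d5 : a ∣ 4 := by exact_mod_cast d4
  have ha4 : a ≤ 4 := Nat.le_of_dvd (by norm_num) d5
  refine ⟨k, a, ?_, by rw [← hak]; ring⟩
  interval_cases a
  · exact absurd rfl ha0
  · left; rfl
  · right; rfl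
  · exfalso; revert d5; norm_num
  · exfalso
    have : IsUnit (2 : ℕ) := hsf 2 ⟨1, by norm_num⟩
    rw [Nat.isUnit_iff] at this
    omega

theorem quartic_mem {b τ : ℚ} {H : ℕ} {N : ℤ} (hτ : τ ∈ ({1, -1} : Finset ℚ))
    (hbN : b = τ * (N : ℚ) / (b.den : ℚ)) (hNH : N.natAbs ≤ H) (hDH : b.den ≤ H)
    (hco : IsCoprime N (b.den : ℤ)) {m : ℤ} (hne : (b.den : ℤ) - N ≠ 0)
    (h : m ^ 2 = ((b.den : ℤ) - N) * ((b.den : ℤ) ^ 3 - N * (b.den : ℤ) ^ 2 - 4 * N ^ 3)) :
    b ∈ G2 b.den H := by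
  obtain ⟨k, a, ha, hk⟩ := quartic_class hco hne h
  obtain ⟨σ, hσ, hσd⟩ : ∃ σ : ℚ, σ ∈ ({1, -1} : Finset ℚ) ∧
      ((b.den : ℚ) - N) = σ * ((a : ℚ) * (k : ℚ) ^ 2) := by
    rcases lt_or_gt_of_ne hne with h | h
    · refine ⟨-1, by simp, ?_⟩
      have h1 : (b.den : ℤ) - N = - ((a * k ^ 2 : ℕ) : ℤ) := by rw [← hk]; omega
      have h2 : (b.den : ℚ) - N = - ((a * k ^ 2 : ℕ) : ℚ) := by exact_mod_cast h1
      rw [h2]; push_cast; ring
    · refine ⟨1, by simp, ?_⟩
      have h1 : (b.den : ℤ) - N = ((a * k ^ 2 : ℕ) : ℤ) := by rw [← hk]; omega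
      have h2 : (b.den : ℚ) - N = ((a * k ^ 2 : ℕ) : ℚ) := by exact_mod_cast h1
      rw [h2]; push_cast; ring
  rw [G2, Finset.mem_image]
  refine ⟨(k, σ, (a : ℚ), τ), ?_, ?_⟩
  · simp only [Finset.mem_product]
    refine ⟨?_, hσ, ?_, hτ⟩
    · rw [Finset.mem_range, Nat.lt_succ_iff, Nat.le_sqrt]
      have h1 : k * k ≤ a * k ^ 2 := by
        rcases ha with rfl | rfl <;> nlinarith
      have h2 : ((b.den : ℤ) - N).natAbs ≤ 2 * H := by omega
      omega
    · rcases ha with rfl | rfl <;> simp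
  · simp only
    rw [← hσd]
    have : τ * ((b.den : ℚ) - ((b.den : ℚ) - N)) / (b.den : ℚ) = τ * (N : ℚ) / (b.den : ℚ) := by
      ring
    rw [this]
    exact hbN.symm

theorem thin_mem {b : ℚ} {H : ℕ} (hb : b ∈ Box H) (hT : Thin b) : b ∈ G1 b.den ∪ G2 b.den H := by
  obtain ⟨hb0, hNH, hDH⟩ := hb
  have hDq : (b.den : ℚ) ≠ 0 := by exact_mod_cast b.den_ne_zero
  have hbD : b * b.den = b.num := Rat.mul_den_eq_num b
  have hco : IsCoprime b.num (b.den : ℤ) := by
    rw [Int.isCoprime_iff_gcd_eq_one]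
    exact b.reduced
  set N := b.num with hN
  set D : ℤ := (b.den : ℤ) with hD
  have hDD : (D : ℚ) = (b.den : ℚ) := by rw [hD]; push_cast; rfl
  rw [Finset.mem_union]
  rcases hT with ⟨q, hq⟩ | ⟨q, hq⟩ | ⟨q, hq0, hq⟩ | ⟨q, hq0, hq⟩ | ⟨q, hq0, hq⟩ | ⟨h0, q, hq⟩ |
    ⟨h0, q, hq⟩
  · left
    obtain ⟨m, hm, _⟩ := int_of_sq (q := q * b.den) (z := D ^ 2 + 4 * N ^ 2) (by
      push_cast; rw [hDD, ← hbD, mul_pow, hq]; ring)
    apply conic_mem (d := m - 2 * N) (e := m + 2 * N) (w := 4) (s := -1) (t := 0)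
    · linear_combination hm
    · simp
    · simp
    · simp
    · push_cast; ring
  · left
    obtain ⟨m, hm, _⟩ := int_of_sq (q := q * b.den) (z := D ^ 2 + N ^ 2) (by
      push_cast; rw [hDD, ← hbD, mul_pow, hq]; ring)
    apply conic_mem (d := m - N) (e := m + N) (w := 2) (s := -1) (t := 0)
    · linear_combination hm
    · simp
    · simp
    · simp
    · push_cast; ring
  · left
    obtain ⟨m, hm, _⟩ := int_of_sq (q := q * b.den) (z := N ^ 2 - D ^ 2) (by
      push_cast; rw [hDD, ← hbD, mul_pow, hq]; ring)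
    apply conic_mem (d := N - m) (e := N + m) (w := 2) (s := 1) (t := 0)
    · linear_combination - hm
    · simp
    · simp
    · simp
    · push_cast; ring
  · left
    obtain ⟨m, hm, _⟩ := int_of_sq (q := q * b.den) (z := N ^ 2 - N * D) (by
      push_cast; rw [hDD, ← hbD, mul_pow, hq]; ring)
    apply conic_mem (d := 2 * N - D - 2 * m) (e := 2 * N - D + 2 * m) (w := 4) (s := 1) (t := 1)
    · linear_combination (-4) * hm
    · simp
    · simp
    · simp
    · push_cast; rw [hDD]; ring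
  · left
    obtain ⟨m, hm, _⟩ := int_of_sq (q := q * b.den) (z := N ^ 2 + N * D) (by
      push_cast; rw [hDD, ← hbD, mul_pow, hq]; ring)
    apply conic_mem (d := 2 * N + D - 2 * m) (e := 2 * N + D + 2 * m) (w := 4) (s := 1) (t := -1)
    · linear_combination (-4) * hm
    · simp
    · simp
    · simp
    · push_cast; rw [hDD]; ring
  · right
    obtain ⟨m, hm, _⟩ := int_of_sq (q := q * (b.den : ℚ) ^ 2)
      (z := (D - N) * (D ^ 3 - N * D ^ 2 - 4 * N ^ 3)) (by
      push_cast; rw [hDD, ← hbD, mul_pow, hq]; ring)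
    apply quartic_mem (τ := 1) (N := N) (by simp) _ hNH hDH hco (m := m) _ hm
    · rw [one_mul, hN]; exact (Rat.num_div_den b).symm
    · intro h1
      apply h0
      have h2 : (N : ℚ) = (b.den : ℚ) := by
        rw [← hDD]; exact_mod_cast (by omega : N = D)
      rw [← hbD] at h2
      exact (mul_eq_right₀ hDq).mp h2
  · right
    obtain ⟨m, hm, _⟩ := int_of_sq (q := q * (b.den : ℚ) ^ 2)
      (z := (D - (-N)) * (D ^ 3 - (-N) * D ^ 2 - 4 * (-N) ^ 3)) (by
      push_cast; rw [hDD, ← hbD, mul_pow, hq]; ring)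
    apply quartic_mem (τ := -1) (N := -N) (by simp) _ (by omega) hDH hco.neg_left (m := m) _ hm
    · push_cast
      rw [neg_one_mul, neg_neg, hN]; exact (Rat.num_div_den b).symm
    · intro h1
      apply h0
      have h2 : (N : ℚ) = -(b.den : ℚ) := by
        rw [← hDD]; exact_mod_cast (by omega : N = -D)
      rw [← hbD] at h2
      have h3 : (b + 1) * (b.den : ℚ) = 0 := by linear_combination h2
      rcases mul_eq_zero.mp h3 with h4 | h4
      · linarith
      · exact absurd h4 hDq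

theorem thin_count : ∃ C : ℝ, 0 ≤ C ∧ ∀ H : ℕ,
    ({b : ℚ | b ∈ Box H ∧ Thin b}.ncard : ℝ) ≤ C * (H : ℝ) ^ (3 / 2 : ℝ) := by
  obtain ⟨C, hC, h⟩ := sup3_card (ε := 1 / 2) (by norm_num)
  refine ⟨24 * C + 24, by linarith, ?_⟩
  intro H
  have hsub : {b : ℚ | b ∈ Box H ∧ Thin b} ⊆
      (((Finset.Icc 1 H).biUnion (fun D => G1 D ∪ G2 D H) : Finset ℚ) : Set ℚ) := by
    rintro b ⟨hb, hT⟩
    rw [Finset.mem_coe, Finset.mem_biUnion]
    exact ⟨b.den, Finset.mem_Icc.mpr ⟨b.den_pos, hb.2.2⟩, thin_mem hb hT⟩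
  have h1 : {b : ℚ | b ∈ Box H ∧ Thin b}.ncard ≤
      ∑ D ∈ Finset.Icc 1 H, (24 * (sup3 D).card + 8 * (Nat.sqrt (2 * H) + 1)) := by
    calc {b : ℚ | b ∈ Box H ∧ Thin b}.ncard
        ≤ _ := Set.ncard_le_ncard hsub (Finset.finite_toSet _)
      _ = ((Finset.Icc 1 H).biUnion (fun D => G1 D ∪ G2 D H)).card := Set.ncard_coe_finset _
      _ ≤ ∑ D ∈ Finset.Icc 1 H, (G1 D ∪ G2 D H).card := Finset.card_biUnion_le
      _ ≤ _ := by
        apply Finset.sum_le_sum
        intro D hD
        have hD1 := (Finset.mem_Icc.mp hD).1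
        refine le_trans (Finset.card_union_le _ _) (Nat.add_le_add ?_ (G2_card D H))
        refine le_trans (G1_card D) (Nat.mul_le_mul_left _ (Finset.card_le_card ?_))
        intro x hx
        rw [Nat.mem_divisors] at hx
        rw [sup3, Finset.mem_filter, Finset.mem_Icc]
        have hD2 : 0 < D ^ 2 := by positivity
        refine ⟨⟨Nat.pos_of_dvd_of_pos hx.1 hD2, ?_⟩, ?_⟩
        · refine le_trans (Nat.le_of_dvd hD2 hx.1) ?_
          exact Nat.pow_le_pow_right hD1 (by norm_num)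
        · intro p hp
          exact (Nat.prime_of_mem_primeFactors hp).dvd_of_dvd_pow
            (dvd_trans (Nat.dvd_of_mem_primeFactors hp) hx.1)
  rcases Nat.eq_zero_or_pos H with hH | hH
  · subst hH
    have h2 : Finset.Icc 1 0 = (∅ : Finset ℕ) := by simp
    rw [h2, Finset.sum_empty] at h1
    have h3 : {b : ℚ | b ∈ Box 0 ∧ Thin b}.ncard = 0 := by omega
    rw [h3, Nat.cast_zero]
    have : (0:ℝ) ≤ 24 * C + 24 := by linarith
    positivity
  have hHpos : (0:ℝ) < H := by exact_mod_cast hH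
  have hH1 : (1:ℝ) ≤ (H : ℝ) ^ (1 / 2 : ℝ) :=
    Real.one_le_rpow (by exact_mod_cast hH) (by norm_num)
  have hsqrt : ((Nat.sqrt (2 * H) : ℕ) : ℝ) ≤ 2 * (H : ℝ) ^ (1 / 2 : ℝ) := by
    have h2 : ((Nat.sqrt (2 * H) : ℕ) : ℝ) ≤ Real.sqrt ((2 * H : ℕ) : ℝ) := Real.nat_sqrt_le_real_sqrt
    refine le_trans h2 ?_
    rw [Real.sqrt_le_left (by positivity), mul_pow, ← Real.rpow_natCast ((H : ℝ) ^ (1 / 2 : ℝ)),
      ← Real.rpow_mul hHpos.le]
    norm_num
    linarith
  calc ({b : ℚ | b ∈ Box H ∧ Thin b}.ncard : ℝ)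
      ≤ ((∑ D ∈ Finset.Icc 1 H, (24 * (sup3 D).card + 8 * (Nat.sqrt (2 * H) + 1)) : ℕ) : ℝ) := by
        exact_mod_cast h1
    _ = ∑ D ∈ Finset.Icc 1 H, (24 * ((sup3 D).card : ℝ) +
          8 * (((Nat.sqrt (2 * H) : ℕ) : ℝ) + 1)) := by push_cast; rfl
    _ ≤ ∑ D ∈ Finset.Icc 1 H, (24 * C + 24) * (H : ℝ) ^ (1 / 2 : ℝ) := by
        apply Finset.sum_le_sum
        intro D hD
        obtain ⟨hD1, hD2⟩ := Finset.mem_Icc.mp hD
        have h2 := h D hD1
        have h3 : (D : ℝ) ^ (1 / 2 : ℝ) ≤ (H : ℝ) ^ (1 / 2 : ℝ) :=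
          Real.rpow_le_rpow (by positivity) (by exact_mod_cast hD2) (by norm_num)
        have h4 : C * (D : ℝ) ^ (1 / 2 : ℝ) ≤ C * (H : ℝ) ^ (1 / 2 : ℝ) :=
          mul_le_mul_of_nonneg_left h3 (by linarith)
        nlinarith
    _ = (24 * C + 24) * (H : ℝ) ^ (3 / 2 : ℝ) := by
        rw [Finset.sum_const, Nat.card_Icc, nsmul_eq_mul, Nat.add_sub_cancel]
        have e : (3 / 2 : ℝ) = 1 + 1 / 2 := by norm_num
        rw [e, Real.rpow_add hHpos, Real.rpow_one]
        ring

end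

section

theorem period_two {b c : ℚ} (hb : b ≠ 0) (hc : c ≠ 0) (hB : ¬ Bad b) (hT : ¬ Thin b)
    {P : Option ℚ} (hP : P ∈ Function.periodicPts (f b c)) :
    Function.minimalPeriod (f b c) P = 1 ∨ Function.minimalPeriod (f b c) P = 2 := by
  have h2 : (f b c)^[2] P = P := by
    rcases P with _ | x
    · exact iter_none b c 2
    obtain ⟨hx0, u, s, n, C, hu0⟩ := orbit_of_periodic hb hc hP
    have hall : ∀ i, |s i * s (i + 1)| = 1 := by
      by_contra hcon
      exact hB ⟨u, s, n, C, hcon⟩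
    have hs0 : (s 0) ^ 2 = 1 := by
      rcases of_t C hall with h1 | h1
      · exact h1 0
      · exfalso
        have h2 := C.t_eq 0
        rw [h1 0] at h2
        apply hT
        right; left
        exact ⟨b * s 0 + 1, by linear_combination b * h2⟩
    have h1 := C.hs 0
    rw [hu0] at h1
    have hfx : b * x + c / x = s 0 * x := by
      rw [h1]; field_simp
    have hsx : s 0 * x ≠ 0 := mul_ne_zero (C.s0 0) hx0
    show f b c (f b c (some x)) = some x
    rw [f_some b c hx0, hfx, f_some b c hsx]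
    congr 1
    have h3 : (s 0 - 1) * (s 0 + 1) = 0 := by linear_combination hs0
    rcases mul_eq_zero.mp h3 with h4 | h4
    · have h5 : s 0 = 1 := by linarith
      rw [h5, one_mul, hfx, h5, one_mul]
    · have h5 : s 0 = -1 := by linarith
      rw [h5]
      have h6 : b * (-1 * x) + c / (-1 * x) = - (b * x + c / x) := by
        field_simp
        ring
      rw [h6, hfx, h5]
      ring
  have hd : Function.minimalPeriod (f b c) P ∣ 2 :=
    Function.IsPeriodicPt.minimalPeriod_dvd h2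
  have h5 : Function.minimalPeriod (f b c) P ≤ 2 := Nat.le_of_dvd (by norm_num) hd
  interval_cases hm : Function.minimalPeriod (f b c) P
  · omega
  · left; rfl
  · right; rfl

/-- all periods are `1` or `2`, there are at most six preperiodic points, and six occur -/
def Settled (b : ℚ) : Prop :=
  (∀ c : ℚ, c ≠ 0 →
    (∀ P ∈ Function.periodicPts (f b c),
      Function.minimalPeriod (f b c) P = 1 ∨ Function.minimalPeriod (f b c) P = 2) ∧
    (PrePer b c).Finite ∧ (PrePer b c).ncard ≤ 6) ∧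
  ∃ c : ℚ, c ≠ 0 ∧ (PrePer b c).ncard = 6

theorem settled_of {b : ℚ} (hb : b ≠ 0) (hB : ¬ Bad b) (hT : ¬ Thin b) : Settled b :=
  ⟨fun c hc => ⟨fun P hP => period_two hb hc hB hT hP, (six_of hb hB hT).1 c hc⟩,
    (six_of hb hB hT).2⟩

theorem settled_int {z : ℤ} (hz : z ≠ 0) : Settled (z : ℚ) :=
  settled_of (by exact_mod_cast hz) (not_bad_int (Rat.den_intCast z)) (not_thin_int hz)

theorem bad_count_one {ε : ℝ} (hε : 0 < ε) : ∃ C : ℝ, 1 ≤ C ∧ ∀ N : ℕ, 1 ≤ N →
    {b : ℚ | Bad b ∧ b.num.natAbs = N}.Finite ∧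
    ({b : ℚ | Bad b ∧ b.num.natAbs = N}.ncard : ℝ) ≤ C * (N : ℝ) ^ ε := by
  obtain ⟨C, hC, h⟩ := sup3_card (ε := ε / 5) (by linarith)
  refine ⟨4 * C ^ 5, by nlinarith [one_le_pow₀ (n := 5) hC], ?_⟩
  intro N hN
  have hNpos : (0:ℝ) < N := by exact_mod_cast hN
  have hsub : {b : ℚ | Bad b ∧ b.num.natAbs = N} ⊆
      (((index N).image (cand N) : Finset ℚ) : Set ℚ) := by
    intro b hb
    have := bad_mem hb.1
    rw [hb.2] at this
    exact this
  refine ⟨(Finset.finite_toSet _).subset hsub, ?_⟩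
  have h1 : {b : ℚ | Bad b ∧ b.num.natAbs = N}.ncard ≤ 4 * (sup3 N).card ^ 5 := by
    calc {b : ℚ | Bad b ∧ b.num.natAbs = N}.ncard
        ≤ (((index N).image (cand N) : Finset ℚ) : Set ℚ).ncard :=
          Set.ncard_le_ncard hsub (Finset.finite_toSet _)
      _ = ((index N).image (cand N)).card := Set.ncard_coe_finset _
      _ ≤ (index N).card := Finset.card_image_le
      _ = _ := index_card N
  calc ({b : ℚ | Bad b ∧ b.num.natAbs = N}.ncard : ℝ)
      ≤ ((4 * (sup3 N).card ^ 5 : ℕ) : ℝ) := by exact_mod_cast h1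
    _ = 4 * ((sup3 N).card : ℝ) ^ 5 := by push_cast; ring
    _ ≤ 4 * (C * (N : ℝ) ^ (ε / 5)) ^ 5 := by
        apply mul_le_mul_of_nonneg_left _ (by norm_num)
        exact pow_le_pow_left₀ (by positivity) (h N hN) 5
    _ = 4 * C ^ 5 * (N : ℝ) ^ ε := by
        rw [mul_pow, ← Real.rpow_natCast ((N : ℝ) ^ (ε / 5)), ← Real.rpow_mul hNpos.le]
        have : ε / 5 * ((5 : ℕ) : ℝ) = ε := by push_cast; ring
        rw [this]
        ring

theorem bad_count {ε : ℝ} (hε : 0 < ε) : ∃ C : ℝ, 1 ≤ C ∧ ∀ H : ℕ,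
    {b : ℚ | Bad b ∧ b.num.natAbs ≤ H}.Finite ∧
    ({b : ℚ | Bad b ∧ b.num.natAbs ≤ H}.ncard : ℝ) ≤ C * (H : ℝ) ^ (1 + ε) := by
  obtain ⟨C, hC, h⟩ := bad_count_one hε
  refine ⟨C, hC, ?_⟩
  intro H
  have heq : {b : ℚ | Bad b ∧ b.num.natAbs ≤ H} =
      ⋃ N ∈ Finset.Icc 1 H, {b : ℚ | Bad b ∧ b.num.natAbs = N} := by
    ext b
    simp only [Set.mem_setOf_eq, Set.mem_iUnion, Finset.mem_Icc, exists_prop]
    constructor
    · rintro ⟨h1, h2⟩
      refine ⟨b.num.natAbs, ⟨?_, h2⟩, h1, rfl⟩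
      obtain ⟨u, s, n, C, _⟩ := h1
      have : b.num.natAbs ≠ 0 := by simpa using C.hb
      omega
    · rintro ⟨N, ⟨_, h2⟩, h3, h4⟩
      exact ⟨h3, by omega⟩
  have hfin : {b : ℚ | Bad b ∧ b.num.natAbs ≤ H}.Finite := by
    rw [heq]
    apply Set.Finite.biUnion (Finset.finite_toSet _)
    intro N hN
    have hN' := Finset.mem_coe.mp hN
    exact (h N (Finset.mem_Icc.mp hN').1).1
  refine ⟨hfin, ?_⟩
  have hcard : ({b : ℚ | Bad b ∧ b.num.natAbs ≤ H}.ncard : ℝ) ≤
      ∑ N ∈ Finset.Icc 1 H, ({b : ℚ | Bad b ∧ b.num.natAbs = N}.ncard : ℝ) := by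
    have h1 : {b : ℚ | Bad b ∧ b.num.natAbs ≤ H}.ncard ≤
        ∑ N ∈ Finset.Icc 1 H, {b : ℚ | Bad b ∧ b.num.natAbs = N}.ncard := by
      rw [heq]
      exact Finset.set_ncard_biUnion_le _ _
    exact_mod_cast h1
  rcases Nat.eq_zero_or_pos H with hH | hH
  · subst hH
    have : Finset.Icc 1 0 = (∅ : Finset ℕ) := by simp
    rw [this, Finset.sum_empty] at hcard
    refine le_trans hcard ?_
    positivity
  have hHpos : (0:ℝ) < H := by exact_mod_cast hH
  calc ({b : ℚ | Bad b ∧ b.num.natAbs ≤ H}.ncard : ℝ)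
      ≤ ∑ N ∈ Finset.Icc 1 H, ({b : ℚ | Bad b ∧ b.num.natAbs = N}.ncard : ℝ) := hcard
    _ ≤ ∑ N ∈ Finset.Icc 1 H, C * (H : ℝ) ^ ε := by
        apply Finset.sum_le_sum
        intro N hN
        obtain ⟨h1, h2⟩ := Finset.mem_Icc.mp hN
        refine le_trans (h N h1).2 ?_
        apply mul_le_mul_of_nonneg_left _ (by linarith)
        exact Real.rpow_le_rpow (by positivity) (by exact_mod_cast h2) hε.le
    _ = C * (H : ℝ) ^ (1 + ε) := by
        rw [Finset.sum_const, Nat.card_Icc, nsmul_eq_mul, Real.rpow_add hHpos, Real.rpow_one,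
          Nat.add_sub_cancel]
        ring

theorem unsettled_count : ∃ C : ℝ, 0 ≤ C ∧ ∀ H : ℕ,
    ((Box H ∩ {b : ℚ | ¬ Settled b}).ncard : ℝ) ≤ C * (H : ℝ) ^ (3 / 2 : ℝ) := by
  obtain ⟨C1, h1, k1⟩ := bad_count (ε := 1 / 2) (by norm_num)
  obtain ⟨C2, h2, k2⟩ := thin_count
  refine ⟨C1 + C2, by linarith, ?_⟩
  intro H
  have hsub : (Box H ∩ {b : ℚ | ¬ Settled b}) ⊆
      {b : ℚ | Bad b ∧ b.num.natAbs ≤ H} ∪ {b : ℚ | b ∈ Box H ∧ Thin b} := by
    rintro b ⟨hb, hS⟩
    by_cases hB : Bad b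
    · left; exact ⟨hB, hb.2.1⟩
    · by_cases hT : Thin b
      · right; exact ⟨hb, hT⟩
      · exact absurd (settled_of hb.1 hB hT) hS
  have hfin2 : {b : ℚ | b ∈ Box H ∧ Thin b}.Finite := (box_finite H).subset (fun b hb => hb.1)
  have h3 : (Box H ∩ {b : ℚ | ¬ Settled b}).ncard ≤
      {b : ℚ | Bad b ∧ b.num.natAbs ≤ H}.ncard + {b : ℚ | b ∈ Box H ∧ Thin b}.ncard :=
    le_trans (Set.ncard_le_ncard hsub ((k1 H).1.union hfin2)) (Set.ncard_union_le _ _)
  have h4 : ((Box H ∩ {b : ℚ | ¬ Settled b}).ncard : ℝ) ≤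
      ({b : ℚ | Bad b ∧ b.num.natAbs ≤ H}.ncard : ℝ) +
        ({b : ℚ | b ∈ Box H ∧ Thin b}.ncard : ℝ) := by exact_mod_cast h3
  have h5 := (k1 H).2
  have h6 := k2 H
  rw [show (1 + 1 / 2 : ℝ) = 3 / 2 by norm_num] at h5
  calc ((Box H ∩ {b : ℚ | ¬ Settled b}).ncard : ℝ) ≤ _ := h4
    _ ≤ C1 * (H : ℝ) ^ (3 / 2 : ℝ) + C2 * (H : ℝ) ^ (3 / 2 : ℝ) := add_le_add h5 h6
    _ = _ := by ring

theorem settled_density : Filter.Tendsto
    (fun H : ℕ => ((Box H ∩ {b : ℚ | Settled b}).ncard : ℝ) / ((Box H).ncard : ℝ))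
    Filter.atTop (nhds 1) := by
  obtain ⟨C, hC, h⟩ := unsettled_count
  have hzero : Filter.Tendsto
      (fun H : ℕ => ((Box H ∩ {b : ℚ | ¬ Settled b}).ncard : ℝ) / ((Box H).ncard : ℝ))
      Filter.atTop (nhds 0) := by
    have hlim : Filter.Tendsto (fun H : ℕ => (4 * C) * ((H : ℝ) ^ (-(1 / 2 : ℝ)))) Filter.atTop
        (nhds 0) := by
      have h1 := (tendsto_rpow_neg_atTop (y := (1 / 2 : ℝ)) (by norm_num)).comp
        (tendsto_natCast_atTop_atTop (R := ℝ))
      have h2 := h1.const_mul (4 * C)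
      rw [mul_zero] at h2
      exact h2
    refine squeeze_zero' (Filter.Eventually.of_forall (fun H => by positivity)) ?_ hlim
    filter_upwards [Filter.eventually_ge_atTop 1] with H hH
    have hHpos : (0:ℝ) < H := by exact_mod_cast hH
    have hb := box_card H
    have hbpos : (0:ℝ) < ((Box H).ncard : ℝ) := by
      have : (0:ℝ) < (H : ℝ) ^ 2 := by positivity
      linarith
    rw [div_le_iff₀ hbpos]
    have h1 := h H
    have h2 : C * (H : ℝ) ^ (3 / 2 : ℝ) = (C * (H : ℝ) ^ (-(1 / 2 : ℝ))) * (H : ℝ) ^ 2 := by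
      rw [mul_assoc, ← Real.rpow_natCast (H : ℝ) 2, ← Real.rpow_add hHpos]
      norm_num
    rw [h2] at h1
    have h3 : (0:ℝ) ≤ C * (H : ℝ) ^ (-(1 / 2 : ℝ)) := by positivity
    calc ((Box H ∩ {b : ℚ | ¬ Settled b}).ncard : ℝ)
        ≤ (C * (H : ℝ) ^ (-(1 / 2 : ℝ))) * (H : ℝ) ^ 2 := h1
      _ ≤ (C * (H : ℝ) ^ (-(1 / 2 : ℝ))) * (4 * ((Box H).ncard : ℝ)) :=
          mul_le_mul_of_nonneg_left hb h3
      _ = _ := by ring
  have hone := hzero.const_sub 1
  rw [sub_zero] at hone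
  refine hone.congr' ?_
  filter_upwards [Filter.eventually_ge_atTop 1] with H hH
  have hHpos : (0:ℝ) < H := by exact_mod_cast hH
  have hb := box_card H
  have hbpos : (0:ℝ) < ((Box H).ncard : ℝ) := by
    have : (0:ℝ) < (H : ℝ) ^ 2 := by positivity
    linarith
  have hsplit : (Box H ∩ {b : ℚ | Settled b}).ncard + (Box H ∩ {b : ℚ | ¬ Settled b}).ncard =
      (Box H).ncard := by
    have h1 : Box H ∩ {b : ℚ | ¬ Settled b} = Box H \ {b : ℚ | Settled b} := by
      ext b
      simp [Set.mem_diff]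
    rw [h1]
    exact Set.ncard_inter_add_ncard_diff_eq_ncard _ _ (box_finite H)
  have hsplit' : ((Box H ∩ {b : ℚ | Settled b}).ncard : ℝ) +
      ((Box H ∩ {b : ℚ | ¬ Settled b}).ncard : ℝ) = ((Box H).ncard : ℝ) := by
    exact_mod_cast hsplit
  rw [eq_div_iff hbpos.ne', sub_mul, div_mul_cancel₀ _ hbpos.ne']
  linarith

theorem main2 :
    (∀ b : ℤ, b ≠ 0 → Settled (b : ℚ)) ∧
    (∃ C : ℝ, ∀ H : ℕ, ((Box H ∩ {b : ℚ | ¬ Settled b}).ncard : ℝ) ≤
      C * (H : ℝ) ^ (3 / 2 : ℝ)) ∧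
    Filter.Tendsto (fun H : ℕ => ((Box H ∩ {b : ℚ | Settled b}).ncard : ℝ) /
      ((Box H).ncard : ℝ)) Filter.atTop (nhds 1) := by
  obtain ⟨C, _, h⟩ := unsettled_count
  exact ⟨fun b hb => settled_int hb, ⟨C, h⟩, settled_density⟩

end

/-- Non-zero integers, and almost all rational numbers ordered by height, are settled. -/
theorem result :
    (∀ b : ℤ, b ≠ 0 → Settled (b : ℚ)) ∧
    (∃ C : ℝ, ∀ H : ℕ, ((Box H ∩ {b : ℚ | ¬ Settled b}).ncard : ℝ) ≤
      C * (H : ℝ) ^ (3 / 2 : ℝ)) ∧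
    Filter.Tendsto (fun H : ℕ => ((Box H ∩ {b : ℚ | Settled b}).ncard : ℝ) /
      ((Box H).ncard : ℝ)) Filter.atTop (nhds 1) :=
  main2

end Pool.Agent.Results.MP_869812_nt.OddMaps
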